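import Pool.Agent.Helper82.OneArm.GFun

/-! Basic facts on `mp`, `wt` (module Basic). -/

open Real MeasureTheory Filter Topology

namespace OneArm

theorem wt_pos (v : ℝ) : 0 < wt v := inv_pos.mpr (Real.cosh_pos _)

theorem wt_cont : Continuous wt := by
  unfold wt
  exact (Real.continuous_cosh.comp (continuous_const.mul continuous_id)).inv₀
    (fun v => (Real.cosh_pos _).ne')

theorem wt_neg (v : ℝ) : wt (-v) = wt v := by
  unfold wt
  rw [mul_neg, Real.cosh_neg]

theorem wt_le_exp (v : ℝ) : wt v ≤ 2 * Real.exp (-(π * |v|)) := by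
  unfold wt
  have h := cosh_ge_exp (π * v)
  rw [abs_mul, abs_of_pos Real.pi_pos] at h
  rw [Real.exp_neg, inv_eq_one_div, ← div_eq_mul_inv, div_le_div_iff₀ (Real.cosh_pos _)
    (Real.exp_pos _)]
  linarith

theorem mp_cont : ∀ n : ℕ, Continuous (mp n)
  | 0 => by
    have : mp 0 = fun _ => (1 : ℝ) := by ext v; rfl
    rw [this]; exact continuous_const
  | 1 => by
    have : mp 1 = fun v => 2 * v := by ext v; rfl
    rw [this]; exact continuous_const.mul continuous_id
  | (n + 2) => by
    have : mp (n + 2) = fun v => (2 * v * mp (n + 1) v - (n + 1) * mp n v) / (n + 2) := by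
      ext v; rfl
    rw [this]
    exact (((continuous_const.mul continuous_id).mul (mp_cont (n + 1))).sub
      (continuous_const.mul (mp_cont n))).div_const _

theorem mp_rec (n : ℕ) (v : ℝ) :
    ((n : ℝ) + 2) * mp (n + 2) v = 2 * v * mp (n + 1) v - ((n : ℝ) + 1) * mp n v := by
  have : mp (n + 2) v = (2 * v * mp (n + 1) v - (n + 1) * mp n v) / (n + 2) := rfl
  rw [this]
  field_simp

theorem mp_growth_aux (v : ℝ) : ∀ n : ℕ, |mp n v| ≤ (2 * (1 + |v|)) ^ n ∧
    |mp (n + 1) v| ≤ (2 * (1 + |v|)) ^ (n + 1)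
  | 0 => by
    have h0 : mp 0 v = 1 := rfl
    have h1 : mp 1 v = 2 * v := rfl
    have hv := abs_nonneg v
    rw [h0]
    simp only [zero_add]
    rw [h1, abs_mul, abs_two]
    constructor
    · simp
    · rw [pow_one]; linarith
  | (n + 1) => by
    obtain ⟨h1, h2⟩ := mp_growth_aux v n
    refine ⟨h2, ?_⟩
    have hr := mp_rec n v
    have hv := abs_nonneg v
    set X := 2 * (1 + |v|) with hX
    have hX2 : 2 ≤ X := by linarith
    have hn : (0 : ℝ) < (n : ℝ) + 2 := by positivity
    have hn0 : (0 : ℝ) ≤ n := Nat.cast_nonneg n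
    have h3 : ((n : ℝ) + 2) * |mp (n + 2) v| ≤ 2 * |v| * X ^ (n + 1) + ((n : ℝ) + 1) * X ^ n := by
      have e1 : ((n : ℝ) + 2) * |mp (n + 2) v| =
          |2 * v * mp (n + 1) v - ((n : ℝ) + 1) * mp n v| := by
        rw [← hr, abs_mul, abs_of_pos hn]
      rw [e1]
      refine (abs_sub _ _).trans ?_
      rw [abs_mul, abs_mul, abs_mul, abs_two, abs_of_pos (by positivity : (0 : ℝ) < (n : ℝ) + 1)]
      have a1 := mul_le_mul_of_nonneg_left h2 (by positivity : 0 ≤ 2 * |v|)
      have a2 := mul_le_mul_of_nonneg_left h1 (by positivity : (0 : ℝ) ≤ (n : ℝ) + 1)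
      linarith
    have hXn : 0 < X ^ n := by positivity
    have h4 : 2 * |v| * X ^ (n + 1) + ((n : ℝ) + 1) * X ^ n ≤ ((n : ℝ) + 2) * X ^ (n + 1 + 1) := by
      have e2 : X ^ (n + 1 + 1) = X ^ n * (X * X) := by ring
      have e3 : X ^ (n + 1) = X ^ n * X := by ring
      rw [e2, e3]
      have e4 : 2 * |v| * X + ((n : ℝ) + 1) ≤ ((n : ℝ) + 2) * (X * X) := by
        have h6 : X * X = (X - 2 + 2) * X := by ring
        have h7 : 2 * |v| = X - 2 := by rw [hX]; ring
        rw [h7]
        nlinarith [mul_nonneg hn0 (by nlinarith : (0 : ℝ) ≤ X * X - 1)]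
      nlinarith
    have h5 : ((n : ℝ) + 2) * |mp (n + 2) v| ≤ ((n : ℝ) + 2) * X ^ (n + 1 + 1) := h3.trans h4
    exact le_of_mul_le_mul_left h5 hn

theorem mp_growth (n : ℕ) (v : ℝ) : |mp n v| ≤ (2 * (1 + |v|)) ^ n := (mp_growth_aux v n).1

theorem pow_wt_le (n : ℕ) (v : ℝ) :
    (1 + |v|) ^ n * wt v ≤ (2 * n.factorial * Real.exp 1) * Real.exp (-(2 * |v|)) := by
  have hv := abs_nonneg v
  have h1 : (1 + |v|) ^ n ≤ n.factorial * Real.exp (1 + |v|) := by
    have := Real.pow_div_factorial_le_exp (1 + |v|) (by linarith) n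
    rw [div_le_iff₀ (by exact_mod_cast Nat.factorial_pos n)] at this
    linarith
  calc (1 + |v|) ^ n * wt v ≤ (n.factorial * Real.exp (1 + |v|)) * (2 * Real.exp (-(π * |v|))) :=
        mul_le_mul h1 (wt_le_exp v) (wt_pos v).le (by positivity)
    _ = (2 * n.factorial) * (Real.exp (1 + |v|) * Real.exp (-(π * |v|))) := by ring
    _ ≤ (2 * n.factorial) * (Real.exp 1 * Real.exp (-(2 * |v|))) := by
        apply mul_le_mul_of_nonneg_left _ (by positivity)
        rw [← Real.exp_add, ← Real.exp_add]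
        apply Real.exp_le_exp.mpr
        have := Real.pi_gt_three
        nlinarith
    _ = (2 * n.factorial * Real.exp 1) * Real.exp (-(2 * |v|)) := by ring

/-- all products bounded function * polynomial * weight are integrable -/
theorem integrable_pow_wt (n : ℕ) : Integrable (fun v : ℝ => (1 + |v|) ^ n * wt v) := by
  refine ((integrable_exp_abs two_pos).const_mul (2 * n.factorial * Real.exp 1)).mono' ?_ ?_
  · exact (((continuous_const.add continuous_abs).pow n).mul wt_cont).aestronglyMeasurable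
  · refine Eventually.of_forall (fun v => ?_)
    have h0 : 0 ≤ (1 + |v|) ^ n * wt v := mul_nonneg (by positivity) (wt_pos v).le
    rw [Real.norm_eq_abs, abs_of_nonneg h0]
    exact pow_wt_le n v

theorem me_bound {M : ℝ} {z : ℂ} (hz : ‖z‖ ≤ M) (j k : ℕ) (v : ℝ) :
    ‖z * mp j v * mp k v * wt v‖ ≤ M * 2 ^ (j + k) * ((1 + |v|) ^ (j + k) * wt v) := by
  rw [norm_mul, norm_mul, norm_mul, Complex.norm_real, Complex.norm_real, Complex.norm_real,
    Real.norm_eq_abs, Real.norm_eq_abs, Real.norm_eq_abs, abs_of_pos (wt_pos v)]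
  have hM : 0 ≤ M := (norm_nonneg _).trans hz
  have h1 := mp_growth j v
  have h2 := mp_growth k v
  calc ‖z‖ * |mp j v| * |mp k v| * wt v ≤
        M * (2 * (1 + |v|)) ^ j * (2 * (1 + |v|)) ^ k * wt v := by
        apply mul_le_mul_of_nonneg_right _ (wt_pos v).le
        apply mul_le_mul _ h2 (abs_nonneg _) (by positivity)
        exact mul_le_mul hz h1 (abs_nonneg _) hM
    _ = M * 2 ^ (j + k) * ((1 + |v|) ^ (j + k) * wt v) := by
        rw [mul_pow, mul_pow, pow_add, pow_add]; ring

theorem integrable_me {u : ℝ → ℂ} {M : ℝ} (hu : AEStronglyMeasurable u volume)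
    (hb : ∀ v, ‖u v‖ ≤ M) (j k : ℕ) :
    Integrable (fun v => u v * mp j v * mp k v * wt v) := by
  refine ((integrable_pow_wt (j + k)).const_mul (M * 2 ^ (j + k))).mono' ?_ ?_
  · exact ((hu.mul (Complex.continuous_ofReal.comp (mp_cont j)).aestronglyMeasurable).mul
      (Complex.continuous_ofReal.comp (mp_cont k)).aestronglyMeasurable).mul
      (Complex.continuous_ofReal.comp wt_cont).aestronglyMeasurable
  · exact Eventually.of_forall (fun v => me_bound (hb v) j k v)

theorem integrable_real {u : ℝ → ℝ} {M : ℝ} (hu : AEStronglyMeasurable u volume)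
    (hb : ∀ v, |u v| ≤ M) (j k : ℕ) :
    Integrable (fun v => u v * mp j v * mp k v * wt v) := by
  refine ((integrable_pow_wt (j + k)).const_mul (M * 2 ^ (j + k))).mono' ?_ ?_
  · exact ((hu.mul (mp_cont j).aestronglyMeasurable).mul
      (mp_cont k).aestronglyMeasurable).mul wt_cont.aestronglyMeasurable
  · refine Eventually.of_forall (fun v => ?_)
    have h : ‖((u v : ℝ) : ℂ)‖ ≤ M := by
      rw [Complex.norm_real]; exact hb v
    have h2 := me_bound h j k v
    have e : ‖((u v : ℝ) : ℂ) * mp j v * mp k v * wt v‖ = ‖u v * mp j v * mp k v * wt v‖ := by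
      rw [← Complex.norm_real]; push_cast; rfl
    rw [e] at h2
    exact h2

end OneArm
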