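import Pool.Agent.Helper18.OneArm.Kappa
import Pool.Agent.Helper82.OneArm.Basic
import Pool.Agent.Helper82.OneArm.GFun

/-! Module Shift: the Hankel determinants `hk L θ` of helper18's interface are (up to a constant
independent of `θ`) the determinants of the compressions of `gf θ`.
Proof: substitution `v = 3 u / 2`, contour shift `u → u + i s`, `s = θ / (2 π) ≤ 1/4 < 1/3`
(rectangle integral), and the triangular change
of basis `(u + i s)^j → mp i u` (leading coefficient of `mp i` is `2^i / i!`). -/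

open Real MeasureTheory Filter Topology

namespace OneArm

/-- The integrand after the substitution, as a function of a complex variable. -/
noncomputable def shF (θ : ℝ) (k : ℕ) (z : ℂ) : ℂ :=
  Complex.cosh (π * z / 2 + Complex.I * θ / 2) / Complex.cosh (3 * π * z / 2) * z ^ k

theorem sh_cos_pos : 0 < Real.cos (3 * π / 8) := by
  apply Real.cos_pos_of_mem_Ioo
  have := Real.pi_pos
  constructor <;> linarith

theorem sh_cos_le {y : ℝ} (h0 : 0 ≤ y) (h1 : y ≤ 1 / 4) :
    Real.cos (3 * π / 8) ≤ Real.cos (3 * π * y / 2) := by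
  have hp := Real.pi_pos
  apply Real.cos_le_cos_of_nonneg_of_le_pi
  · positivity
  · linarith
  · nlinarith

theorem sh_arg (x y : ℝ) : (3 * π * ((x : ℂ) + (y : ℂ) * Complex.I) / 2 : ℂ) =
    ((3 * π * x / 2 : ℝ) : ℂ) + ((3 * π * y / 2 : ℝ) : ℂ) * Complex.I := by
  push_cast; ring

theorem sh_den (x : ℝ) {y : ℝ} (h0 : 0 ≤ y) (h1 : y ≤ 1 / 4) :
    Real.cosh (3 * π * x / 2) * Real.cos (3 * π / 8) ≤
      ‖Complex.cosh (3 * π * ((x : ℂ) + (y : ℂ) * Complex.I) / 2)‖ := by
  rw [sh_arg]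
  refine le_trans ?_ (le_norm_cosh _ _)
  exact mul_le_mul_of_nonneg_left (sh_cos_le h0 h1) (Real.cosh_pos _).le

theorem sh_den_ne (x : ℝ) {y : ℝ} (h0 : 0 ≤ y) (h1 : y ≤ 1 / 4) :
    Complex.cosh (3 * π * ((x : ℂ) + (y : ℂ) * Complex.I) / 2) ≠ 0 := by
  intro h
  have h2 := sh_den x h0 h1
  rw [h, norm_zero] at h2
  have := mul_pos (Real.cosh_pos (3 * π * x / 2)) sh_cos_pos
  linarith

theorem sh_den_ne' {z : ℂ} (h0 : 0 ≤ z.im) (h1 : z.im ≤ 1 / 4) :
    Complex.cosh (3 * π * z / 2) ≠ 0 := by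
  have := sh_den_ne z.re h0 h1
  rwa [Complex.re_add_im] at this

/-- `cosh (a/2) cosh a ≤ cosh (3a/2)` -/
theorem sh_cosh_ineq (x : ℝ) :
    Real.cosh (π * x / 2) * Real.cosh (π * x) ≤ Real.cosh (3 * π * x / 2) := by
  have e : 3 * π * x / 2 = π * x / 2 + π * x := by ring
  rw [e, Real.cosh_add]
  have : 0 ≤ Real.sinh (π * x / 2) * Real.sinh (π * x) := by
    rcases le_total 0 x with hx | hx
    · apply mul_nonneg
      · rw [Real.sinh_nonneg_iff]; positivity
      · rw [Real.sinh_nonneg_iff]; positivity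
    · apply mul_nonneg_of_nonpos_of_nonpos
      · rw [Real.sinh_nonpos_iff]
        have := mul_nonpos_of_nonneg_of_nonpos Real.pi_pos.le hx
        linarith
      · rw [Real.sinh_nonpos_iff]
        exact mul_nonpos_of_nonneg_of_nonpos Real.pi_pos.le hx
  linarith

theorem shF_bound (θ : ℝ) (k : ℕ) (x : ℝ) {y : ℝ} (h0 : 0 ≤ y) (h1 : y ≤ 1 / 4) :
    ‖shF θ k ((x : ℂ) + (y : ℂ) * Complex.I)‖ ≤
      (Real.cos (3 * π / 8))⁻¹ * ((1 + |x|) ^ k * wt x) := by
  unfold shF
  rw [norm_mul, norm_div, norm_pow]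
  have hc := sh_cos_pos
  have h2 := sh_den x h0 h1
  have h3 : ‖Complex.cosh (π * ((x : ℂ) + (y : ℂ) * Complex.I) / 2 + Complex.I * θ / 2)‖ ≤
      Real.cosh (π * x / 2) := by
    refine le_trans (norm_cosh_le _) ?_
    apply le_of_eq
    congr 1
    simp [Complex.add_re, Complex.mul_re]
  have h4 : ‖(x : ℂ) + (y : ℂ) * Complex.I‖ ≤ 1 + |x| := by
    refine le_trans (norm_add_le _ _) ?_
    rw [norm_mul, Complex.norm_I, mul_one, Complex.norm_real, Complex.norm_real,
      Real.norm_eq_abs, Real.norm_eq_abs, abs_of_nonneg h0]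
    linarith
  have h5 := sh_cosh_ineq x
  have hD : 0 < Real.cosh (3 * π * x / 2) * Real.cos (3 * π / 8) :=
    mul_pos (Real.cosh_pos _) hc
  have h6 : ‖Complex.cosh (π * ((x : ℂ) + (y : ℂ) * Complex.I) / 2 + Complex.I * θ / 2)‖ /
      ‖Complex.cosh (3 * π * ((x : ℂ) + (y : ℂ) * Complex.I) / 2)‖ ≤
      (Real.cos (3 * π / 8))⁻¹ * wt x := by
    rw [div_le_iff₀ (lt_of_lt_of_le hD h2)]
    refine le_trans h3 ?_
    have h7 : Real.cosh (π * x / 2) ≤
        (Real.cos (3 * π / 8))⁻¹ * wt x * (Real.cosh (3 * π * x / 2) * Real.cos (3 * π / 8)) := by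
      have e : (Real.cos (3 * π / 8))⁻¹ * wt x *
          (Real.cosh (3 * π * x / 2) * Real.cos (3 * π / 8)) =
          Real.cosh (3 * π * x / 2) / Real.cosh (π * x) := by
        unfold wt
        field_simp
      rw [e, le_div_iff₀ (Real.cosh_pos _)]
      exact h5
    refine le_trans h7 ?_
    apply mul_le_mul_of_nonneg_left h2
    have : 0 < wt x := by
      unfold wt
      exact inv_pos.mpr (Real.cosh_pos _)
    positivity
  calc _ ≤ ((Real.cos (3 * π / 8))⁻¹ * wt x) * (1 + |x|) ^ k := by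
        apply mul_le_mul h6 (pow_le_pow_left₀ (norm_nonneg _) h4 k) (by positivity)
        have : 0 < wt x := by
          unfold wt
          exact inv_pos.mpr (Real.cosh_pos _)
        positivity
    _ = _ := by ring

theorem shF_diff (θ : ℝ) (k : ℕ) {z : ℂ} (h0 : 0 ≤ z.im) (h1 : z.im ≤ 1 / 4) :
    DifferentiableAt ℂ (shF θ k) z := by
  unfold shF
  have h := sh_den_ne' h0 h1
  have d1 : DifferentiableAt ℂ (fun z : ℂ => Complex.cosh (π * z / 2 + Complex.I * θ / 2)) z := by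
    apply Complex.differentiable_cosh.differentiableAt.comp
    fun_prop
  have d2 : DifferentiableAt ℂ (fun z : ℂ => Complex.cosh (3 * π * z / 2)) z := by
    apply Complex.differentiable_cosh.differentiableAt.comp
    fun_prop
  exact (d1.div d2 h).mul (differentiableAt_id.pow k)

theorem shF_line_cont (θ : ℝ) (k : ℕ) {y : ℝ} (h0 : 0 ≤ y) (h1 : y ≤ 1 / 4) :
    Continuous (fun x : ℝ => shF θ k ((x : ℂ) + (y : ℂ) * Complex.I)) := by
  rw [continuous_iff_continuousAt]
  intro x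
  have hd : DifferentiableAt ℂ (shF θ k) ((x : ℂ) + (y : ℂ) * Complex.I) := by
    apply shF_diff
    · simpa using h0
    · simpa using h1
  have := hd.continuousAt
  exact ContinuousAt.comp (f := fun x : ℝ => ((x : ℂ) + (y : ℂ) * Complex.I)) this
    (by fun_prop)

theorem shF_integrable (θ : ℝ) (k : ℕ) {y : ℝ} (h0 : 0 ≤ y) (h1 : y ≤ 1 / 4) :
    Integrable (fun x : ℝ => shF θ k ((x : ℂ) + (y : ℂ) * Complex.I)) := by
  refine Integrable.mono' ((integrable_pow_wt k).const_mul (Real.cos (3 * π / 8))⁻¹)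
    (shF_line_cont θ k h0 h1).aestronglyMeasurable ?_
  exact Filter.Eventually.of_forall fun x => shF_bound θ k x h0 h1

/-- decay of the bound at infinity -/
theorem sh_tail (k : ℕ) :
    Tendsto (fun T : ℝ => (1 + |T|) ^ k * wt T) atTop (𝓝 0) := by
  have h1 : Tendsto (fun T : ℝ => (1 + T) ^ k * Real.exp (-(1 + T))) atTop (𝓝 0) := by
    have := Real.tendsto_pow_mul_exp_neg_atTop_nhds_zero k
    exact this.comp (tendsto_atTop_add_const_left _ _ tendsto_id)
  have h2 : Tendsto (fun T : ℝ => 2 * Real.exp 1 * ((1 + T) ^ k * Real.exp (-(1 + T)))) atTop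
      (𝓝 0) := by
    have := h1.const_mul (2 * Real.exp 1)
    simpa using this
  refine squeeze_zero' ?_ ?_ h2
  · filter_upwards with T
    have : 0 < wt T := wt_pos T
    positivity
  · filter_upwards [eventually_ge_atTop (0 : ℝ)] with T hT
    rw [abs_of_nonneg hT]
    have h3 := wt_le_exp T
    rw [abs_of_nonneg hT] at h3
    have h4 : Real.exp (-(π * T)) ≤ Real.exp 1 * Real.exp (-(1 + T)) := by
      rw [← Real.exp_add]
      apply Real.exp_le_exp.mpr
      have := Real.pi_gt_three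
      nlinarith
    have h5 : 0 ≤ (1 + T) ^ k := by positivity
    calc (1 + T) ^ k * wt T ≤ (1 + T) ^ k * (2 * (Real.exp 1 * Real.exp (-(1 + T)))) := by
          apply mul_le_mul_of_nonneg_left _ h5
          linarith
      _ = _ := by ring

theorem shF_shift (θ : ℝ) (k : ℕ) {s : ℝ} (h0 : 0 ≤ s) (h1 : s ≤ 1 / 4) :
    ∫ x : ℝ, shF θ k (x : ℂ) = ∫ x : ℝ, shF θ k ((x : ℂ) + (s : ℂ) * Complex.I) := by
  set f := shF θ k with hf
  have hint0 : Integrable (fun x : ℝ => f (x : ℂ)) := by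
    have := shF_integrable θ k (y := 0) le_rfl (by norm_num)
    simpa using this
  have hints := shF_integrable θ k h0 h1
  have ht0 : Tendsto (fun T : ℝ => ∫ x in (-T)..T, f (x : ℂ)) atTop (𝓝 (∫ x : ℝ, f (x : ℂ))) :=
    intervalIntegral_tendsto_integral hint0 tendsto_neg_atTop_atBot tendsto_id
  have hts : Tendsto (fun T : ℝ => ∫ x in (-T)..T, f ((x : ℂ) + (s : ℂ) * Complex.I)) atTop
      (𝓝 (∫ x : ℝ, f ((x : ℂ) + (s : ℂ) * Complex.I))) :=
    intervalIntegral_tendsto_integral hints tendsto_neg_atTop_atBot tendsto_id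
  -- vertical sides
  have hB : ∀ T : ℝ, ‖∫ y in (0 : ℝ)..s, f ((T : ℂ) + (y : ℂ) * Complex.I)‖ ≤
      (Real.cos (3 * π / 8))⁻¹ * ((1 + |T|) ^ k * wt T) * |s - 0| := by
    intro T
    apply intervalIntegral.norm_integral_le_of_norm_le_const
    intro y hy
    rw [Set.uIoc_of_le h0] at hy
    exact shF_bound θ k T hy.1.le (hy.2.trans h1)
  have hv1 : Tendsto (fun T : ℝ => ∫ y in (0 : ℝ)..s, f ((T : ℂ) + (y : ℂ) * Complex.I)) atTop
      (𝓝 0) := by
    apply squeeze_zero_norm hB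
    have := ((sh_tail k).const_mul (Real.cos (3 * π / 8))⁻¹).mul_const |s - 0|
    simpa using this
  have hv2 : Tendsto (fun T : ℝ => ∫ y in (0 : ℝ)..s, f (((-T : ℝ) : ℂ) + (y : ℂ) * Complex.I))
      atTop (𝓝 0) := by
    apply squeeze_zero_norm (fun T => hB (-T))
    have := ((sh_tail k).const_mul (Real.cos (3 * π / 8))⁻¹).mul_const |s - 0|
    simpa [wt_neg] using this
  have hrect : ∀ T : ℝ, (∫ x in (-T)..T, f (x : ℂ)) -
      (∫ x in (-T)..T, f ((x : ℂ) + (s : ℂ) * Complex.I)) +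
      Complex.I * (∫ y in (0 : ℝ)..s, f ((T : ℂ) + (y : ℂ) * Complex.I)) -
      Complex.I * (∫ y in (0 : ℝ)..s, f (((-T : ℝ) : ℂ) + (y : ℂ) * Complex.I)) = 0 := by
    intro T
    have H := Complex.integral_boundary_rect_eq_zero_of_differentiableOn f
      ⟨-T, 0⟩ ⟨T, s⟩ (by
        intro z hz
        apply DifferentiableAt.differentiableWithinAt
        rw [Complex.mem_reProdIm] at hz
        have h2 := hz.2
        simp only [Set.uIcc_of_le h0] at h2
        exact shF_diff θ k h2.1 (h2.2.trans h1))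
    simpa using H
  have hlim := ((ht0.sub hts).add (hv1.const_mul Complex.I)).sub (hv2.const_mul Complex.I)
  have hlim2 : Tendsto (fun _ : ℝ => (0 : ℂ)) atTop (𝓝 ((∫ x : ℝ, f (x : ℂ)) -
      (∫ x : ℝ, f ((x : ℂ) + (s : ℂ) * Complex.I)) + Complex.I * 0 - Complex.I * 0)) := by
    refine hlim.congr ?_
    intro T
    exact hrect T
  have huniq := tendsto_nhds_unique hlim2 tendsto_const_nhds
  have : (∫ x : ℝ, f (x : ℂ)) - (∫ x : ℝ, f ((x : ℂ) + (s : ℂ) * Complex.I)) = 0 := by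
    simpa using huniq
  exact sub_eq_zero.mp this

theorem mom_eq_shF (θ : ℝ) (k : ℕ) :
    mom θ k = ((3 / 2 : ℝ) : ℂ) ^ (k + 1) * ∫ x : ℝ, shF θ k (x : ℂ) := by
  unfold mom
  have h := Measure.integral_comp_mul_left (fun v : ℝ => kap θ v * (v : ℂ) ^ k) (3 / 2 : ℝ)
  have h2 : (∫ v : ℝ, kap θ v * (v : ℂ) ^ k) =
      ((3 / 2 : ℝ) : ℂ) * ∫ x : ℝ, kap θ (3 / 2 * x) * ((3 / 2 * x : ℝ) : ℂ) ^ k := by
    rw [h]
    rw [abs_of_pos (by norm_num : (0 : ℝ) < (3 / 2)⁻¹)]
    rw [Complex.real_smul, ← mul_assoc, ← Complex.ofReal_mul]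
    norm_num
  rw [h2]
  have h3 : (fun x : ℝ => kap θ (3 / 2 * x) * ((3 / 2 * x : ℝ) : ℂ) ^ k) =
      fun x : ℝ => ((3 / 2 : ℝ) : ℂ) ^ k * shF θ k (x : ℂ) := by
    funext x
    unfold kap shF
    have e1 : ((π : ℂ) * ((3 / 2 * x : ℝ) : ℂ) / 3 + Complex.I * θ / 2) =
        (π * (x : ℂ) / 2 + Complex.I * θ / 2) := by
      push_cast; ring
    have e2 : ((π : ℂ) * ((3 / 2 * x : ℝ) : ℂ)) = (3 * π * (x : ℂ) / 2) := by
      push_cast; ring
    rw [e1, e2]
    push_cast
    ring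
  rw [h3, integral_const_mul]
  ring

theorem gf_wt_eq (θ : ℝ) (k : ℕ) (u : ℝ) :
    gf θ u * wt u * ((u : ℂ) + (θ / (2 * π) : ℝ) * Complex.I) ^ k =
      2 * shF θ k ((u : ℂ) + ((θ / (2 * π) : ℝ) : ℂ) * Complex.I) := by
  have hp := Real.pi_pos
  unfold gf shF wt
  have e1 : (π * ((u : ℂ) + ((θ / (2 * π) : ℝ) : ℂ) * Complex.I) / 2 + Complex.I * θ / 2 : ℂ) =
      (π * u / 2 + (3 * θ / 4 : ℝ) * Complex.I) := by
    push_cast
    field_simp
    ring
  have e2 : (3 * π * ((u : ℂ) + ((θ / (2 * π) : ℝ) : ℂ) * Complex.I) / 2 : ℂ) =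
      (3 * π * u / 2 + (3 * θ / 4 : ℝ) * Complex.I) := by
    push_cast
    field_simp
    ring
  rw [e1, e2]
  have hc : Complex.cosh (π * u : ℂ) ≠ 0 := by
    have : Complex.cosh (π * u : ℂ) = ((Real.cosh (π * u) : ℝ) : ℂ) := by
      push_cast; rfl
    rw [this]
    exact_mod_cast (Real.cosh_pos _).ne'
  push_cast
  field_simp

theorem mom_shift {θ : ℝ} (hθ : θ ∈ Set.Icc (π / 3) (π / 2)) (k : ℕ) :
    mom θ k = (3 / 2 : ℝ) ^ (k + 1) / 2 *
      ∫ u : ℝ, gf θ u * wt u * ((u : ℂ) + (θ / (2 * π) : ℝ) * Complex.I) ^ k := by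
  have hp := Real.pi_pos
  have hs0 : 0 ≤ θ / (2 * π) := by
    have : 0 ≤ θ := by linarith [hθ.1]
    positivity
  have hs1 : θ / (2 * π) ≤ 1 / 4 := by
    rw [div_le_iff₀ (by positivity)]
    linarith [hθ.2]
  rw [mom_eq_shF, shF_shift θ k hs0 hs1]
  have h3 : (fun u : ℝ => gf θ u * wt u * ((u : ℂ) + (θ / (2 * π) : ℝ) * Complex.I) ^ k) =
      fun u : ℝ => 2 * shF θ k ((u : ℂ) + ((θ / (2 * π) : ℝ) : ℂ) * Complex.I) := by
    funext u
    exact gf_wt_eq θ k u
  rw [h3, integral_const_mul]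
  push_cast
  ring

/-! ### the triangular change of basis -/

/-- `mp` as complex polynomials -/
noncomputable def mpP : ℕ → Polynomial ℂ
  | 0 => 1
  | 1 => Polynomial.C 2 * Polynomial.X
  | (n + 2) => Polynomial.C (1 / ((n : ℂ) + 2)) *
      (Polynomial.C 2 * (Polynomial.X * mpP (n + 1)) - Polynomial.C ((n : ℂ) + 1) * mpP n)

theorem mpP_eval (n : ℕ) (v : ℝ) : (mpP n).eval (v : ℂ) = ((mp n v : ℝ) : ℂ) := by
  induction n using Nat.strong_induction_on with
  | _ n ih =>
    match n with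
    | 0 => simp [mpP, mp]
    | 1 => simp [mpP, mp]
    | (m + 2) =>
      have h1 := ih (m + 1) (by omega)
      have h0 := ih m (by omega)
      rw [mpP, mp]
      simp only [Polynomial.eval_mul, Polynomial.eval_C, Polynomial.eval_sub, Polynomial.eval_X,
        h1, h0]
      push_cast
      ring

theorem mpP_deg (n : ℕ) : (mpP n).natDegree ≤ n ∧ (mpP n).coeff n = 2 ^ n / (n.factorial : ℂ) := by
  induction n using Nat.strong_induction_on with
  | _ n ih =>
    match n with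
    | 0 => simp [mpP]
    | 1 =>
      constructor
      · rw [mpP]
        exact (Polynomial.natDegree_C_mul_le _ _).trans Polynomial.natDegree_X_le
      · simp [mpP]
    | (m + 2) =>
      obtain ⟨d1, c1⟩ := ih (m + 1) (by omega)
      obtain ⟨d0, c0⟩ := ih m (by omega)
      have hX : (Polynomial.X * mpP (m + 1)).natDegree ≤ m + 2 := by
        refine Polynomial.natDegree_mul_le.trans ?_
        have := Polynomial.natDegree_X_le (R := ℂ)
        omega
      constructor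
      · rw [mpP]
        refine (Polynomial.natDegree_C_mul_le _ _).trans ?_
        refine (Polynomial.natDegree_sub_le _ _).trans ?_
        apply max_le
        · exact (Polynomial.natDegree_C_mul_le _ _).trans hX
        · exact (Polynomial.natDegree_C_mul_le _ _).trans (by omega)
      · rw [mpP, Polynomial.coeff_C_mul, Polynomial.coeff_sub, Polynomial.coeff_C_mul,
          Polynomial.coeff_C_mul, Polynomial.coeff_X_mul, c1,
          Polynomial.coeff_eq_zero_of_natDegree_lt (lt_of_le_of_lt d0 (by omega))]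
        have hf : ((m + 2).factorial : ℂ) = ((m : ℂ) + 2) * ((m + 1).factorial : ℂ) := by
          rw [Nat.factorial_succ]
          push_cast
          ring
        rw [hf]
        have hm : ((m : ℂ) + 2) ≠ 0 := by
          have : ((m : ℂ) + 2) = ((m + 2 : ℕ) : ℂ) := by push_cast; ring
          rw [this]
          exact_mod_cast (by omega : m + 2 ≠ 0)
        have hfac : ((m + 1).factorial : ℂ) ≠ 0 := by
          exact_mod_cast (Nat.factorial_pos _).ne'
        field_simp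
        ring

/-- coefficients of `mp l` in powers of `u - a` -/
noncomputable def tri (a : ℂ) (l i : ℕ) : ℂ := (Polynomial.taylor a (mpP l)).coeff i

theorem tri_of_lt (a : ℂ) {l i : ℕ} (h : l < i) : tri a l i = 0 := by
  unfold tri
  apply Polynomial.coeff_eq_zero_of_natDegree_lt
  rw [Polynomial.natDegree_taylor]
  exact lt_of_le_of_lt (mpP_deg l).1 h

theorem mpP_natDegree (l : ℕ) : (mpP l).natDegree = l := by
  apply le_antisymm (mpP_deg l).1
  apply Polynomial.le_natDegree_of_ne_zero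
  rw [(mpP_deg l).2]
  have : (l.factorial : ℂ) ≠ 0 := by exact_mod_cast (Nat.factorial_pos _).ne'
  exact div_ne_zero (pow_ne_zero _ two_ne_zero) this

theorem tri_diag (a : ℂ) (l : ℕ) : tri a l l = 2 ^ l / (l.factorial : ℂ) := by
  unfold tri
  have h := Polynomial.coeff_taylor_natDegree (r := a) (mpP l)
  rw [mpP_natDegree, Polynomial.leadingCoeff, mpP_natDegree, (mpP_deg l).2] at h
  exact h

theorem mp_expand (a : ℂ) {L : ℕ} (l : Fin L) (u : ℝ) :
    ((mp l u : ℝ) : ℂ) = ∑ i : Fin L, tri a l i * ((u : ℂ) - a) ^ (i : ℕ) := by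
  rw [← mpP_eval]
  have h := Polynomial.taylor_eval a (mpP l) ((u : ℂ) - a)
  rw [sub_add_cancel] at h
  rw [← h, Polynomial.eval_eq_sum_range' (n := L)]
  · rw [Finset.sum_range]
    rfl
  · rw [Polynomial.natDegree_taylor, mpP_natDegree]
    exact l.2

theorem me_expand {θ : ℝ} (hθ : θ ∈ Set.Icc (π / 3) (π / 2)) {L : ℕ} (j k : Fin L) :
    me (gf θ) j k = ∑ a : Fin L, ∑ b : Fin L,
      tri (-((θ / (2 * π) : ℝ) * Complex.I)) j a * tri (-((θ / (2 * π) : ℝ) * Complex.I)) k b *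
        ∫ u : ℝ, gf θ u * wt u *
          ((u : ℂ) + (θ / (2 * π) : ℝ) * Complex.I) ^ ((a : ℕ) + (b : ℕ)) := by
  have hp := Real.pi_pos
  have hs0 : 0 ≤ θ / (2 * π) := by
    have : 0 ≤ θ := by linarith [hθ.1]
    positivity
  have hs1 : θ / (2 * π) ≤ 1 / 4 := by
    rw [div_le_iff₀ (by positivity)]
    linarith [hθ.2]
  have hint : ∀ n : ℕ, Integrable (fun u : ℝ => gf θ u * wt u *
      ((u : ℂ) + (θ / (2 * π) : ℝ) * Complex.I) ^ n) := by
    intro n
    have h := (shF_integrable θ n hs0 hs1).const_mul 2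
    refine h.congr ?_
    filter_upwards with u
    exact (gf_wt_eq θ n u).symm
  unfold me
  have h1 : ∀ u : ℝ, gf θ u * ((mp j u : ℝ) : ℂ) * ((mp k u : ℝ) : ℂ) * ((wt u : ℝ) : ℂ) =
      ∑ a : Fin L, ∑ b : Fin L,
        tri (-((θ / (2 * π) : ℝ) * Complex.I)) j a * tri (-((θ / (2 * π) : ℝ) * Complex.I)) k b *
          (gf θ u * wt u * ((u : ℂ) + (θ / (2 * π) : ℝ) * Complex.I) ^ ((a : ℕ) + (b : ℕ))) := by
    intro u
    rw [mp_expand (-((θ / (2 * π) : ℝ) * Complex.I)) j u,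
      mp_expand (-((θ / (2 * π) : ℝ) * Complex.I)) k u]
    have e : gf θ u * (∑ i : Fin L, tri (-((θ / (2 * π) : ℝ) * Complex.I)) j i *
          ((u : ℂ) - -((θ / (2 * π) : ℝ) * Complex.I)) ^ (i : ℕ)) *
        (∑ i : Fin L, tri (-((θ / (2 * π) : ℝ) * Complex.I)) k i *
          ((u : ℂ) - -((θ / (2 * π) : ℝ) * Complex.I)) ^ (i : ℕ)) * ((wt u : ℝ) : ℂ) =
        (gf θ u * wt u) * ((∑ i : Fin L, tri (-((θ / (2 * π) : ℝ) * Complex.I)) j i *
          ((u : ℂ) - -((θ / (2 * π) : ℝ) * Complex.I)) ^ (i : ℕ)) *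
        (∑ i : Fin L, tri (-((θ / (2 * π) : ℝ) * Complex.I)) k i *
          ((u : ℂ) - -((θ / (2 * π) : ℝ) * Complex.I)) ^ (i : ℕ))) := by ring
    rw [e, Finset.sum_mul_sum, Finset.mul_sum]
    apply Finset.sum_congr rfl
    intro a _
    rw [Finset.mul_sum]
    apply Finset.sum_congr rfl
    intro b _
    rw [sub_neg_eq_add, pow_add]
    ring
  calc (∫ u : ℝ, gf θ u * ((mp j u : ℝ) : ℂ) * ((mp k u : ℝ) : ℂ) * ((wt u : ℝ) : ℂ)) =
      ∫ u : ℝ, ∑ a : Fin L, ∑ b : Fin L,
        tri (-((θ / (2 * π) : ℝ) * Complex.I)) j a * tri (-((θ / (2 * π) : ℝ) * Complex.I)) k b *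
          (gf θ u * wt u * ((u : ℂ) + (θ / (2 * π) : ℝ) * Complex.I) ^ ((a : ℕ) + (b : ℕ))) := by
        congr 1
        funext u
        exact h1 u
    _ = _ := by
        rw [integral_finsetSum _ (fun a _ => integrable_finsetSum _
          (fun b _ => (hint _).const_mul _))]
        apply Finset.sum_congr rfl
        intro a _
        rw [integral_finsetSum _ (fun b _ => (hint _).const_mul _)]
        apply Finset.sum_congr rfl
        intro b _
        rw [integral_const_mul]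

/-- the triangular matrix -/
noncomputable def triM (a : ℂ) (L : ℕ) : Matrix (Fin L) (Fin L) ℂ :=
  Matrix.of fun l i => tri a l i

theorem triM_det (a : ℂ) (L : ℕ) :
    (triM a L).det = ∏ l : Fin L, (2 ^ (l : ℕ) / ((l : ℕ).factorial : ℂ)) := by
  rw [Matrix.det_of_isLowerTriangular]
  · apply Finset.prod_congr rfl
    intro l _
    exact tri_diag a l
  · intro i j hij
    have : (i : ℕ) < j := hij
    exact tri_of_lt a this

theorem cmat_fact {θ : ℝ} (hθ : θ ∈ Set.Icc (π / 3) (π / 2)) (L : ℕ) :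
    cmat L (gf θ) = triM (-((θ / (2 * π) : ℝ) * Complex.I)) L *
      (Matrix.of fun a b : Fin L => ∫ u : ℝ, gf θ u * wt u *
          ((u : ℂ) + (θ / (2 * π) : ℝ) * Complex.I) ^ ((a : ℕ) + (b : ℕ))) *
      (triM (-((θ / (2 * π) : ℝ) * Complex.I)) L).transpose := by
  ext j k
  rw [cmat, me_expand hθ, Matrix.mul_apply]
  simp only [Matrix.mul_apply, Matrix.transpose_apply, triM, Matrix.of_apply, Finset.sum_mul]
  rw [Finset.sum_comm]
  apply Finset.sum_congr rfl
  intro a _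
  apply Finset.sum_congr rfl
  intro b _
  ring

theorem hk_eq (L : ℕ) : ∃ κ : ℂ, κ ≠ 0 ∧ ∀ θ ∈ Set.Icc (π / 3) (π / 2),
    hk L θ = κ * (cmat L (gf θ)).det := by
  set P : ℂ := ∏ l : Fin L, (2 ^ (l : ℕ) / ((l : ℕ).factorial : ℂ)) with hP
  have hP0 : P ≠ 0 := by
    rw [hP, Finset.prod_ne_zero_iff]
    intro l _
    have : ((l : ℕ).factorial : ℂ) ≠ 0 := by exact_mod_cast (Nat.factorial_pos _).ne'
    exact div_ne_zero (pow_ne_zero _ two_ne_zero) this
  set Q : ℂ := ∏ i : Fin L, ((3 / 2 : ℝ) : ℂ) ^ (i : ℕ) with hQ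
  have hQ0 : Q ≠ 0 := by
    rw [hQ, Finset.prod_ne_zero_iff]
    intro i _
    apply pow_ne_zero
    norm_num
  refine ⟨Q * Q * (3 / 4 : ℂ) ^ L / (P * P), ?_, ?_⟩
  · apply div_ne_zero
    · apply mul_ne_zero (mul_ne_zero hQ0 hQ0)
      apply pow_ne_zero
      norm_num
    · exact mul_ne_zero hP0 hP0
  · intro θ hθ
    set M : Matrix (Fin L) (Fin L) ℂ := Matrix.of fun a b : Fin L => ∫ u : ℝ, gf θ u * wt u *
          ((u : ℂ) + (θ / (2 * π) : ℝ) * Complex.I) ^ ((a : ℕ) + (b : ℕ)) with hM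
    have h1 : (cmat L (gf θ)).det = P * M.det * P := by
      rw [cmat_fact hθ L, Matrix.det_mul, Matrix.det_mul, Matrix.det_transpose, triM_det]
    have h2 : hk L θ = Q * Q * (3 / 4 : ℂ) ^ L * M.det := by
      unfold hk
      have e : (Matrix.of fun i j : Fin L => mom θ ((i : ℕ) + (j : ℕ))) =
          Matrix.diagonal (fun i : Fin L => ((3 / 2 : ℝ) : ℂ) ^ (i : ℕ)) *
            ((3 / 4 : ℂ) • M) *
          Matrix.diagonal (fun i : Fin L => ((3 / 2 : ℝ) : ℂ) ^ (i : ℕ)) := by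
        ext i j
        rw [Matrix.mul_diagonal, Matrix.diagonal_mul]
        simp only [Matrix.of_apply, Matrix.smul_apply, smul_eq_mul, hM]
        rw [mom_shift hθ, pow_succ, pow_add]
        push_cast
        ring
      rw [e, Matrix.det_mul, Matrix.det_mul, Matrix.det_diagonal, Matrix.det_smul,
        Fintype.card_fin]
      ring
    rw [h1, h2]
    field_simp

end OneArm
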