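import Pool.Agent.Helper82.OneArm.Rep

/-! Module Trace: linear algebra of compressions. Only orthonormality is used. -/

open Real MeasureTheory Filter Topology Matrix

namespace OneArm

/-- `‖(1 - Π) u Π‖_HS^2` (same as `defect`) -/
noncomputable def defect' (L : ℕ) (u : ℝ → ℂ) : ℝ :=
  ∑ j ∈ Finset.range L, (∫ v, ‖u v‖ ^ 2 * (mp j v) ^ 2 * wt v) -
    ∑ j ∈ Finset.range L, ∑ k ∈ Finset.range L, ‖me u j k‖ ^ 2

/-- integrable with a given value of the integral -/
structure HI (f : ℝ → ℂ) (a : ℂ) : Prop where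
  int : Integrable f
  eq : ∫ v, f v = a

theorem HI.add {f g : ℝ → ℂ} {a b : ℂ} (hf : HI f a) (hg : HI g b) :
    HI (fun v => f v + g v) (a + b) :=
  ⟨hf.int.add hg.int, by rw [integral_add hf.int hg.int, hf.eq, hg.eq]⟩

theorem HI.sub {f g : ℝ → ℂ} {a b : ℂ} (hf : HI f a) (hg : HI g b) :
    HI (fun v => f v - g v) (a - b) :=
  ⟨hf.int.sub hg.int, by rw [integral_sub hf.int hg.int, hf.eq, hg.eq]⟩

theorem HI.cmul {f : ℝ → ℂ} {a : ℂ} (c : ℂ) (hf : HI f a) : HI (fun v => c * f v) (c * a) :=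
  ⟨hf.int.const_mul c, by rw [integral_const_mul, hf.eq]⟩

theorem HI.sum {ι : Type*} (s : Finset ι) {f : ι → ℝ → ℂ} {a : ι → ℂ}
    (hf : ∀ i ∈ s, HI (f i) (a i)) : HI (fun v => ∑ i ∈ s, f i v) (∑ i ∈ s, a i) :=
  ⟨integrable_finsetSum s fun i hi => (hf i hi).int, by
    rw [integral_finsetSum s fun i hi => (hf i hi).int]
    exact Finset.sum_congr rfl fun i hi => (hf i hi).eq⟩

theorem HI.congr {f g : ℝ → ℂ} {a b : ℂ} (hf : HI f a) (h : ∀ v, g v = f v) (hab : b = a) :
    HI g b := by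
  have : g = f := funext h
  subst hab; rw [this]; exact hf

theorem HI_me {u : ℝ → ℂ} {M : ℝ} (hu : Continuous u) (hb : ∀ v, ‖u v‖ ≤ M) (j k : ℕ) :
    HI (fun v => u v * mp j v * mp k v * wt v) (me u j k) :=
  ⟨integrable_me hu.aestronglyMeasurable hb j k, rfl⟩

theorem me_symm (u : ℝ → ℂ) (j k : ℕ) : me u j k = me u k j := by
  unfold me; congr 1; ext v; ring

theorem me_one (j k : ℕ) : me (fun _ => 1) j k = if j = k then 1 else 0 := by
  unfold me
  have h := mp_orth j k
  have h2 : (fun v : ℝ => (1 : ℂ) * mp j v * mp k v * wt v) =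
      fun v : ℝ => ((mp j v * mp k v * wt v : ℝ) : ℂ) := by
    funext v; push_cast; ring
  rw [h2, integral_complex_ofReal, h]
  split_ifs <;> simp

theorem HI_one (j k : ℕ) : HI (fun v => (mp j v : ℂ) * mp k v * wt v) (if j = k then 1 else 0) := by
  have := HI_me (u := fun _ => (1 : ℂ)) (M := 1) continuous_const (by simp) j k
  rw [me_one] at this
  exact this.congr (fun v => by ring) rfl

/-- the function `(1 - Π) u P_k` -/
noncomputable def Rm (L : ℕ) (u : ℝ → ℂ) (k : ℕ) (v : ℝ) : ℂ :=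
  u v * mp k v - ∑ l ∈ Finset.range L, me u l k * mp l v

theorem Rm_mul (L : ℕ) {u h : ℝ → ℂ} {M N : ℝ} (hu : Continuous u) (hb : ∀ v, ‖u v‖ ≤ M)
    (hh : Continuous h) (hb' : ∀ v, ‖h v‖ ≤ N) (j k : ℕ) :
    HI (fun v => Rm L u j v * Rm L h k v * wt v)
      (me (fun v => u v * h v) j k - ∑ l ∈ Finset.range L, me u j l * me h l k) := by
  have h0 : HI (fun v => (u v * h v) * mp j v * mp k v * wt v) (me (fun v => u v * h v) j k) :=
    HI_me (u := fun v => u v * h v) (M := M * N) (hu.mul hh) (fun v => by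
      rw [norm_mul]
      exact mul_le_mul (hb v) (hb' v) (norm_nonneg _) ((norm_nonneg _).trans (hb v))) j k
  have h1 := HI.sum (Finset.range L) (fun l _ => (HI_me hu hb j l).cmul (me h l k))
  have h2 := HI.sum (Finset.range L) (fun l _ => (HI_me hh hb' l k).cmul (me u l j))
  have h3 := HI.sum (Finset.range L) (fun l _ =>
    HI.sum (Finset.range L) (fun m _ => (HI_one l m).cmul (me u l j * me h m k)))
  refine ((((h0.sub h1).sub h2).add h3)).congr ?_ ?_
  · intro v
    simp only [Rm]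
    have e1 : ∑ l ∈ Finset.range L, me h l k * (u v * mp j v * mp l v * wt v) =
        (u v * mp j v) * wt v * ∑ l ∈ Finset.range L, me h l k * mp l v := by
      rw [Finset.mul_sum]; exact Finset.sum_congr rfl fun l _ => by ring
    have e2 : ∑ l ∈ Finset.range L, me u l j * (h v * mp l v * mp k v * wt v) =
        (h v * mp k v) * wt v * ∑ l ∈ Finset.range L, me u l j * mp l v := by
      rw [Finset.mul_sum]; exact Finset.sum_congr rfl fun l _ => by ring
    have e3 : ∑ l ∈ Finset.range L, ∑ m ∈ Finset.range L,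
          me u l j * me h m k * ((mp l v : ℂ) * mp m v * wt v) =
        (∑ l ∈ Finset.range L, me u l j * mp l v) * (∑ l ∈ Finset.range L, me h l k * mp l v) *
          wt v := by
      rw [Finset.sum_mul_sum, Finset.sum_mul]
      refine Finset.sum_congr rfl fun l _ => ?_
      rw [Finset.sum_mul]
      exact Finset.sum_congr rfl fun m _ => by ring
    rw [e1, e2, e3]; ring
  · have e3 : ∑ l ∈ Finset.range L, ∑ m ∈ Finset.range L,
          me u l j * me h m k * (if l = m then (1 : ℂ) else 0) =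
        ∑ l ∈ Finset.range L, me u l j * me h l k := by
      refine Finset.sum_congr rfl fun l hl => ?_
      rw [Finset.sum_eq_single l]
      · simp
      · intro m _ hm; rw [if_neg (Ne.symm hm)]; ring
      · intro hl'; exact absurd hl hl'
    rw [e3]
    have e1 : ∑ l ∈ Finset.range L, me h l k * me u j l =
        ∑ l ∈ Finset.range L, me u j l * me h l k :=
      Finset.sum_congr rfl fun l _ => by ring
    rw [e1]; ring

theorem me_conj (u : ℝ → ℂ) (j k : ℕ) :
    me (fun v => (starRingEnd ℂ) (u v)) j k = (starRingEnd ℂ) (me u j k) := by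
  unfold me
  rw [← integral_conj]
  congr 1; ext v
  simp [mul_comm, mul_left_comm]

theorem Rm_conj (L : ℕ) (u : ℝ → ℂ) (k : ℕ) (v : ℝ) :
    Rm L (fun v => (starRingEnd ℂ) (u v)) k v = (starRingEnd ℂ) (Rm L u k v) := by
  simp only [Rm, me_conj, map_sub, map_mul, map_sum, Complex.conj_ofReal]

theorem Rm_cont (L : ℕ) {u : ℝ → ℂ} (hu : Continuous u) (k : ℕ) : Continuous (Rm L u k) := by
  unfold Rm
  refine (hu.mul (Complex.continuous_ofReal.comp (mp_cont k))).sub ?_
  exact continuous_finsetSum _ fun l _ =>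
    continuous_const.mul (Complex.continuous_ofReal.comp (mp_cont l))

theorem Rm_sq (L : ℕ) {u : ℝ → ℂ} {M : ℝ} (hu : Continuous u) (hb : ∀ v, ‖u v‖ ≤ M) (k : ℕ) :
    Integrable (fun v => ‖Rm L u k v‖ ^ 2 * wt v) ∧
    ∫ v, ‖Rm L u k v‖ ^ 2 * wt v =
      (∫ v, ‖u v‖ ^ 2 * (mp k v) ^ 2 * wt v) - ∑ l ∈ Finset.range L, ‖me u k l‖ ^ 2 := by
  have hu' : Continuous (fun v => (starRingEnd ℂ) (u v)) := Complex.continuous_conj.comp hu
  have h := Rm_mul L hu hb hu' (N := M) (fun v => by simpa using hb v) k k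
  have e1 : (fun v => Rm L u k v * Rm L (fun v => (starRingEnd ℂ) (u v)) k v * (wt v : ℂ)) =
      fun v => ((‖Rm L u k v‖ ^ 2 * wt v : ℝ) : ℂ) := by
    funext v
    rw [Rm_conj, Complex.mul_conj, Complex.normSq_eq_norm_sq]; push_cast; ring
  rw [e1] at h
  have hi : Integrable (fun v => ‖Rm L u k v‖ ^ 2 * wt v) := by
    have := h.int.re
    exact this
  refine ⟨hi, ?_⟩
  have h2 := h.eq
  rw [integral_complex_ofReal] at h2
  have e2 : me (fun v => u v * (starRingEnd ℂ) (u v)) k k =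
      ((∫ v, ‖u v‖ ^ 2 * (mp k v) ^ 2 * wt v : ℝ) : ℂ) := by
    unfold me
    rw [← integral_complex_ofReal]
    congr 1; ext v
    dsimp only
    rw [Complex.mul_conj, Complex.normSq_eq_norm_sq]; push_cast; ring
  have e3 : ∑ l ∈ Finset.range L, me u k l * me (fun v => (starRingEnd ℂ) (u v)) l k =
      ((∑ l ∈ Finset.range L, ‖me u k l‖ ^ 2 : ℝ) : ℂ) := by
    push_cast
    refine Finset.sum_congr rfl fun l _ => ?_
    rw [me_conj, me_symm u l k, Complex.mul_conj, Complex.normSq_eq_norm_sq]; push_cast; ring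
  rw [e2, e3] at h2
  exact_mod_cast h2

theorem defect_sum (L : ℕ) {u : ℝ → ℂ} {M : ℝ} (hu : Continuous u) (hb : ∀ v, ‖u v‖ ≤ M) :
    Integrable (fun v => (∑ k : Fin L, ‖Rm L u k v‖ ^ 2) * wt v) ∧
    ∫ v, (∑ k : Fin L, ‖Rm L u k v‖ ^ 2) * wt v = defect' L u := by
  have hf : (fun v => (∑ k : Fin L, ‖Rm L u k v‖ ^ 2) * wt v) =
      fun v => ∑ k : Fin L, ‖Rm L u k v‖ ^ 2 * wt v := by
    funext v; rw [Finset.sum_mul]
  rw [hf]
  refine ⟨integrable_finsetSum _ fun k _ => (Rm_sq L hu hb k).1, ?_⟩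
  rw [integral_finsetSum _ fun (k : Fin L) _ => (Rm_sq L hu hb (k : ℕ)).1]
  rw [defect', ← Finset.sum_sub_distrib, Finset.sum_range]
  exact Finset.sum_congr rfl fun k _ => (Rm_sq L hu hb k).2

/-- coercivity -/
theorem coercive (L : ℕ) {g : ℝ → ℂ} {M c : ℝ} (hg : Continuous g)
    (hb : ∀ v, ‖g v‖ ≤ M) (hre : ∀ v, c ≤ (g v).re) (y : Fin L → ℂ) :
    c * ∑ k, ‖y k‖ ^ 2 ≤ (∑ j, (starRingEnd ℂ) (y j) * ((cmat L g) *ᵥ y) j).re := by
  set p : ℝ → ℂ := fun v => ∑ k : Fin L, y k * mp k v with hp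
  have H1 : HI (fun v => g v * ((starRingEnd ℂ) (p v) * p v) * wt v)
      (∑ j, (starRingEnd ℂ) (y j) * ((cmat L g) *ᵥ y) j) := by
    have := HI.sum (Finset.univ : Finset (Fin L)) (fun j _ =>
      HI.sum (Finset.univ : Finset (Fin L)) (fun k _ =>
        (HI_me hg hb (j : ℕ) (k : ℕ)).cmul ((starRingEnd ℂ) (y j) * y k)))
    refine this.congr ?_ ?_
    · intro v
      simp only [hp, map_sum, map_mul, Complex.conj_ofReal]
      rw [Finset.sum_mul_sum, Finset.mul_sum, Finset.sum_mul]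
      refine Finset.sum_congr rfl fun j _ => ?_
      rw [Finset.mul_sum, Finset.sum_mul]
      exact Finset.sum_congr rfl fun k _ => by ring
    · refine Finset.sum_congr rfl fun j _ => ?_
      simp only [Matrix.mulVec, dotProduct, cmat, Finset.mul_sum]
      exact Finset.sum_congr rfl fun k _ => by ring
  have H2 : HI (fun v => ((starRingEnd ℂ) (p v) * p v) * wt v) (∑ k, (‖y k‖ : ℂ) ^ 2) := by
    have := HI.sum (Finset.univ : Finset (Fin L)) (fun j _ =>
      HI.sum (Finset.univ : Finset (Fin L)) (fun k _ =>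
        (HI_one (j : ℕ) (k : ℕ)).cmul ((starRingEnd ℂ) (y j) * y k)))
    refine this.congr ?_ ?_
    · intro v
      simp only [hp, map_sum, map_mul, Complex.conj_ofReal]
      rw [Finset.sum_mul_sum, Finset.sum_mul]
      refine Finset.sum_congr rfl fun j _ => ?_
      rw [Finset.sum_mul]
      exact Finset.sum_congr rfl fun k _ => by ring
    · refine Finset.sum_congr rfl fun j _ => ?_
      rw [Finset.sum_eq_single j]
      · simp only [if_true, mul_one]
        rw [mul_comm, Complex.mul_conj, Complex.normSq_eq_norm_sq]; push_cast; rfl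
      · intro k _ hk
        rw [if_neg (fun h => hk (Fin.ext h.symm))]; ring
      · intro h; exact absurd (Finset.mem_univ j) h
  have hn : ∀ v, (starRingEnd ℂ) (p v) * p v = ((‖p v‖ ^ 2 : ℝ) : ℂ) := by
    intro v
    rw [mul_comm, Complex.mul_conj, Complex.normSq_eq_norm_sq]
  have i1 : Integrable (fun v => (g v).re * ‖p v‖ ^ 2 * wt v) := by
    have := H1.int.re
    refine this.congr (Filter.Eventually.of_forall fun v => ?_)
    simp only [hn]
    change (g v * ((‖p v‖ ^ 2 : ℝ) : ℂ) * (wt v : ℂ)).re = _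
    rw [Complex.re_mul_ofReal, Complex.re_mul_ofReal]
  have i2 : Integrable (fun v => ‖p v‖ ^ 2 * wt v) := by
    have := H2.int.re
    refine this.congr (Filter.Eventually.of_forall fun v => ?_)
    simp only [hn]
    change (((‖p v‖ ^ 2 : ℝ) : ℂ) * (wt v : ℂ)).re = _
    rw [Complex.re_mul_ofReal, Complex.ofReal_re]
  have e1 : (∑ j, (starRingEnd ℂ) (y j) * ((cmat L g) *ᵥ y) j).re =
      ∫ v, (g v).re * ‖p v‖ ^ 2 * wt v := by
    rw [← H1.eq]
    have h3 : ∀ v, g v * ((starRingEnd ℂ) (p v) * p v) * wt v = g v * ((‖p v‖ ^ 2 * wt v : ℝ) : ℂ) := by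
      intro v; rw [hn]; push_cast; ring
    have h4 := (integral_re H1.int)
    change (∫ v, (g v * ((starRingEnd ℂ) (p v) * p v) * (wt v : ℂ)).re) = _ at h4
    change (∫ v, g v * ((starRingEnd ℂ) (p v) * p v) * (wt v : ℂ)).re = _
    refine h4.symm.trans ?_
    congr 1; ext v
    rw [h3, Complex.re_mul_ofReal]; ring
  have e2 : ∑ k, ‖y k‖ ^ 2 = ∫ v, ‖p v‖ ^ 2 * wt v := by
    have h5 : ((∫ v, ‖p v‖ ^ 2 * wt v : ℝ) : ℂ) = ((∑ k, ‖y k‖ ^ 2 : ℝ) : ℂ) := by
      rw [← integral_complex_ofReal]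
      push_cast
      rw [← H2.eq]
      congr 1; ext v
      rw [hn]; push_cast; ring
    exact_mod_cast h5.symm
  rw [e1, e2, ← integral_const_mul]
  refine integral_mono (i2.const_mul c) i1 fun v => ?_
  have h1 := hre v
  have h2 : 0 ≤ ‖p v‖ ^ 2 * wt v := mul_nonneg (by positivity) (wt_pos v).le
  calc c * (‖p v‖ ^ 2 * wt v) ≤ (g v).re * (‖p v‖ ^ 2 * wt v) := mul_le_mul_of_nonneg_right h1 h2
    _ = (g v).re * ‖p v‖ ^ 2 * wt v := by ring

theorem sum_norm_mul_le {n : ℕ} (x y : Fin n → ℂ) :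
    ‖∑ j, x j * y j‖ ≤ Real.sqrt (∑ j, ‖x j‖ ^ 2) * Real.sqrt (∑ j, ‖y j‖ ^ 2) := by
  refine (norm_sum_le _ _).trans ?_
  simp only [norm_mul]
  exact Real.sum_mul_le_sqrt_mul_sqrt _ _ _

theorem mulVec_lower (L : ℕ) {g : ℝ → ℂ} {M c : ℝ} (hg : Continuous g)
    (hb : ∀ v, ‖g v‖ ≤ M) (hc : 0 < c) (hre : ∀ v, c ≤ (g v).re) (y : Fin L → ℂ) :
    c * Real.sqrt (∑ k, ‖y k‖ ^ 2) ≤ Real.sqrt (∑ k, ‖((cmat L g) *ᵥ y) k‖ ^ 2) := by
  have h1 := coercive L hg hb hre y
  have h2 : (∑ j, (starRingEnd ℂ) (y j) * ((cmat L g) *ᵥ y) j).re ≤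
      Real.sqrt (∑ k, ‖y k‖ ^ 2) * Real.sqrt (∑ k, ‖((cmat L g) *ᵥ y) k‖ ^ 2) := by
    refine (Complex.re_le_norm _).trans ?_
    refine (sum_norm_mul_le _ _).trans (le_of_eq ?_)
    simp
  set S := ∑ k, ‖y k‖ ^ 2 with hS
  have hS0 : 0 ≤ S := Finset.sum_nonneg fun k _ => by positivity
  rcases hS0.eq_or_lt with h0 | h0
  · rw [← h0]; simp only [Real.sqrt_zero, mul_zero]; positivity
  · have h3 : 0 < Real.sqrt S := Real.sqrt_pos.mpr h0
    have h4 : c * S = Real.sqrt S * (c * Real.sqrt S) := by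
      have := Real.mul_self_sqrt hS0
      calc c * S = c * (Real.sqrt S * Real.sqrt S) := by rw [this]
        _ = _ := by ring
    exact le_of_mul_le_mul_left (by rw [← h4]; exact h1.trans h2) h3

theorem cmat_det_ne_zero (L : ℕ) {g : ℝ → ℂ} {M c : ℝ} (hg : Continuous g)
    (hb : ∀ v, ‖g v‖ ≤ M) (hc : 0 < c) (hre : ∀ v, c ≤ (g v).re) :
    (cmat L g).det ≠ 0 := by
  intro h
  obtain ⟨y, hy, h0⟩ := Matrix.exists_mulVec_eq_zero_iff.mpr h
  have h1 := mulVec_lower L hg hb hc hre y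
  rw [h0] at h1
  simp only [Pi.zero_apply, norm_zero, ne_eq, OfNat.ofNat_ne_zero, not_false_eq_true, zero_pow,
    Finset.sum_const_zero, Real.sqrt_zero] at h1
  have h2 : Real.sqrt (∑ k, ‖y k‖ ^ 2) = 0 := by
    have h3 : 0 ≤ Real.sqrt (∑ k, ‖y k‖ ^ 2) := Real.sqrt_nonneg _
    nlinarith
  rw [Real.sqrt_eq_zero (Finset.sum_nonneg fun k _ => by positivity),
    Finset.sum_eq_zero_iff_of_nonneg (fun k _ => by positivity)] at h2
  apply hy
  funext k
  have := h2 k (Finset.mem_univ k)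
  simpa using this

/-- `tr (Π g Π)⁻¹ Π g h Π - tr Π h Π = tr (Π g Π)⁻¹ Π (g-1) (1-Π) h Π`. -/
theorem trace_bound (L : ℕ) {g h : ℝ → ℂ} {M c : ℝ} (hg : Continuous g) (hh : Continuous h)
    (hb : ∀ v, ‖g v‖ ≤ M) (hb' : ∀ v, ‖h v‖ ≤ M) (hc : 0 < c) (hre : ∀ v, c ≤ (g v).re) :
    ‖((cmat L g)⁻¹ * cmat L (fun v => g v * h v)).trace - (cmat L h).trace‖ ≤
      (1 / c) * (Real.sqrt (defect' L (fun v => g v - 1)) * Real.sqrt (defect' L h)) := by
  set u : ℝ → ℂ := fun v => g v - 1 with hu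
  have huc : Continuous u := hg.sub continuous_const
  have hub : ∀ v, ‖u v‖ ≤ M + 1 := fun v => by
    refine (norm_sub_le _ _).trans ?_
    have := hb v
    simp only [norm_one]; linarith
  have hdet := cmat_det_ne_zero L hg hb hc hre
  set A := cmat L g with hA
  have hAu : IsUnit A.det := isUnit_iff_ne_zero.mpr hdet
  -- the matrix E
  set E : Matrix (Fin L) (Fin L) ℂ := fun j k =>
    me (fun v => u v * h v) j k - ∑ l ∈ Finset.range L, me u j l * me h l k with hE
  have hEint : ∀ j k : Fin L, HI (fun v => Rm L u j v * Rm L h k v * wt v) (E j k) :=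
    fun j k => Rm_mul L huc hub hh hb' j k
  have hme_u : ∀ j l : ℕ, me u j l = me g j l - if j = l then 1 else 0 := by
    intro j l
    have h1 := (HI_me hg hb j l).sub (HI_one j l)
    have h2 : HI (fun v => u v * mp j v * mp l v * wt v) (me g j l - if j = l then 1 else 0) :=
      h1.congr (fun v => by simp only [hu]; ring) rfl
    exact h2.eq
  have hme_uh : ∀ j k : ℕ, me (fun v => u v * h v) j k = me (fun v => g v * h v) j k - me h j k := by
    intro j k
    have hgh : ∀ v, ‖g v * h v‖ ≤ M * M := fun v => by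
      rw [norm_mul]
      exact mul_le_mul (hb v) (hb' v) (norm_nonneg _) ((norm_nonneg _).trans (hb v))
    have h1 := (HI_me (u := fun v => g v * h v) (hg.mul hh) hgh j k).sub (HI_me hh hb' j k)
    have h2 : HI (fun v => (u v * h v) * mp j v * mp k v * wt v)
        (me (fun v => g v * h v) j k - me h j k) :=
      h1.congr (fun v => by simp only [hu]; ring) rfl
    exact h2.eq
  have hAE : cmat L (fun v => g v * h v) = A * cmat L h + E := by
    ext j k
    rw [Matrix.add_apply, Matrix.mul_apply]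
    change me (fun v => g v * h v) j k = ∑ l : Fin L, me g j l * me h l k +
      (me (fun v => u v * h v) j k - ∑ l ∈ Finset.range L, me u j l * me h l k)
    rw [hme_uh]
    have h1 : ∑ l ∈ Finset.range L, me u j l * me h l k =
        ∑ l : Fin L, me g j l * me h l k - me h j k := by
      rw [Finset.sum_range]
      simp only [hme_u, sub_mul, Finset.sum_sub_distrib]
      congr 1
      rw [Finset.sum_eq_single j]
      · simp
      · intro l _ hl
        rw [if_neg (fun h => hl (Fin.ext h.symm))]; ring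
      · intro h; exact absurd (Finset.mem_univ j) h
    rw [h1]; ring
  have htr : ((cmat L g)⁻¹ * cmat L (fun v => g v * h v)).trace - (cmat L h).trace =
      (A⁻¹ * E).trace := by
    rw [← hA, hAE, Matrix.mul_add, ← Matrix.mul_assoc, Matrix.nonsing_inv_mul _ hAu, Matrix.one_mul,
      Matrix.trace_add]
    ring
  rw [htr]
  -- as an integral
  set y : ℝ → Fin L → ℂ := fun v => A⁻¹ *ᵥ (fun j : Fin L => Rm L u j v) with hy
  have H : HI (fun v => (∑ k : Fin L, y v k * Rm L h k v) * wt v) ((A⁻¹ * E).trace) := by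
    have := HI.sum (Finset.univ : Finset (Fin L)) (fun k _ =>
      HI.sum (Finset.univ : Finset (Fin L)) (fun j _ => (hEint j k).cmul (A⁻¹ k j)))
    refine this.congr ?_ ?_
    · intro v
      rw [Finset.sum_mul]
      refine Finset.sum_congr rfl fun k _ => ?_
      simp only [hy, Matrix.mulVec, dotProduct]
      rw [Finset.sum_mul, Finset.sum_mul]
      exact Finset.sum_congr rfl fun j _ => by ring
    · simp only [Matrix.trace, Matrix.diag_apply, Matrix.mul_apply]
  -- pointwise bound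
  have hyb : ∀ v, c * Real.sqrt (∑ k, ‖y v k‖ ^ 2) ≤ Real.sqrt (∑ k : Fin L, ‖Rm L u k v‖ ^ 2) := by
    intro v
    have h1 := mulVec_lower L hg hb hc hre (y v)
    rw [← hA] at h1
    have h2 : A *ᵥ (y v) = fun j : Fin L => Rm L u j v := by
      simp only [hy, Matrix.mulVec_mulVec, Matrix.mul_nonsing_inv _ hAu, Matrix.one_mulVec]
    rw [h2] at h1
    exact h1
  obtain ⟨iu, du⟩ := defect_sum L huc hub
  obtain ⟨ih, dh⟩ := defect_sum L hh hb'
  set D1 := defect' L u with hD1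
  set D2 := defect' L h with hD2
  have hD1' : 0 ≤ D1 := by
    rw [← du]
    exact integral_nonneg fun v => mul_nonneg (Finset.sum_nonneg fun k _ => by positivity) (wt_pos v).le
  have hD2' : 0 ≤ D2 := by
    rw [← dh]
    exact integral_nonneg fun v => mul_nonneg (Finset.sum_nonneg fun k _ => by positivity) (wt_pos v).le
  -- X ≤ (t D1 + D2 / t) / (2 c)
  have key : ∀ t : ℝ, 0 < t → ‖(A⁻¹ * E).trace‖ ≤ (1 / c) * ((t * D1 + D2 / t) / 2) := by
    intro t ht
    rw [← H.eq]
    refine (norm_integral_le_integral_norm _).trans ?_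
    have hR : (1 / c) * ((t * D1 + D2 / t) / 2) =
        ∫ v, (1 / c) * ((t * ((∑ k : Fin L, ‖Rm L u k v‖ ^ 2) * wt v) +
          t⁻¹ * ((∑ k : Fin L, ‖Rm L h k v‖ ^ 2) * wt v)) / 2) := by
      rw [integral_const_mul, integral_div, integral_add (iu.const_mul t) (ih.const_mul t⁻¹),
        integral_const_mul, integral_const_mul, du, dh]
      congr 2
      field_simp
    rw [hR]
    refine integral_mono H.int.norm ?_ fun v => ?_
    · exact (((iu.const_mul t).add (ih.const_mul t⁻¹)).div_const 2).const_mul (1 / c)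
    · change ‖(∑ k : Fin L, y v k * Rm L h k v) * (wt v : ℂ)‖ ≤ _
      have hw : ‖(wt v : ℂ)‖ = wt v := by
        rw [Complex.norm_real, Real.norm_eq_abs, abs_of_pos (wt_pos v)]
      rw [norm_mul, hw]
      set a := Real.sqrt (∑ k : Fin L, ‖Rm L u k v‖ ^ 2) with ha
      set b := Real.sqrt (∑ k : Fin L, ‖Rm L h k v‖ ^ 2) with hb2
      have ha2 : ∑ k : Fin L, ‖Rm L u k v‖ ^ 2 = a ^ 2 :=
        (Real.sq_sqrt (Finset.sum_nonneg fun k _ => by positivity)).symm
      have hb3 : ∑ k : Fin L, ‖Rm L h k v‖ ^ 2 = b ^ 2 :=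
        (Real.sq_sqrt (Finset.sum_nonneg fun k _ => by positivity)).symm
      rw [ha2, hb3]
      have h1 : ‖∑ k : Fin L, y v k * Rm L h k v‖ ≤ (1 / c) * (a * b) := by
        refine (sum_norm_mul_le _ _).trans ?_
        have h2 : Real.sqrt (∑ k, ‖y v k‖ ^ 2) ≤ (1 / c) * a := by
          rw [one_div, inv_mul_eq_div, le_div_iff₀ hc, mul_comm]
          exact hyb v
        calc Real.sqrt (∑ k, ‖y v k‖ ^ 2) * b ≤ (1 / c) * a * b :=
              mul_le_mul_of_nonneg_right h2 (Real.sqrt_nonneg _)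
          _ = _ := by ring
      have h3 : a * b ≤ (t * a ^ 2 + t⁻¹ * b ^ 2) / 2 := by
        have ht' : t * t⁻¹ = 1 := mul_inv_cancel₀ ht.ne'
        have h4 : 0 ≤ t⁻¹ * (t * a - b) ^ 2 := by positivity
        have h5 : t⁻¹ * (t * a - b) ^ 2 = t * a ^ 2 * (t * t⁻¹) - 2 * (a * b) * (t * t⁻¹) + t⁻¹ * b ^ 2 := by
          ring
        rw [h5, ht'] at h4
        linarith
      have h6 : 0 ≤ 1 / c := by positivity
      calc ‖∑ k : Fin L, y v k * Rm L h k v‖ * wt v ≤ ((1 / c) * (a * b)) * wt v :=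
            mul_le_mul_of_nonneg_right h1 (wt_pos v).le
        _ ≤ ((1 / c) * ((t * a ^ 2 + t⁻¹ * b ^ 2) / 2)) * wt v :=
            mul_le_mul_of_nonneg_right (mul_le_mul_of_nonneg_left h3 h6) (wt_pos v).le
        _ = _ := by ring
  -- optimise
  set X := ‖(A⁻¹ * E).trace‖ with hX
  have hX0 : 0 ≤ X := norm_nonneg _
  have key2 : ∀ t : ℝ, 0 < t → 2 * (c * X) * t ≤ D1 * t ^ 2 + D2 := by
    intro t ht
    have h1 := key t ht
    have h2 : c * X ≤ (t * D1 + D2 / t) / 2 := by
      calc c * X ≤ c * ((1 / c) * ((t * D1 + D2 / t) / 2)) := mul_le_mul_of_nonneg_left h1 hc.le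
        _ = _ := by field_simp
    have h3 : (c * X) * (2 * t) ≤ ((t * D1 + D2 / t) / 2) * (2 * t) :=
      mul_le_mul_of_nonneg_right h2 (by positivity)
    have h4 : ((t * D1 + D2 / t) / 2) * (2 * t) = D1 * t ^ 2 + D2 := by field_simp
    linarith
  have hfin : (c * X) ^ 2 ≤ D1 * D2 := by
    by_contra hcon
    push Not at hcon
    have hcX : 0 < c * X := by
      rcases (mul_nonneg hc.le hX0).eq_or_lt with h0 | h0
      · rw [← h0] at hcon
        have := mul_nonneg hD1' hD2'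
        simp only [ne_eq, OfNat.ofNat_ne_zero, not_false_eq_true, zero_pow] at hcon
        linarith
      · exact h0
    rcases hD1'.eq_or_lt with h0 | h0
    · -- D1 = 0
      have h1 := key2 ((D2 + 1) / (c * X)) (by positivity)
      rw [← h0] at h1
      have h2 : 2 * (c * X) * ((D2 + 1) / (c * X)) = 2 * (D2 + 1) := by
        rw [mul_assoc, mul_div_cancel₀ _ hcX.ne']
      rw [h2] at h1
      linarith
    · have h1 := key2 (c * X / D1) (by positivity)
      have h2 : 2 * (c * X) * (c * X / D1) = 2 * ((c * X) ^ 2 / D1) := by ring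
      have h3 : D1 * (c * X / D1) ^ 2 = (c * X) ^ 2 / D1 := by field_simp
      rw [h2, h3] at h1
      have h4 : (c * X) ^ 2 / D1 ≤ D2 := by linarith
      rw [div_le_iff₀ h0] at h4
      linarith
  have h7 : c * X ≤ Real.sqrt D1 * Real.sqrt D2 := by
    rw [← Real.sqrt_mul hD1']
    exact Real.le_sqrt_of_sq_le hfin
  rw [one_div, inv_mul_eq_div, le_div_iff₀ hc, mul_comm]
  exact h7

/-- Jacobi's formula for a differentiable family of matrices -/
theorem det_hasDerivAt {n : ℕ} {A : ℝ → Matrix (Fin n) (Fin n) ℂ}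
    {A' : Matrix (Fin n) (Fin n) ℂ} {t : ℝ} (h : ∀ i j, HasDerivAt (fun s => A s i j) (A' i j) t)
    (hdet : (A t).det ≠ 0) :
    HasDerivAt (fun s => (A s).det) ((A t).det * ((A t)⁻¹ * A').trace) t := by
  have h1 : HasDerivAt (fun s => (A s).det)
      (∑ σ : Equiv.Perm (Fin n), ((Equiv.Perm.sign σ : ℤ) : ℂ) *
        ∑ i, (∏ j ∈ Finset.univ.erase i, A t (σ j) j) * A' (σ i) i) t := by
    have h2 : (fun s => (A s).det) = fun s => ∑ σ : Equiv.Perm (Fin n),
        ((Equiv.Perm.sign σ : ℤ) : ℂ) * ∏ i, A s (σ i) i := by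
      funext s; rw [Matrix.det_apply']
    rw [h2]
    refine HasDerivAt.fun_sum fun σ _ => ?_
    refine HasDerivAt.const_mul _ ?_
    have h3 := HasDerivAt.fun_finsetProd (u := (Finset.univ : Finset (Fin n)))
      (f := fun i s => A s (σ i) i) (f' := fun i => A' (σ i) i) (x := t) (fun i _ => h (σ i) i)
    simpa [smul_eq_mul] using h3
  convert h1 using 1
  have h4 : ∀ σ : Equiv.Perm (Fin n), ((Equiv.Perm.sign σ : ℤ) : ℂ) *
        ∑ i, (∏ j ∈ Finset.univ.erase i, A t (σ j) j) * A' (σ i) i =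
      ∑ i, ((Equiv.Perm.sign σ : ℤ) : ℂ) * ∏ j, ((A t).updateCol i (fun k => A' k i)) (σ j) j := by
    intro σ
    rw [Finset.mul_sum]
    refine Finset.sum_congr rfl fun i _ => ?_
    congr 1
    rw [← Finset.mul_prod_erase _ _ (Finset.mem_univ i), mul_comm]
    congr 1
    · simp
    · refine Finset.prod_congr rfl fun j hj => ?_
      rw [Matrix.updateCol_ne (Finset.ne_of_mem_erase hj)]
  simp only [h4]
  rw [Finset.sum_comm]
  have h5 : ∀ i, ∑ σ : Equiv.Perm (Fin n), ((Equiv.Perm.sign σ : ℤ) : ℂ) *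
      ∏ j, ((A t).updateCol i (fun k => A' k i)) (σ j) j = ((A t).adjugate * A') i i := by
    intro i
    rw [← Matrix.det_apply', ← Matrix.cramer_apply, Matrix.cramer_eq_adjugate_mulVec,
      Matrix.mul_apply]
    rfl
  simp only [h5]
  have h6 : (A t).adjugate = (A t).det • (A t)⁻¹ := by
    rw [Matrix.inv_def, smul_smul, Ring.mul_inverse_cancel _ (isUnit_iff_ne_zero.mpr hdet), one_smul]
  rw [h6, Matrix.smul_mul]
  simp [Matrix.trace, Finset.mul_sum]

end OneArm
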