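import Pool.Agent.Helper82.OneArm.Energy

/-! Module Var: the off-diagonal (Hilbert-Schmidt) bound via Christoffel-Darboux. -/

open Real MeasureTheory Filter Topology

namespace OneArm

/-- `‖(1 - Π) u Π‖_HS^2` -/
noncomputable def defect (L : ℕ) (u : ℝ → ℂ) : ℝ :=
  ∑ j ∈ Finset.range L, (∫ v, ‖u v‖ ^ 2 * (mp j v) ^ 2 * wt v) -
    ∑ j ∈ Finset.range L, ∑ k ∈ Finset.range L, ‖me u j k‖ ^ 2

theorem christoffel_darboux (L : ℕ) (v x : ℝ) :
    (v - x) * ∑ k ∈ Finset.range L, mp k v * mp k x =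
      (L : ℝ) / 2 * (mp L v * mp (L - 1) x - mp (L - 1) v * mp L x) := by
  induction L with
  | zero => simp
  | succ n ih =>
    rw [Finset.sum_range_succ, mul_add, ih]
    rcases n with _ | m
    · have h0 : ∀ y, mp 0 y = 1 := fun y => rfl
      have h1 : ∀ y, mp 1 y = 2 * y := fun y => rfl
      simp only [Nat.cast_zero, zero_add, h0, h1, Nat.cast_one, Nat.sub_self]
      ring
    · have r1 := mp_rec m v
      have r2 := mp_rec m x
      simp only [Nat.add_sub_cancel]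
      push_cast
      have e1 : mp (m + 1 + 1) v = mp (m + 2) v := rfl
      have e2 : mp (m + 1 + 1) x = mp (m + 2) x := rfl
      rw [e1, e2]
      linear_combination (-(mp (m + 1) x) / 2) * r1 + (mp (m + 1) v / 2) * r2

/-! ### integrals over the plane -/

/-- one-variable piece -/
noncomputable def pc (f : ℝ → ℝ) (j k : ℕ) (v : ℝ) : ℝ := f v * mp j v * mp k v * wt v

theorem pc_integrable {f : ℝ → ℝ} {M : ℝ} (hf : Continuous f) (hb : ∀ v, |f v| ≤ M) (j k : ℕ) :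
    Integrable (pc f j k) :=
  integrable_real hf.aestronglyMeasurable hb j k

theorem one_integrable (j k : ℕ) : Integrable (pc (fun _ => 1) j k) :=
  pc_integrable (M := 1) continuous_const (fun v => by simp) j k

theorem one_integral (j k : ℕ) : ∫ v, pc (fun _ => 1) j k v = if j = k then 1 else 0 := by
  rw [← mp_orth j k]
  congr 1
  ext v
  unfold pc
  ring

theorem kk_expand (L : ℕ) (f g : ℝ → ℝ) (p : ℝ × ℝ) :
    f p.1 * g p.2 * (∑ k ∈ Finset.range L, mp k p.1 * mp k p.2) ^ 2 * (wt p.1 * wt p.2) =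
      ∑ j ∈ Finset.range L, ∑ k ∈ Finset.range L, pc f j k p.1 * pc g j k p.2 := by
  rw [sq, Finset.sum_mul_sum, Finset.mul_sum, Finset.sum_mul]
  refine Finset.sum_congr rfl (fun j _ => ?_)
  rw [Finset.mul_sum, Finset.sum_mul]
  refine Finset.sum_congr rfl (fun k _ => ?_)
  unfold pc
  ring

theorem kk_integrable {f g : ℝ → ℝ} {M N : ℝ} (hf : Continuous f) (hb : ∀ v, |f v| ≤ M)
    (hg : Continuous g) (hb' : ∀ v, |g v| ≤ N) (L : ℕ) :
    Integrable (fun p : ℝ × ℝ => f p.1 * g p.2 *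
      (∑ k ∈ Finset.range L, mp k p.1 * mp k p.2) ^ 2 * (wt p.1 * wt p.2)) := by
  have e : (fun p : ℝ × ℝ => f p.1 * g p.2 *
      (∑ k ∈ Finset.range L, mp k p.1 * mp k p.2) ^ 2 * (wt p.1 * wt p.2)) =
      fun p => ∑ j ∈ Finset.range L, ∑ k ∈ Finset.range L, pc f j k p.1 * pc g j k p.2 := by
    ext p; exact kk_expand L f g p
  rw [e, Measure.volume_eq_prod]
  refine integrable_finsetSum _ (fun j _ => integrable_finsetSum _ (fun k _ => ?_))
  exact (pc_integrable hf hb j k).mul_prod (pc_integrable hg hb' j k)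

theorem kk_integral {f g : ℝ → ℝ} {M N : ℝ} (hf : Continuous f) (hb : ∀ v, |f v| ≤ M)
    (hg : Continuous g) (hb' : ∀ v, |g v| ≤ N) (L : ℕ) :
    ∫ p : ℝ × ℝ, f p.1 * g p.2 *
      (∑ k ∈ Finset.range L, mp k p.1 * mp k p.2) ^ 2 * (wt p.1 * wt p.2) =
      ∑ j ∈ Finset.range L, ∑ k ∈ Finset.range L, (∫ v, pc f j k v) * (∫ v, pc g j k v) := by
  have e : (fun p : ℝ × ℝ => f p.1 * g p.2 *
      (∑ k ∈ Finset.range L, mp k p.1 * mp k p.2) ^ 2 * (wt p.1 * wt p.2)) =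
      fun p => ∑ j ∈ Finset.range L, ∑ k ∈ Finset.range L, pc f j k p.1 * pc g j k p.2 := by
    ext p; exact kk_expand L f g p
  have hi : ∀ j k, Integrable (fun p : ℝ × ℝ => pc f j k p.1 * pc g j k p.2)
      ((volume : Measure ℝ).prod volume) := fun j k =>
    (pc_integrable hf hb j k).mul_prod (pc_integrable hg hb' j k)
  rw [e, Measure.volume_eq_prod, integral_finsetSum _ (fun j _ =>
    integrable_finsetSum _ (fun k _ => hi j k))]
  refine Finset.sum_congr rfl (fun j _ => ?_)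
  rw [integral_finsetSum _ (fun k _ => hi j k)]
  refine Finset.sum_congr rfl (fun k _ => ?_)
  exact integral_prod_mul (pc f j k) (pc g j k)

theorem kk_integral_left {f : ℝ → ℝ} {M : ℝ} (hf : Continuous f) (hb : ∀ v, |f v| ≤ M) (L : ℕ) :
    ∫ p : ℝ × ℝ, f p.1 * 1 *
      (∑ k ∈ Finset.range L, mp k p.1 * mp k p.2) ^ 2 * (wt p.1 * wt p.2) =
      ∑ j ∈ Finset.range L, ∫ v, f v * mp j v ^ 2 * wt v := by
  rw [kk_integral (g := fun _ => 1) (N := 1) hf hb continuous_const (fun v => by simp) L]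
  refine Finset.sum_congr rfl (fun j hj => ?_)
  simp only [one_integral, mul_ite, mul_one, mul_zero]
  rw [Finset.sum_ite_eq, if_pos hj]
  congr 1
  ext v
  unfold pc
  ring

theorem kk_integral_right {f : ℝ → ℝ} {M : ℝ} (hf : Continuous f) (hb : ∀ v, |f v| ≤ M) (L : ℕ) :
    ∫ p : ℝ × ℝ, 1 * f p.2 *
      (∑ k ∈ Finset.range L, mp k p.1 * mp k p.2) ^ 2 * (wt p.1 * wt p.2) =
      ∑ j ∈ Finset.range L, ∫ v, f v * mp j v ^ 2 * wt v := by
  rw [kk_integral (f := fun _ => 1) (M := 1) continuous_const (fun v => by simp) hf hb L]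
  refine Finset.sum_congr rfl (fun j hj => ?_)
  simp only [one_integral, ite_mul, one_mul, zero_mul]
  rw [Finset.sum_ite_eq, if_pos hj]
  congr 1
  ext v
  unfold pc
  ring

theorem int4 {G1 G2 G3 G4 : ℝ × ℝ → ℝ} (i1 : Integrable G1) (i2 : Integrable G2)
    (i3 : Integrable G3) (i4 : Integrable G4) :
    ∫ p, ((G1 p + G2 p) - (2 * G3 p + 2 * G4 p)) =
      ((∫ p, G1 p) + (∫ p, G2 p)) - (2 * (∫ p, G3 p) + 2 * (∫ p, G4 p)) := by
  have h1 : ∫ p, ((G1 p + G2 p) - (2 * G3 p + 2 * G4 p)) =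
      (∫ p, (G1 p + G2 p)) - ∫ p, (2 * G3 p + 2 * G4 p) :=
    integral_sub (i1.add i2) ((i3.const_mul 2).add (i4.const_mul 2))
  have h2 : ∫ p, (G1 p + G2 p) = (∫ p, G1 p) + (∫ p, G2 p) := integral_add i1 i2
  have h3 : ∫ p, (2 * G3 p + 2 * G4 p) = (∫ p, 2 * G3 p) + (∫ p, 2 * G4 p) :=
    integral_add (i3.const_mul 2) (i4.const_mul 2)
  rw [h1, h2, h3, integral_const_mul, integral_const_mul]

theorem defect_eq {u : ℝ → ℂ} {M : ℝ} (hu : Continuous u) (hb : ∀ v, ‖u v‖ ≤ M) (L : ℕ) :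
    defect L u = (1 / 2) * ∫ p : ℝ × ℝ, ‖u p.1 - u p.2‖ ^ 2 *
      (∑ k ∈ Finset.range L, mp k p.1 * mp k p.2) ^ 2 * (wt p.1 * wt p.2) := by
  have hM : 0 ≤ M := (norm_nonneg _).trans (hb 0)
  have c1 : Continuous (fun v => ‖u v‖ ^ 2) := (hu.norm).pow 2
  have b1 : ∀ v, |‖u v‖ ^ 2| ≤ M ^ 2 := fun v => by
    rw [abs_of_nonneg (by positivity)]
    exact pow_le_pow_left₀ (norm_nonneg _) (hb v) 2
  have c2 : Continuous (fun v => (u v).re) := Complex.continuous_re.comp hu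
  have b2 : ∀ v, |(u v).re| ≤ M := fun v => (Complex.abs_re_le_norm _).trans (hb v)
  have c3 : Continuous (fun v => (u v).im) := Complex.continuous_im.comp hu
  have b3 : ∀ v, |(u v).im| ≤ M := fun v => (Complex.abs_im_le_norm _).trans (hb v)
  have co : Continuous (fun _ : ℝ => (1 : ℝ)) := continuous_const
  have bo : ∀ v : ℝ, |(fun _ : ℝ => (1 : ℝ)) v| ≤ 1 := fun v => by simp
  have e : (fun p : ℝ × ℝ => ‖u p.1 - u p.2‖ ^ 2 *
      (∑ k ∈ Finset.range L, mp k p.1 * mp k p.2) ^ 2 * (wt p.1 * wt p.2)) =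
      fun p => ((‖u p.1‖ ^ 2 * 1 *
      (∑ k ∈ Finset.range L, mp k p.1 * mp k p.2) ^ 2 * (wt p.1 * wt p.2)) +
      (1 * ‖u p.2‖ ^ 2 *
      (∑ k ∈ Finset.range L, mp k p.1 * mp k p.2) ^ 2 * (wt p.1 * wt p.2))) -
      (2 * ((u p.1).re * (u p.2).re *
      (∑ k ∈ Finset.range L, mp k p.1 * mp k p.2) ^ 2 * (wt p.1 * wt p.2)) +
      2 * ((u p.1).im * (u p.2).im *
      (∑ k ∈ Finset.range L, mp k p.1 * mp k p.2) ^ 2 * (wt p.1 * wt p.2))) := by
    ext p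
    have h : ‖u p.1 - u p.2‖ ^ 2 = ‖u p.1‖ ^ 2 + ‖u p.2‖ ^ 2 -
        2 * ((u p.1).re * (u p.2).re + (u p.1).im * (u p.2).im) := by
      rw [← Complex.normSq_eq_norm_sq, ← Complex.normSq_eq_norm_sq, ← Complex.normSq_eq_norm_sq,
        Complex.normSq_apply, Complex.normSq_apply, Complex.normSq_apply, Complex.sub_re,
        Complex.sub_im]
      ring
    rw [h]
    ring
  have i1 := kk_integrable c1 b1 co bo L
  have i2 := kk_integrable co bo c1 b1 L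
  have i3 := kk_integrable c2 b2 c2 b2 L
  have i4 := kk_integrable c3 b3 c3 b3 L
  rw [e, int4 i1 i2 i3 i4, kk_integral_left c1 b1 L, kk_integral_right c1 b1 L,
    kk_integral c2 b2 c2 b2 L, kk_integral c3 b3 c3 b3 L]
  unfold defect
  have hme : ∀ j k, ‖me u j k‖ ^ 2 =
      (∫ v, pc (fun v => (u v).re) j k v) * (∫ v, pc (fun v => (u v).re) j k v) +
      (∫ v, pc (fun v => (u v).im) j k v) * (∫ v, pc (fun v => (u v).im) j k v) := by
    intro j k
    have hint : Integrable (fun v => u v * mp j v * mp k v * wt v) :=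
      integrable_me hu.aestronglyMeasurable hb j k
    have hre : (me u j k).re = ∫ v, pc (fun v => (u v).re) j k v := by
      unfold me
      rw [← Complex.reCLM_apply, ← Complex.reCLM.integral_comp_comm hint]
      congr 1
      ext v
      unfold pc
      rw [Complex.reCLM_apply, Complex.re_mul_ofReal, Complex.re_mul_ofReal, Complex.re_mul_ofReal]
    have him : (me u j k).im = ∫ v, pc (fun v => (u v).im) j k v := by
      unfold me
      rw [← Complex.imCLM_apply, ← Complex.imCLM.integral_comp_comm hint]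
      congr 1
      ext v
      unfold pc
      rw [Complex.imCLM_apply, Complex.im_mul_ofReal, Complex.im_mul_ofReal, Complex.im_mul_ofReal]
    rw [← Complex.normSq_eq_norm_sq, Complex.normSq_apply, hre, him]
  simp only [hme, Finset.sum_add_distrib]
  ring

/-! ### the variance bound -/

theorem cd_sq (L : ℕ) (v x : ℝ) :
    (v - x) ^ 2 * ((∑ k ∈ Finset.range L, mp k v * mp k x) ^ 2 * (wt v * wt x)) ≤
      (L : ℝ) ^ 2 / 2 * ((mp L v ^ 2 * wt v) * (mp (L - 1) x ^ 2 * wt x) +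
        (mp (L - 1) v ^ 2 * wt v) * (mp L x ^ 2 * wt x)) := by
  have h := christoffel_darboux L v x
  have h2 : (v - x) ^ 2 * (∑ k ∈ Finset.range L, mp k v * mp k x) ^ 2 =
      ((L : ℝ) / 2 * (mp L v * mp (L - 1) x - mp (L - 1) v * mp L x)) ^ 2 := by
    rw [← h]; ring
  have hw : 0 < wt v * wt x := mul_pos (wt_pos v) (wt_pos x)
  calc (v - x) ^ 2 * ((∑ k ∈ Finset.range L, mp k v * mp k x) ^ 2 * (wt v * wt x))
      = ((L : ℝ) / 2 * (mp L v * mp (L - 1) x - mp (L - 1) v * mp L x)) ^ 2 * (wt v * wt x) := by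
        rw [← h2]; ring
    _ ≤ (L : ℝ) ^ 2 / 2 * ((mp L v * mp (L - 1) x) ^ 2 + (mp (L - 1) v * mp L x) ^ 2) *
        (wt v * wt x) := by
        apply mul_le_mul_of_nonneg_right _ hw.le
        nlinarith [mul_nonneg (sq_nonneg (L : ℝ))
          (sq_nonneg (mp L v * mp (L - 1) x + mp (L - 1) v * mp L x))]
    _ = _ := by ring

theorem exp_sq_abs (v : ℝ) : Real.exp (-|v|) ^ 2 = Real.exp (-(2 * |v|)) := by
  rw [← Real.exp_nat_mul]
  congr 1
  push_cast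
  ring

/-- far region -/
theorem far_bound {u : ℝ → ℂ} {M : ℝ} (hu : ∀ v, ‖u v‖ ≤ M * Real.exp (-|v|)) {L : ℕ}
    (hL : 1 ≤ L) (v x : ℝ) (hfar : (L : ℝ) / 2 - 1 < |v| ∨ (L : ℝ) / 2 - 1 < |x|) :
    ‖u v‖ ^ 2 * ((∑ k ∈ Finset.range L, mp k v * mp k x) ^ 2 * (wt v * wt x)) ≤
      8 * M ^ 2 * (Real.exp (-(2 * |v|)) * (mp L v ^ 2 * wt v) * (mp (L - 1) x ^ 2 * wt x) +
        Real.exp (-(2 * |v|)) * (mp (L - 1) v ^ 2 * wt v) * (mp L x ^ 2 * wt x)) +
      M ^ 2 * Real.exp (1 - (L : ℝ) / 4) * (Real.exp (-|v|) *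
        ((∑ k ∈ Finset.range L, mp k v * mp k x) ^ 2 * (wt v * wt x))) := by
  have hw : 0 < wt v * wt x := mul_pos (wt_pos v) (wt_pos x)
  have hwv := wt_pos v
  have hwx := wt_pos x
  set Q := (∑ k ∈ Finset.range L, mp k v * mp k x) ^ 2 * (wt v * wt x) with hQ
  have hQ0 : 0 ≤ Q := by positivity
  have hM : 0 ≤ M := by
    have := (norm_nonneg _).trans (hu 0)
    simpa using this
  have hu2 : ‖u v‖ ^ 2 ≤ M ^ 2 * Real.exp (-(2 * |v|)) := by
    rw [← exp_sq_abs, ← mul_pow]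
    exact pow_le_pow_left₀ (norm_nonneg _) (hu v) 2
  have hL' : (1 : ℝ) ≤ L := by exact_mod_cast hL
  rcases lt_or_ge ((L : ℝ) / 4 - 1) |v| with h | h
  · have h1 : Real.exp (-(2 * |v|)) ≤ Real.exp (1 - (L : ℝ) / 4) * Real.exp (-|v|) := by
      rw [← Real.exp_add]
      apply Real.exp_le_exp.mpr
      linarith
    have h2 : ‖u v‖ ^ 2 * Q ≤ M ^ 2 * Real.exp (1 - (L : ℝ) / 4) * (Real.exp (-|v|) * Q) := by
      calc ‖u v‖ ^ 2 * Q ≤ (M ^ 2 * (Real.exp (1 - (L : ℝ) / 4) * Real.exp (-|v|))) * Q := by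
            apply mul_le_mul_of_nonneg_right _ hQ0
            exact hu2.trans (mul_le_mul_of_nonneg_left h1 (by positivity))
        _ = _ := by ring
    have h3 : 0 ≤ 8 * M ^ 2 * (Real.exp (-(2 * |v|)) * (mp L v ^ 2 * wt v) *
        (mp (L - 1) x ^ 2 * wt x) +
        Real.exp (-(2 * |v|)) * (mp (L - 1) v ^ 2 * wt v) * (mp L x ^ 2 * wt x)) := by
      positivity
    linarith
  · have hx : (L : ℝ) / 2 - 1 < |x| := by
      rcases hfar with h' | h'
      · linarith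
      · exact h'
    have hvx : (L : ℝ) / 4 ≤ |v - x| := by
      have := abs_sub_abs_le_abs_sub x v
      rw [abs_sub_comm] at this
      linarith
    have hsq : (L : ℝ) ^ 2 / 16 ≤ (v - x) ^ 2 := by
      have := pow_le_pow_left₀ (by positivity) hvx 2
      rw [sq_abs] at this
      linarith
    have hcd := cd_sq L v x
    rw [← hQ] at hcd
    have hQ1 : Q ≤ 8 * ((mp L v ^ 2 * wt v) * (mp (L - 1) x ^ 2 * wt x) +
        (mp (L - 1) v ^ 2 * wt v) * (mp L x ^ 2 * wt x)) := by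
      have h5 : (L : ℝ) ^ 2 / 16 * Q ≤ (L : ℝ) ^ 2 / 16 * (8 * ((mp L v ^ 2 * wt v) *
          (mp (L - 1) x ^ 2 * wt x) + (mp (L - 1) v ^ 2 * wt v) * (mp L x ^ 2 * wt x))) := by
        have := mul_le_mul_of_nonneg_right hsq hQ0
        linarith
      exact le_of_mul_le_mul_left h5 (by positivity)
    have h2 : ‖u v‖ ^ 2 * Q ≤ 8 * M ^ 2 * (Real.exp (-(2 * |v|)) * (mp L v ^ 2 * wt v) *
        (mp (L - 1) x ^ 2 * wt x) +
        Real.exp (-(2 * |v|)) * (mp (L - 1) v ^ 2 * wt v) * (mp L x ^ 2 * wt x)) := by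
      calc ‖u v‖ ^ 2 * Q ≤ (M ^ 2 * Real.exp (-(2 * |v|))) * (8 * ((mp L v ^ 2 * wt v) *
          (mp (L - 1) x ^ 2 * wt x) + (mp (L - 1) v ^ 2 * wt v) * (mp L x ^ 2 * wt x))) :=
            mul_le_mul hu2 hQ1 hQ0 (by positivity)
        _ = _ := by ring
    have h3 : 0 ≤ M ^ 2 * Real.exp (1 - (L : ℝ) / 4) * (Real.exp (-|v|) * Q) := by positivity
    linarith

/-- near region -/
theorem near_bound {u : ℝ → ℂ} {M C : ℝ} (hM : 0 ≤ M) (hu : ∀ v, ‖u v‖ ≤ M * Real.exp (-|v|))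
    (hlip : ∀ v x, ‖u v - u x‖ ≤ M * |v - x| * (Real.exp (-|v|) + Real.exp (-|x|)))
    (hC : ∀ (n : ℕ) (v : ℝ), 2 * |v| + 1 ≤ n →
      ((n : ℝ) + 1) * ((mp (n + 1) v) ^ 2 + (mp n v) ^ 2) * wt v ≤ C)
    {L : ℕ} (hL : 1 ≤ L) (v x : ℝ) (hv : |v| ≤ (L : ℝ) / 2 - 1) (hx : |x| ≤ (L : ℝ) / 2 - 1) :
    ‖u v - u x‖ ^ 2 * ((∑ k ∈ Finset.range L, mp k v * mp k x) ^ 2 * (wt v * wt x)) ≤
      2 * M ^ 2 * C ^ 2 * ((Real.exp (-(2 * |v|)) + Real.exp (-(2 * |x|))) *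
        (1 + (v - x) ^ 2)⁻¹) := by
  have hwv := wt_pos v
  have hwx := wt_pos x
  set Q := (∑ k ∈ Finset.range L, mp k v * mp k x) ^ 2 * (wt v * wt x) with hQ
  have hQ0 : 0 ≤ Q := by positivity
  obtain ⟨n, rfl⟩ : ∃ n, L = n + 1 := ⟨L - 1, by omega⟩
  have key : ∀ y : ℝ, |y| ≤ ((n + 1 : ℕ) : ℝ) / 2 - 1 →
      ((n : ℝ) + 1) * (mp (n + 1) y ^ 2 * wt y + mp n y ^ 2 * wt y) ≤ C := by
    intro y hy
    push_cast at hy
    have := hC n y (by linarith)
    calc ((n : ℝ) + 1) * (mp (n + 1) y ^ 2 * wt y + mp n y ^ 2 * wt y)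
        = ((n : ℝ) + 1) * ((mp (n + 1) y) ^ 2 + (mp n y) ^ 2) * wt y := by ring
      _ ≤ C := this
  have kv := key v hv
  have kx := key x hx
  have hcd := cd_sq (n + 1) v x
  rw [← hQ] at hcd
  simp only [Nat.add_sub_cancel] at hcd
  push_cast at hcd
  set av := mp (n + 1) v ^ 2 * wt v
  set bv := mp n v ^ 2 * wt v
  set ax := mp (n + 1) x ^ 2 * wt x
  set bx := mp n x ^ 2 * wt x
  have hav : 0 ≤ av := by positivity
  have hbv : 0 ≤ bv := by positivity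
  have hax : 0 ≤ ax := by positivity
  have hbx : 0 ≤ bx := by positivity
  have hn : (0 : ℝ) ≤ n := Nat.cast_nonneg n
  have hCC : ((n : ℝ) + 1) ^ 2 / 2 * (av * bx + bv * ax) ≤ C ^ 2 / 2 := by
    have h1 := mul_le_mul kv kx (by positivity) (by
      exact le_trans (by positivity) kv)
    nlinarith [mul_nonneg (sq_nonneg ((n : ℝ) + 1)) (mul_nonneg hav hax),
      mul_nonneg (sq_nonneg ((n : ℝ) + 1)) (mul_nonneg hbv hbx)]
  have hD : (v - x) ^ 2 * Q ≤ C ^ 2 / 2 := hcd.trans hCC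
  have ev := Real.exp_pos (-|v|)
  have ex := Real.exp_pos (-|x|)
  have hE : (Real.exp (-|v|) + Real.exp (-|x|)) ^ 2 ≤
      2 * (Real.exp (-(2 * |v|)) + Real.exp (-(2 * |x|))) := by
    rw [← exp_sq_abs, ← exp_sq_abs]
    nlinarith [sq_nonneg (Real.exp (-|v|) - Real.exp (-|x|))]
  set E := Real.exp (-(2 * |v|)) + Real.exp (-(2 * |x|)) with hEdef
  have hE0 : 0 ≤ E := by positivity
  set a := ‖u v - u x‖ ^ 2 with ha
  have ha0 : 0 ≤ a := by positivity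
  have a1 : a ≤ 2 * M ^ 2 * E := by
    have h1 : ‖u v - u x‖ ≤ M * (Real.exp (-|v|) + Real.exp (-|x|)) := by
      have := (norm_sub_le (u v) (u x)).trans (add_le_add (hu v) (hu x))
      linarith
    have h2 := pow_le_pow_left₀ (norm_nonneg _) h1 2
    rw [mul_pow] at h2
    have h3 := mul_le_mul_of_nonneg_left hE (sq_nonneg M)
    linarith
  have a2 : a ≤ (v - x) ^ 2 * (2 * M ^ 2 * E) := by
    have h2 := pow_le_pow_left₀ (norm_nonneg _) (hlip v x) 2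
    rw [mul_pow, mul_pow, sq_abs] at h2
    have h3 := mul_le_mul_of_nonneg_left hE (mul_nonneg (sq_nonneg M) (sq_nonneg (v - x)))
    linarith
  have hpos : 0 < 1 + (v - x) ^ 2 := by positivity
  have e0 : 2 * M ^ 2 * C ^ 2 * (E * (1 + (v - x) ^ 2)⁻¹) =
      (2 * M ^ 2 * C ^ 2 * E) / (1 + (v - x) ^ 2) := by
    rw [div_eq_mul_inv]; ring
  rw [e0, le_div_iff₀ hpos]
  have h5 : a * Q ≤ 2 * M ^ 2 * E * (C ^ 2 / 2) := by
    calc a * Q ≤ ((v - x) ^ 2 * (2 * M ^ 2 * E)) * Q := mul_le_mul_of_nonneg_right a2 hQ0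
      _ = (2 * M ^ 2 * E) * ((v - x) ^ 2 * Q) := by ring
      _ ≤ 2 * M ^ 2 * E * (C ^ 2 / 2) := mul_le_mul_of_nonneg_left hD (by positivity)
  have h6 : a * ((v - x) ^ 2 * Q) ≤ 2 * M ^ 2 * E * (C ^ 2 / 2) :=
    mul_le_mul a1 hD (by positivity) (by positivity)
  nlinarith

/-- the function `e^{-2|v|}` -/
noncomputable def ex2 (v : ℝ) : ℝ := Real.exp (-(2 * |v|))

/-- the function `e^{-|v|}` -/
noncomputable def ex1 (v : ℝ) : ℝ := Real.exp (-|v|)

theorem ex2_cont : Continuous ex2 := by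
  unfold ex2
  fun_prop

theorem ex1_cont : Continuous ex1 := by
  unfold ex1
  fun_prop

theorem ex2_bd (v : ℝ) : |ex2 v| ≤ 1 := by
  unfold ex2
  rw [abs_of_pos (Real.exp_pos _)]
  exact Real.exp_le_one_iff.mpr (by linarith [abs_nonneg v])

theorem ex1_bd (v : ℝ) : |ex1 v| ≤ 1 := by
  unfold ex1
  rw [abs_of_pos (Real.exp_pos _)]
  exact Real.exp_le_one_iff.mpr (by linarith [abs_nonneg v])

theorem ex2_int : Integrable ex2 := integrable_exp_abs two_pos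

theorem ex1_int : Integrable ex1 := integrable_exp_neg_abs

theorem ex_q_int : Integrable (fun p : ℝ × ℝ => ex2 p.2 * (1 + (p.1 - p.2) ^ 2)⁻¹) := by
  have h := Integrable.convolution_integrand (μ := (volume : Measure ℝ)) (ν := (volume : Measure ℝ))
    (ContinuousLinearMap.mul ℝ ℝ) ex2_int integrable_inv_one_add_sq
  rw [Measure.volume_eq_prod]
  exact h

theorem ex_q_int' : Integrable (fun p : ℝ × ℝ => ex2 p.1 * (1 + (p.1 - p.2) ^ 2)⁻¹) := by
  have h := ex_q_int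
  rw [Measure.volume_eq_prod] at h ⊢
  have h2 := h.swap
  refine h2.congr (Eventually.of_forall (fun p => ?_))
  simp only [Function.comp, Prod.fst_swap, Prod.snd_swap]
  congr 2
  ring

/-- majorant for far region -/
noncomputable def varRR (M : ℝ) (L : ℕ) (v x : ℝ) : ℝ :=
  8 * M ^ 2 * (pc ex2 L L v * pc (fun _ => 1) (L - 1) (L - 1) x +
    pc ex2 (L - 1) (L - 1) v * pc (fun _ => 1) L L x) +
  M ^ 2 * Real.exp (1 - (L : ℝ) / 4) * (ex1 v * 1 *
    (∑ k ∈ Finset.range L, mp k v * mp k x) ^ 2 * (wt v * wt x))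

theorem varRR_nonneg (M : ℝ) (L : ℕ) (v x : ℝ) : 0 ≤ varRR M L v x := by
  unfold varRR pc ex2 ex1
  have hwv := wt_pos v
  have hwx := wt_pos x
  have e1 := mul_self_nonneg (mp L v)
  have e2 := mul_self_nonneg (mp L x)
  have e3 := mul_self_nonneg (mp (L - 1) v)
  have e4 := mul_self_nonneg (mp (L - 1) x)
  have f1 : Real.exp (-(2 * |v|)) * mp L v * mp L v * wt v =
    Real.exp (-(2 * |v|)) * (mp L v * mp L v) * wt v := by ring
  have f2 : Real.exp (-(2 * |v|)) * mp (L - 1) v * mp (L - 1) v * wt v =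
    Real.exp (-(2 * |v|)) * (mp (L - 1) v * mp (L - 1) v) * wt v := by ring
  have f3 : 1 * mp L x * mp L x * wt x = (mp L x * mp L x) * wt x := by ring
  have f4 : 1 * mp (L - 1) x * mp (L - 1) x * wt x = (mp (L - 1) x * mp (L - 1) x) * wt x := by
    ring
  rw [f1, f2, f3, f4]
  positivity

theorem varRR_integrable (M : ℝ) (L : ℕ) : Integrable (fun p : ℝ × ℝ => varRR M L p.1 p.2) := by
  unfold varRR
  have i1 : Integrable (fun p : ℝ × ℝ => pc ex2 L L p.1 * pc (fun _ => 1) (L - 1) (L - 1) p.2) := by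
    rw [Measure.volume_eq_prod]
    exact (pc_integrable ex2_cont ex2_bd _ _).mul_prod (one_integrable _ _)
  have i2 : Integrable (fun p : ℝ × ℝ => pc ex2 (L - 1) (L - 1) p.1 * pc (fun _ => 1) L L p.2) := by
    rw [Measure.volume_eq_prod]
    exact (pc_integrable ex2_cont ex2_bd _ _).mul_prod (one_integrable _ _)
  have i3 := kk_integrable (g := fun _ => 1) (N := 1) ex1_cont ex1_bd continuous_const
    (fun v => by simp) L
  exact ((i1.add i2).const_mul _).add (i3.const_mul _)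

theorem pc_le {f : ℝ → ℝ} {M : ℝ} (hf : Continuous f) (hb : ∀ v, |f v| ≤ M) (h0 : ∀ v, 0 ≤ f v)
    (hi : Integrable f) (j : ℕ) : ∫ v, pc f j j v ≤ 8 * ∫ v, f v := by
  rw [← integral_const_mul]
  refine integral_mono (pc_integrable hf hb j j) (hi.const_mul 8) (fun v => ?_)
  unfold pc
  have h := mp_unif j v
  have h1 := mul_le_mul_of_nonneg_left h (h0 v)
  calc f v * mp j v * mp j v * wt v = f v * (mp j v ^ 2 * wt v) := by ring
    _ ≤ f v * 8 := h1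
    _ = 8 * f v := by ring

theorem int3 {G1 G2 G3 : ℝ × ℝ → ℝ} (a b : ℝ) (i1 : Integrable G1) (i2 : Integrable G2)
    (i3 : Integrable G3) :
    ∫ p, (a * (G1 p + G2 p) + b * G3 p) =
      a * ((∫ p, G1 p) + (∫ p, G2 p)) + b * (∫ p, G3 p) := by
  have h1 : ∫ p, (a * (G1 p + G2 p) + b * G3 p) =
      (∫ p, a * (G1 p + G2 p)) + ∫ p, b * G3 p :=
    integral_add ((i1.add i2).const_mul a) (i3.const_mul b)
  have h2 : ∫ p, (G1 p + G2 p) = (∫ p, G1 p) + (∫ p, G2 p) := integral_add i1 i2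
  rw [h1, integral_const_mul, integral_const_mul, h2]

theorem varRR_integral (M : ℝ) {L : ℕ} (hL : 1 ≤ L) :
    ∫ p : ℝ × ℝ, varRR M L p.1 p.2 ≤ M ^ 2 * (128 * (∫ v, ex2 v) + 96 * ∫ v, ex1 v) := by
  have hE2 : 0 ≤ ∫ v, ex2 v := integral_nonneg (fun v => (Real.exp_pos _).le)
  have hE1 : 0 ≤ ∫ v, ex1 v := integral_nonneg (fun v => (Real.exp_pos _).le)
  have i1 : Integrable (fun p : ℝ × ℝ => pc ex2 L L p.1 * pc (fun _ => 1) (L - 1) (L - 1) p.2) := by
    rw [Measure.volume_eq_prod]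
    exact (pc_integrable ex2_cont ex2_bd _ _).mul_prod (one_integrable _ _)
  have i2 : Integrable (fun p : ℝ × ℝ => pc ex2 (L - 1) (L - 1) p.1 * pc (fun _ => 1) L L p.2) := by
    rw [Measure.volume_eq_prod]
    exact (pc_integrable ex2_cont ex2_bd _ _).mul_prod (one_integrable _ _)
  have i3 := kk_integrable (g := fun _ => 1) (N := 1) ex1_cont ex1_bd continuous_const
    (fun v => by simp) L
  have e : ∫ p : ℝ × ℝ, varRR M L p.1 p.2 =
      8 * M ^ 2 * ((∫ v, pc ex2 L L v) + ∫ v, pc ex2 (L - 1) (L - 1) v) +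
      M ^ 2 * Real.exp (1 - (L : ℝ) / 4) * ∑ j ∈ Finset.range L, ∫ v, ex1 v * mp j v ^ 2 * wt v := by
    unfold varRR
    rw [int3 (8 * M ^ 2) (M ^ 2 * Real.exp (1 - (L : ℝ) / 4)) i1 i2 i3,
      kk_integral_left ex1_cont ex1_bd L]
    have p1 : ∫ p : ℝ × ℝ, pc ex2 L L p.1 * pc (fun _ => 1) (L - 1) (L - 1) p.2 =
        ∫ v, pc ex2 L L v := by
      rw [Measure.volume_eq_prod, integral_prod_mul (pc ex2 L L) (pc (fun _ => 1) (L - 1) (L - 1)),
        one_integral, if_pos rfl, mul_one]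
    have p2 : ∫ p : ℝ × ℝ, pc ex2 (L - 1) (L - 1) p.1 * pc (fun _ => 1) L L p.2 =
        ∫ v, pc ex2 (L - 1) (L - 1) v := by
      rw [Measure.volume_eq_prod, integral_prod_mul (pc ex2 (L - 1) (L - 1)) (pc (fun _ => 1) L L),
        one_integral, if_pos rfl, mul_one]
    rw [p1, p2]
  rw [e]
  have a1 := pc_le ex2_cont ex2_bd (fun v => (Real.exp_pos _).le) ex2_int L
  have a2 := pc_le ex2_cont ex2_bd (fun v => (Real.exp_pos _).le) ex2_int (L - 1)
  have a3 : ∑ j ∈ Finset.range L, ∫ v, ex1 v * mp j v ^ 2 * wt v ≤ L * (8 * ∫ v, ex1 v) := by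
    calc ∑ j ∈ Finset.range L, ∫ v, ex1 v * mp j v ^ 2 * wt v ≤
          ∑ _j ∈ Finset.range L, (8 * ∫ v, ex1 v) := by
          apply Finset.sum_le_sum
          intro j _
          have := pc_le ex1_cont ex1_bd (fun v => (Real.exp_pos _).le) ex1_int j
          refine le_trans (le_of_eq ?_) this
          congr 1
          ext v
          unfold pc
          ring
      _ = L * (8 * ∫ v, ex1 v) := by
          rw [Finset.sum_const, Finset.card_range, nsmul_eq_mul]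
  have a4 : Real.exp (1 - (L : ℝ) / 4) * L ≤ 12 := by
    have h1 : Real.exp (1 - (L : ℝ) / 4) = Real.exp 1 * Real.exp (-((L : ℝ) / 4)) := by
      rw [← Real.exp_add]; congr 1
    have h2 : (L : ℝ) ≤ 4 * Real.exp ((L : ℝ) / 4) := by
      have := Real.add_one_le_exp ((L : ℝ) / 4)
      linarith
    have h3 : Real.exp (-((L : ℝ) / 4)) * L ≤ 4 := by
      rw [Real.exp_neg, inv_mul_le_iff₀ (Real.exp_pos _)]
      linarith
    have h4 := Real.exp_one_lt_d9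
    rw [h1, mul_assoc]
    have h5 : 0 ≤ Real.exp (-((L : ℝ) / 4)) * L := by positivity
    nlinarith [Real.exp_pos 1]
  have b1 : 8 * M ^ 2 * ((∫ v, pc ex2 L L v) + ∫ v, pc ex2 (L - 1) (L - 1) v) ≤
      M ^ 2 * (128 * ∫ v, ex2 v) := by
    have : (∫ v, pc ex2 L L v) + ∫ v, pc ex2 (L - 1) (L - 1) v ≤ 16 * ∫ v, ex2 v := by linarith
    have := mul_le_mul_of_nonneg_left this (by positivity : 0 ≤ 8 * M ^ 2)
    linarith
  have b2 : M ^ 2 * Real.exp (1 - (L : ℝ) / 4) *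
      ∑ j ∈ Finset.range L, ∫ v, ex1 v * mp j v ^ 2 * wt v ≤ M ^ 2 * (96 * ∫ v, ex1 v) := by
    calc M ^ 2 * Real.exp (1 - (L : ℝ) / 4) *
        ∑ j ∈ Finset.range L, ∫ v, ex1 v * mp j v ^ 2 * wt v ≤
        M ^ 2 * Real.exp (1 - (L : ℝ) / 4) * (L * (8 * ∫ v, ex1 v)) :=
          mul_le_mul_of_nonneg_left a3 (by positivity)
      _ = M ^ 2 * ((Real.exp (1 - (L : ℝ) / 4) * L) * (8 * ∫ v, ex1 v)) := by ring
      _ ≤ M ^ 2 * (12 * (8 * ∫ v, ex1 v)) := by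
          apply mul_le_mul_of_nonneg_left _ (sq_nonneg M)
          exact mul_le_mul_of_nonneg_right a4 (by positivity)
      _ = M ^ 2 * (96 * ∫ v, ex1 v) := by ring
  linarith

theorem far_pt {u : ℝ → ℂ} {M : ℝ} {L : ℕ} (v x : ℝ)
    (f1 : ‖u v‖ ^ 2 * ((∑ k ∈ Finset.range L, mp k v * mp k x) ^ 2 * (wt v * wt x)) ≤
      8 * M ^ 2 * (Real.exp (-(2 * |v|)) * (mp L v ^ 2 * wt v) * (mp (L - 1) x ^ 2 * wt x) +
        Real.exp (-(2 * |v|)) * (mp (L - 1) v ^ 2 * wt v) * (mp L x ^ 2 * wt x)) +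
      M ^ 2 * Real.exp (1 - (L : ℝ) / 4) * (Real.exp (-|v|) *
        ((∑ k ∈ Finset.range L, mp k v * mp k x) ^ 2 * (wt v * wt x))))
    (f2 : ‖u x‖ ^ 2 * ((∑ k ∈ Finset.range L, mp k x * mp k v) ^ 2 * (wt x * wt v)) ≤
      8 * M ^ 2 * (Real.exp (-(2 * |x|)) * (mp L x ^ 2 * wt x) * (mp (L - 1) v ^ 2 * wt v) +
        Real.exp (-(2 * |x|)) * (mp (L - 1) x ^ 2 * wt x) * (mp L v ^ 2 * wt v)) +
      M ^ 2 * Real.exp (1 - (L : ℝ) / 4) * (Real.exp (-|x|) *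
        ((∑ k ∈ Finset.range L, mp k x * mp k v) ^ 2 * (wt x * wt v)))) :
    ‖u v - u x‖ ^ 2 * (∑ k ∈ Finset.range L, mp k v * mp k x) ^ 2 * (wt v * wt x) ≤
      2 * varRR M L v x + 2 * varRR M L x v := by
  have hwv := wt_pos v
  have hwx := wt_pos x
  have hs : ∑ k ∈ Finset.range L, mp k x * mp k v = ∑ k ∈ Finset.range L, mp k v * mp k x :=
    Finset.sum_congr rfl (fun k _ => mul_comm _ _)
  have e1 : varRR M L v x = 8 * M ^ 2 * (Real.exp (-(2 * |v|)) * (mp L v ^ 2 * wt v) *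
      (mp (L - 1) x ^ 2 * wt x) +
        Real.exp (-(2 * |v|)) * (mp (L - 1) v ^ 2 * wt v) * (mp L x ^ 2 * wt x)) +
      M ^ 2 * Real.exp (1 - (L : ℝ) / 4) * (Real.exp (-|v|) *
        ((∑ k ∈ Finset.range L, mp k v * mp k x) ^ 2 * (wt v * wt x))) := by
    unfold varRR pc ex2 ex1
    ring
  have e2 : varRR M L x v = 8 * M ^ 2 * (Real.exp (-(2 * |x|)) * (mp L x ^ 2 * wt x) *
      (mp (L - 1) v ^ 2 * wt v) +
        Real.exp (-(2 * |x|)) * (mp (L - 1) x ^ 2 * wt x) * (mp L v ^ 2 * wt v)) +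
      M ^ 2 * Real.exp (1 - (L : ℝ) / 4) * (Real.exp (-|x|) *
        ((∑ k ∈ Finset.range L, mp k x * mp k v) ^ 2 * (wt x * wt v))) := by
    unfold varRR pc ex2 ex1
    ring
  rw [← e1] at f1
  rw [← e2, hs, mul_comm (wt x)] at f2
  set Q := (∑ k ∈ Finset.range L, mp k v * mp k x) ^ 2 * (wt v * wt x) with hQ
  have hQ0 : 0 ≤ Q := by positivity
  have h1 : ‖u v - u x‖ ^ 2 ≤ 2 * ‖u v‖ ^ 2 + 2 * ‖u x‖ ^ 2 := by
    have h2 := pow_le_pow_left₀ (norm_nonneg _) (norm_sub_le (u v) (u x)) 2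
    nlinarith [sq_nonneg (‖u v‖ - ‖u x‖)]
  rw [mul_assoc, ← hQ]
  have := mul_le_mul_of_nonneg_right h1 hQ0
  linarith

theorem var_bound : ∃ C : ℝ, 0 < C ∧ ∀ (u : ℝ → ℂ) (M : ℝ), Continuous u →
    (∀ v, ‖u v‖ ≤ M * Real.exp (-|v|)) →
    (∀ v x, ‖u v - u x‖ ≤ M * |v - x| * (Real.exp (-|v|) + Real.exp (-|x|))) →
    ∀ L : ℕ, defect L u ≤ C * M ^ 2 := by
  obtain ⟨C, hC0, hC⟩ := mp_sq_bound
  have hE2 : 0 ≤ ∫ v, ex2 v := integral_nonneg (fun v => (Real.exp_pos _).le)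
  have hE1 : 0 ≤ ∫ v, ex1 v := integral_nonneg (fun v => (Real.exp_pos _).le)
  set Q1 := ∫ p : ℝ × ℝ, ex2 p.1 * (1 + (p.1 - p.2) ^ 2)⁻¹ with hQ1
  set Q2 := ∫ p : ℝ × ℝ, ex2 p.2 * (1 + (p.1 - p.2) ^ 2)⁻¹ with hQ2
  have hQ1p : 0 ≤ Q1 := integral_nonneg (fun p => mul_nonneg (Real.exp_pos _).le (by positivity))
  have hQ2p : 0 ≤ Q2 := integral_nonneg (fun p => mul_nonneg (Real.exp_pos _).le (by positivity))
  refine ⟨C ^ 2 * (Q1 + Q2) + 2 * (128 * (∫ v, ex2 v) + 96 * ∫ v, ex1 v) + 1, by positivity, ?_⟩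
  intro u M hu hdec hlip L
  have hM : 0 ≤ M := by
    have := (norm_nonneg _).trans (hdec 0)
    simpa using this
  have hub : ∀ v, ‖u v‖ ≤ M := fun v => by
    refine (hdec v).trans ?_
    have : Real.exp (-|v|) ≤ 1 := Real.exp_le_one_iff.mpr (by linarith [abs_nonneg v])
    nlinarith
  rcases Nat.eq_zero_or_pos L with h0 | hL
  · subst h0
    unfold defect
    simp only [Finset.range_zero, Finset.sum_empty, sub_zero]
    positivity
  rw [defect_eq hu hub L]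
  -- the majorant
  have iG : Integrable (fun p : ℝ × ℝ =>
      2 * M ^ 2 * C ^ 2 * (ex2 p.1 * (1 + (p.1 - p.2) ^ 2)⁻¹ +
        ex2 p.2 * (1 + (p.1 - p.2) ^ 2)⁻¹) + (2 * varRR M L p.1 p.2 + 2 * varRR M L p.2 p.1)) := by
    have i5 : Integrable (fun p : ℝ × ℝ => varRR M L p.2 p.1) := by
      have h := varRR_integrable M L
      rw [Measure.volume_eq_prod] at h ⊢
      exact h.swap
    exact ((ex_q_int'.add ex_q_int).const_mul _).add
      (((varRR_integrable M L).const_mul 2).add (i5.const_mul 2))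
  have hmono : ∫ p : ℝ × ℝ, ‖u p.1 - u p.2‖ ^ 2 *
      (∑ k ∈ Finset.range L, mp k p.1 * mp k p.2) ^ 2 * (wt p.1 * wt p.2) ≤
      ∫ p : ℝ × ℝ, (2 * M ^ 2 * C ^ 2 * (ex2 p.1 * (1 + (p.1 - p.2) ^ 2)⁻¹ +
        ex2 p.2 * (1 + (p.1 - p.2) ^ 2)⁻¹) + (2 * varRR M L p.1 p.2 + 2 * varRR M L p.2 p.1)) := by
    apply integral_mono_of_nonneg _ iG
    · refine Eventually.of_forall (fun p => ?_)
      obtain ⟨v, x⟩ := p
      simp only
      have hwv := wt_pos v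
      have hwx := wt_pos x
      have r1 := varRR_nonneg M L v x
      have r2 := varRR_nonneg M L x v
      have q0 : 0 ≤ 2 * M ^ 2 * C ^ 2 * (ex2 v * (1 + (v - x) ^ 2)⁻¹ +
        ex2 x * (1 + (v - x) ^ 2)⁻¹) := by
        unfold ex2
        positivity
      rcases lt_or_ge ((L : ℝ) / 2 - 1) |v| with h1 | h1
      · -- far
        have f1 := far_bound hdec hL v x (Or.inl h1)
        have f2 := far_bound hdec hL x v (Or.inr h1)
        have := far_pt (L := L) v x f1 f2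
        linarith
      · rcases lt_or_ge ((L : ℝ) / 2 - 1) |x| with h2 | h2
        · have f1 := far_bound hdec hL v x (Or.inr h2)
          have f2 := far_bound hdec hL x v (Or.inl h2)
          have := far_pt (L := L) v x f1 f2
          linarith
        · have := near_bound hM hdec hlip hC hL v x h1 h2
          have e1 : ex2 v * (1 + (v - x) ^ 2)⁻¹ + ex2 x * (1 + (v - x) ^ 2)⁻¹ =
            (Real.exp (-(2 * |v|)) + Real.exp (-(2 * |x|))) * (1 + (v - x) ^ 2)⁻¹ := by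
            unfold ex2; ring
          rw [e1]
          rw [mul_assoc (‖u v - u x‖ ^ 2)]
          linarith
    · refine Eventually.of_forall (fun p => ?_)
      have hwv := wt_pos p.1
      have hwx := wt_pos p.2
      simp only [Pi.zero_apply]
      positivity
  have i5 : Integrable (fun p : ℝ × ℝ => varRR M L p.2 p.1) := by
    have h := varRR_integrable M L
    rw [Measure.volume_eq_prod] at h ⊢
    exact h.swap
  have hsw : ∫ p : ℝ × ℝ, varRR M L p.2 p.1 = ∫ p : ℝ × ℝ, varRR M L p.1 p.2 := by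
    rw [Measure.volume_eq_prod]
    exact integral_prod_swap (fun p : ℝ × ℝ => varRR M L p.1 p.2)
  have hval : ∫ p : ℝ × ℝ, (2 * M ^ 2 * C ^ 2 * (ex2 p.1 * (1 + (p.1 - p.2) ^ 2)⁻¹ +
        ex2 p.2 * (1 + (p.1 - p.2) ^ 2)⁻¹) + (2 * varRR M L p.1 p.2 + 2 * varRR M L p.2 p.1)) =
      2 * M ^ 2 * C ^ 2 * (Q1 + Q2) + 4 * ∫ p : ℝ × ℝ, varRR M L p.1 p.2 := by
    have h1 : ∫ p : ℝ × ℝ, (2 * M ^ 2 * C ^ 2 * (ex2 p.1 * (1 + (p.1 - p.2) ^ 2)⁻¹ +
        ex2 p.2 * (1 + (p.1 - p.2) ^ 2)⁻¹) + (2 * varRR M L p.1 p.2 + 2 * varRR M L p.2 p.1)) =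
        (∫ p : ℝ × ℝ, 2 * M ^ 2 * C ^ 2 * (ex2 p.1 * (1 + (p.1 - p.2) ^ 2)⁻¹ +
        ex2 p.2 * (1 + (p.1 - p.2) ^ 2)⁻¹)) +
        ∫ p : ℝ × ℝ, (2 * varRR M L p.1 p.2 + 2 * varRR M L p.2 p.1) :=
      integral_add ((ex_q_int'.add ex_q_int).const_mul _)
        (((varRR_integrable M L).const_mul 2).add (i5.const_mul 2))
    have h2 : ∫ p : ℝ × ℝ, (2 * varRR M L p.1 p.2 + 2 * varRR M L p.2 p.1) =
        (∫ p : ℝ × ℝ, 2 * varRR M L p.1 p.2) + ∫ p : ℝ × ℝ, 2 * varRR M L p.2 p.1 :=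
      integral_add ((varRR_integrable M L).const_mul 2) (i5.const_mul 2)
    have h3 : ∫ p : ℝ × ℝ, (ex2 p.1 * (1 + (p.1 - p.2) ^ 2)⁻¹ +
        ex2 p.2 * (1 + (p.1 - p.2) ^ 2)⁻¹) = Q1 + Q2 := integral_add ex_q_int' ex_q_int
    rw [h1, h2, integral_const_mul, integral_const_mul, integral_const_mul, h3, hsw]
    ring
  rw [hval] at hmono
  have hR := varRR_integral M hL
  have hM2 : 0 ≤ M ^ 2 := sq_nonneg M
  linarith

end OneArm
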