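import Pool.Agent.Helper82.OneArm.Diag
import Pool.Agent.Helper82.OneArm.Var
import Pool.Agent.Helper82.OneArm.Trace
import Pool.Agent.Helper82.OneArm.GFun
import Pool.Agent.Helper82.OneArm.Shift

/-! Module Final: two-sided `L^(-5/48)`. -/

open Real MeasureTheory Filter Topology

namespace OneArm

theorem me_hasDerivAt (j k : ℕ) {θ : ℝ} (hθ : θ ∈ Set.Icc (π / 3) (π / 2)) :
    HasDerivAt (fun s => me (gf s) j k) (me (fun v => gf θ v * hf θ v) j k) θ := by
  obtain ⟨M, hM⟩ := gh_bound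
  have hpi := Real.pi_pos
  have hs : Set.Ioo (π / 4) (7 * π / 12) ∈ 𝓝 θ :=
    Ioo_mem_nhds (by linarith [hθ.1]) (by linarith [hθ.2])
  have hsub : ∀ x ∈ Set.Ioo (π / 4) (7 * π / 12), x ∈ Set.Icc (π / 4) (7 * π / 12) :=
    fun x hx => ⟨hx.1.le, hx.2.le⟩
  unfold me
  have hmeas : ∀ u : ℝ → ℂ, Continuous u →
      AEStronglyMeasurable (fun v => u v * mp j v * mp k v * wt v) volume := fun u hu =>
    (((hu.mul (Complex.continuous_ofReal.comp (mp_cont j))).mul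
      (Complex.continuous_ofReal.comp (mp_cont k))).mul
      (Complex.continuous_ofReal.comp wt_cont)).aestronglyMeasurable
  refine (hasDerivAt_integral_of_dominated_loc_of_deriv_le (𝕜 := ℝ) (μ := volume)
    (F := fun s v => gf s v * mp j v * mp k v * wt v)
    (F' := fun s v => gf s v * hf s v * mp j v * mp k v * wt v)
    (bound := fun v => M * 2 ^ (j + k) * ((1 + |v|) ^ (j + k) * wt v))
    hs ?_ ?_ ?_ ?_ ?_ ?_).2
  · filter_upwards [hs] with x hx
    exact hmeas _ (gf_cont' (mem_Ioo_of_big (hsub x hx))).1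
  · exact integrable_me (gf_cont hθ).aestronglyMeasurable
      (fun v => (hM θ (mem_big hθ) v).1) j k
  · exact hmeas _ ((gf_cont hθ).mul (hf_cont hθ))
  · refine Eventually.of_forall (fun v x hx => ?_)
    exact me_bound (hM x (hsub x hx) v).2 j k v
  · exact (integrable_pow_wt (j + k)).const_mul _
  · refine Eventually.of_forall (fun v x hx => ?_)
    exact (((gf_deriv (mem_Ioo_of_big (hsub x hx)) v).mul_const _).mul_const _).mul_const _

theorem log_norm_hasDerivAt {f : ℝ → ℂ} {f' : ℂ} {x : ℝ} (hf : HasDerivAt f f' x)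
    (h0 : f x ≠ 0) : HasDerivAt (fun s => Real.log ‖f s‖) ((f' / f x).re) x := by
  have h1 := hf.norm_sq
  have hpos : 0 < ‖f x‖ := norm_pos_iff.mpr h0
  have h2 := (h1.log (by positivity)).const_mul (1 / 2 : ℝ)
  have e : (fun s => Real.log ‖f s‖) = fun s => (1 / 2 : ℝ) * Real.log ((‖f ·‖ ^ 2) s) := by
    ext s
    simp only [Real.log_pow]
    push_cast
    ring
  rw [e]
  refine h2.congr_deriv ?_
  rw [Complex.inner, Complex.div_re, ← Complex.normSq_eq_norm_sq]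
  have hn : Complex.normSq (f x) ≠ 0 := (Complex.normSq_pos.mpr h0).ne'
  simp only [Complex.mul_re, Complex.conj_re, Complex.conj_im]
  field_simp
  ring

theorem cmat_trace (L : ℕ) (u : ℝ → ℂ) : (cmat L u).trace = ∑ k ∈ Finset.range L, me u k k := by
  rw [Matrix.trace, Finset.sum_range]
  rfl

theorem log_ratio : ∃ C : ℝ, ∀ L : ℕ, 1 ≤ L →
    |Real.log ‖(cmat L (gf (π / 2))).det‖ - Real.log ‖(cmat L (gf (π / 3))).det‖ +
      5 / 48 * Real.log L| ≤ C := by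
  obtain ⟨M, hM⟩ := gh_bound
  obtain ⟨Mg, hMg0, hMg⟩ := gf_decay
  obtain ⟨Mh, hMh0, hMh⟩ := hf_decay
  obtain ⟨Cd, hCd0, hCd⟩ := diag_asym
  obtain ⟨Cv, hCv0, hCv⟩ := var_bound
  have hpi := Real.pi_pos
  set K : ℝ := 4 * (Real.sqrt (Cv * Mg ^ 2) * Real.sqrt (Cv * Mh ^ 2)) + Cd * Mh with hK
  refine ⟨K * (π / 2 - π / 3), fun L hL => ?_⟩
  -- the auxiliary function
  set F : ℝ → ℂ := fun θ => (cmat L (gf θ)).det with hF
  set φ : ℝ → ℝ := fun θ => Real.log ‖F θ‖ + 3 * Real.log L / (4 * π ^ 2) * θ ^ 2 with hφ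
  have hne : ∀ θ ∈ Set.Icc (π / 3) (π / 2), (cmat L (gf θ)).det ≠ 0 := fun θ hθ =>
    cmat_det_ne_zero L (gf_cont hθ) (gf_bound hθ) (by norm_num : (0:ℝ) < 1 / 4) (gf_re hθ)
  have hder : ∀ θ ∈ Set.Icc (π / 3) (π / 2), HasDerivAt φ
      ((((cmat L (gf θ))⁻¹ * cmat L (fun v => gf θ v * hf θ v)).trace).re +
        3 * Real.log L / (4 * π ^ 2) * (2 * θ)) θ := by
    intro θ hθ
    have h1 : HasDerivAt F ((cmat L (gf θ)).det *
        ((cmat L (gf θ))⁻¹ * cmat L (fun v => gf θ v * hf θ v)).trace) θ :=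
      det_hasDerivAt (A := fun s => cmat L (gf s)) (fun i j => me_hasDerivAt i j hθ) (hne θ hθ)
    have h2 := log_norm_hasDerivAt h1 (hne θ hθ)
    have h3 : HasDerivAt (fun s : ℝ => s ^ 2) (2 * θ) θ := by
      simpa using hasDerivAt_pow 2 θ
    have h4 := h2.add (h3.const_mul (3 * Real.log L / (4 * π ^ 2)))
    refine h4.congr_deriv ?_
    congr 2
    exact mul_div_cancel_left₀ _ (hne θ hθ)
  have hbd : ∀ θ ∈ Set.Icc (π / 3) (π / 2),
      ‖(((cmat L (gf θ))⁻¹ * cmat L (fun v => gf θ v * hf θ v)).trace).re +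
        3 * Real.log L / (4 * π ^ 2) * (2 * θ)‖ ≤ K := by
    intro θ hθ
    set T := ((cmat L (gf θ))⁻¹ * cmat L (fun v => gf θ v * hf θ v)).trace with hT
    have hb1 : ∀ v, ‖gf θ v‖ ≤ max 2 Mh := fun v => (gf_bound hθ v).trans (le_max_left _ _)
    have hb2 : ∀ v, ‖hf θ v‖ ≤ max 2 Mh := by
      intro v
      refine ((hMh θ hθ).1 v).trans (le_trans ?_ (le_max_right _ _))
      have : Real.exp (-|v|) ≤ 1 := Real.exp_le_one_iff.mpr (by linarith [abs_nonneg v])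
      nlinarith
    have h1 := trace_bound L (gf_cont hθ) (hf_cont hθ) hb1 hb2 (by norm_num : (0:ℝ) < 1 / 4)
      (gf_re hθ)
    have hv1 : defect' L (fun v => gf θ v - 1) ≤ Cv * Mg ^ 2 := by
      refine hCv (fun v => gf θ v - 1) Mg ((gf_cont hθ).sub continuous_const) (hMg θ hθ).1 ?_ L
      intro v x
      have := (hMg θ hθ).2 v x
      rwa [sub_sub_sub_cancel_right]
    have hv2 : defect' L (hf θ) ≤ Cv * Mh ^ 2 :=
      hCv _ Mh (hf_cont hθ) (hMh θ hθ).1 (hMh θ hθ).2 L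
    have h2 : ‖T - (cmat L (hf θ)).trace‖ ≤
        4 * (Real.sqrt (Cv * Mg ^ 2) * Real.sqrt (Cv * Mh ^ 2)) := by
      refine h1.trans ?_
      have : (1 / (1 / 4 : ℝ)) = 4 := by norm_num
      rw [this]
      apply mul_le_mul_of_nonneg_left _ (by norm_num)
      exact mul_le_mul (Real.sqrt_le_sqrt hv1) (Real.sqrt_le_sqrt hv2) (Real.sqrt_nonneg _)
        (Real.sqrt_nonneg _)
    have h3 := hCd (hf θ) Mh (hf_cont hθ) (hMh θ hθ).1 L hL
    rw [← cmat_trace, hf_integral hθ] at h3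
    have h4 : T.re + 3 * Real.log L / (4 * π ^ 2) * (2 * θ) =
        ((T - (cmat L (hf θ)).trace) + ((cmat L (hf θ)).trace -
          ((Real.log L / π : ℝ) : ℂ) * ((-(3 * θ / (2 * π)) : ℝ) : ℂ))).re := by
      have e1 : ((Real.log L / π : ℝ) : ℂ) * ((-(3 * θ / (2 * π)) : ℝ) : ℂ) =
        ((Real.log L / π * (-(3 * θ / (2 * π))) : ℝ) : ℂ) := by push_cast; ring
      rw [e1, Complex.add_re, Complex.sub_re, Complex.sub_re, Complex.ofReal_re]
      field_simp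
      ring
    rw [h4, Real.norm_eq_abs]
    refine (Complex.abs_re_le_norm _).trans ?_
    refine (norm_add_le _ _).trans ?_
    rw [hK]
    exact add_le_add h2 h3
  have hmv := Convex.norm_image_sub_le_of_norm_hasDerivWithin_le (f := φ)
    (fun θ hθ => (hder θ hθ).hasDerivWithinAt) hbd (convex_Icc (π / 3) (π / 2))
    (Set.left_mem_Icc.mpr (by linarith)) (Set.right_mem_Icc.mpr (by linarith))
  rw [Real.norm_eq_abs, Real.norm_eq_abs, abs_of_pos (by linarith : 0 < π / 2 - π / 3)] at hmv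
  have e : φ (π / 2) - φ (π / 3) = Real.log ‖(cmat L (gf (π / 2))).det‖ -
      Real.log ‖(cmat L (gf (π / 3))).det‖ + 5 / 48 * Real.log L := by
    simp only [hφ, hF]
    field_simp
    ring
  rw [← e]
  exact hmv

/-- MAIN (interface with helper18): asymptotics of the ratio of Hankel determinants. -/
theorem one_arm_asymptotics : ∃ c C : ℝ, 0 < c ∧ 0 < C ∧ ∀ L : ℕ, 1 ≤ L →
    c * (L : ℝ) ^ (-(5 / 48) : ℝ) ≤ ‖hk L (π / 2)‖ / ‖hk L (π / 3)‖ ∧
    ‖hk L (π / 2)‖ / ‖hk L (π / 3)‖ ≤ C * (L : ℝ) ^ (-(5 / 48) : ℝ) := by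
  obtain ⟨C, hC⟩ := log_ratio
  have hpi := Real.pi_pos
  refine ⟨Real.exp (-C), Real.exp C, Real.exp_pos _, Real.exp_pos _, fun L hL => ?_⟩
  obtain ⟨κ, hκ, hk⟩ := hk_eq L
  have m2 : π / 2 ∈ Set.Icc (π / 3) (π / 2) := Set.right_mem_Icc.mpr (by linarith)
  have m3 : π / 3 ∈ Set.Icc (π / 3) (π / 2) := Set.left_mem_Icc.mpr (by linarith)
  have n2 := cmat_det_ne_zero L (gf_cont m2) (gf_bound m2) (by norm_num : (0:ℝ) < 1 / 4) (gf_re m2)
  have n3 := cmat_det_ne_zero L (gf_cont m3) (gf_bound m3) (by norm_num : (0:ℝ) < 1 / 4) (gf_re m3)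
  rw [hk _ m2, hk _ m3, norm_mul, norm_mul,
    mul_div_mul_left _ _ (norm_pos_iff.mpr hκ).ne']
  have p2 : 0 < ‖(cmat L (gf (π / 2))).det‖ := norm_pos_iff.mpr n2
  have p3 : 0 < ‖(cmat L (gf (π / 3))).det‖ := norm_pos_iff.mpr n3
  have hL0 : (0 : ℝ) < L := by exact_mod_cast hL
  have h := abs_le.mp (hC L hL)
  have e : ‖(cmat L (gf (π / 2))).det‖ / ‖(cmat L (gf (π / 3))).det‖ =
      Real.exp (Real.log ‖(cmat L (gf (π / 2))).det‖ - Real.log ‖(cmat L (gf (π / 3))).det‖) := by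
    rw [Real.exp_sub, Real.exp_log p2, Real.exp_log p3]
  rw [e, Real.rpow_def_of_pos hL0, ← Real.exp_add, ← Real.exp_add]
  constructor
  · apply Real.exp_le_exp.mpr
    linarith [h.1]
  · apply Real.exp_le_exp.mpr
    linarith [h.2]

end OneArm
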