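import Pool.Agent.Helper82.OneArm.Kernel
import Pool.Agent.Helper82.OneArm.Trace

/-! Module Confluent: confluent limit of the kernel determinants. -/

open Real MeasureTheory Filter Topology

namespace OneArm

theorem exp_rem (n : ℕ) (y : ℝ) :
    ‖Complex.exp (Complex.I * y) - ∑ m ∈ Finset.range n, (Complex.I * y) ^ m / (m.factorial : ℂ)‖ ≤
      ((n : ℝ) + 2) * |y| ^ n := by
  have hn1 : ‖Complex.I * (y : ℂ)‖ = |y| := by simp
  rcases Nat.eq_zero_or_pos n with rfl | hn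
  · simp only [Finset.range_zero, Finset.sum_empty, sub_zero, pow_zero, mul_one, Nat.cast_zero,
      zero_add]
    have : ‖Complex.exp (Complex.I * y)‖ = 1 := by
      rw [mul_comm, Complex.norm_exp_ofReal_mul_I]
    rw [this]; norm_num
  · rcases le_or_gt |y| 1 with h | h
    · have h1 := Complex.exp_bound (x := Complex.I * y) (by rw [hn1]; exact h) hn
      rw [hn1] at h1
      refine h1.trans ?_
      rw [mul_comm]
      refine mul_le_mul_of_nonneg_right ?_ (by positivity)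
      have h2 : ((n.factorial : ℝ) * n)⁻¹ ≤ 1 := by
        apply inv_le_one_of_one_le₀
        have h3 : (1 : ℝ) ≤ n.factorial := by exact_mod_cast Nat.factorial_pos n
        have h4 : (1 : ℝ) ≤ n := by exact_mod_cast hn
        nlinarith
      have h5 : (0 : ℝ) ≤ n.succ := by positivity
      calc (n.succ : ℝ) * ((n.factorial : ℝ) * n)⁻¹ ≤ n.succ * 1 :=
            mul_le_mul_of_nonneg_left h2 h5
        _ ≤ (n : ℝ) + 2 := by push_cast; linarith
    · refine (norm_sub_le _ _).trans ?_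
      have h1 : ‖Complex.exp (Complex.I * y)‖ = 1 := by
        rw [mul_comm, Complex.norm_exp_ofReal_mul_I]
      have h2 : ‖∑ m ∈ Finset.range n, (Complex.I * y) ^ m / (m.factorial : ℂ)‖ ≤ n * |y| ^ n := by
        refine (norm_sum_le _ _).trans ?_
        have h3 : ∀ m ∈ Finset.range n, ‖(Complex.I * (y : ℂ)) ^ m / (m.factorial : ℂ)‖ ≤ |y| ^ n := by
          intro m hm
          rw [norm_div, norm_pow, hn1, Complex.norm_natCast]
          have h4 : (1 : ℝ) ≤ m.factorial := by exact_mod_cast Nat.factorial_pos m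
          calc |y| ^ m / (m.factorial : ℝ) ≤ |y| ^ m := div_le_self (by positivity) h4
            _ ≤ |y| ^ n := pow_le_pow_right₀ h.le (Finset.mem_range.mp hm).le
        refine (Finset.sum_le_sum h3).trans ?_
        simp
      have h5 : (1 : ℝ) ≤ |y| ^ n := one_le_pow₀ h.le
      rw [h1]
      nlinarith

section
variable {L : ℕ} (x : Fin L → ℝ)

/-- the inverse Vandermonde matrix -/
noncomputable def Wm : Matrix (Fin L) (Fin L) ℂ := (Matrix.vandermonde fun i => (x i : ℂ))⁻¹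

/-- normalised combinations of exponentials tending to `(i v)^r / r!` -/
noncomputable def phi (ε : ℝ) (r : Fin L) (v : ℝ) : ℂ :=
  ((ε : ℂ) ^ (r : ℕ))⁻¹ * ∑ i, Wm x r i * Complex.exp (Complex.I * ((ε * x i * v : ℝ) : ℂ))

theorem vdm_det_ne (hx : Function.Injective x) :
    (Matrix.vandermonde fun i => (x i : ℂ)).det ≠ 0 := by
  rw [Matrix.det_vandermonde_ne_zero_iff]
  exact fun i j h => hx (Complex.ofReal_injective h)

theorem WV (hx : Function.Injective x) (r m : Fin L) :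
    ∑ i, Wm x r i * (x i : ℂ) ^ (m : ℕ) = if r = m then 1 else 0 := by
  have h := Matrix.nonsing_inv_mul (Matrix.vandermonde fun i => (x i : ℂ))
    (isUnit_iff_ne_zero.mpr (vdm_det_ne x hx))
  have h2 := congrFun (congrFun h r) m
  rw [Matrix.mul_apply, Matrix.one_apply] at h2
  simpa [Wm, Matrix.vandermonde_apply] using h2

theorem VW (hx : Function.Injective x) (i j : Fin L) :
    ∑ r : Fin L, (x i : ℂ) ^ (r : ℕ) * Wm x r j = if i = j then 1 else 0 := by
  have h := Matrix.mul_nonsing_inv (Matrix.vandermonde fun i => (x i : ℂ))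
    (isUnit_iff_ne_zero.mpr (vdm_det_ne x hx))
  have h2 := congrFun (congrFun h i) j
  rw [Matrix.mul_apply, Matrix.one_apply] at h2
  simpa [Wm, Matrix.vandermonde_apply] using h2

theorem exp_eq_phi (hx : Function.Injective x) {ε : ℝ} (hε : ε ≠ 0) (i : Fin L) (v : ℝ) :
    Complex.exp (Complex.I * ((ε * x i * v : ℝ) : ℂ)) =
      ∑ r : Fin L, (x i : ℂ) ^ (r : ℕ) * ((ε : ℂ) ^ (r : ℕ) * phi x ε r v) := by
  have h1 : ∀ r : Fin L, (x i : ℂ) ^ (r : ℕ) * ((ε : ℂ) ^ (r : ℕ) * phi x ε r v) =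
      ∑ j, ((x i : ℂ) ^ (r : ℕ) * Wm x r j) * Complex.exp (Complex.I * ((ε * x j * v : ℝ) : ℂ)) := by
    intro r
    unfold phi
    rw [← mul_assoc ((ε : ℂ) ^ (r : ℕ)), mul_inv_cancel₀ (pow_ne_zero _ (by exact_mod_cast hε)),
      one_mul, Finset.mul_sum]
    exact Finset.sum_congr rfl fun j _ => by ring
  simp only [h1]
  rw [Finset.sum_comm]
  simp only [← Finset.sum_mul]
  simp only [VW x hx]
  rw [Finset.sum_eq_single i]
  · simp
  · intro j _ hj; rw [if_neg (Ne.symm hj)]; ring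
  · intro h; exact absurd (Finset.mem_univ i) h

/-- the constant in the remainder estimate -/
noncomputable def Bc : ℝ := ((L : ℝ) + 2) * ∑ r, ∑ i, ‖Wm x r i‖ * |x i| ^ L

theorem Bc_nonneg : 0 ≤ Bc x := by
  unfold Bc
  exact mul_nonneg (by positivity)
    (Finset.sum_nonneg fun r _ => Finset.sum_nonneg fun i _ => by positivity)

theorem phi_sub (hx : Function.Injective x) {ε : ℝ} (hε : ε ≠ 0) (hε1 : |ε| ≤ 1) (r : Fin L) (v : ℝ) :
    ‖phi x ε r v - (Complex.I * v) ^ (r : ℕ) / ((r : ℕ).factorial : ℂ)‖ ≤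
      |ε| * (Bc x * (1 + |v|) ^ L) := by
  have h1 : ((ε : ℂ) ^ (r : ℕ))⁻¹ * ∑ i, Wm x r i *
      ∑ m ∈ Finset.range L, (Complex.I * ((ε * x i * v : ℝ) : ℂ)) ^ m / (m.factorial : ℂ) =
      (Complex.I * v) ^ (r : ℕ) / ((r : ℕ).factorial : ℂ) := by
    have h2 : ∑ i, Wm x r i *
      ∑ m ∈ Finset.range L, (Complex.I * ((ε * x i * v : ℝ) : ℂ)) ^ m / (m.factorial : ℂ) =
      ∑ m : Fin L, (∑ i, Wm x r i * (x i : ℂ) ^ (m : ℕ)) *
        ((Complex.I * v) ^ (m : ℕ) * (ε : ℂ) ^ (m : ℕ) / ((m : ℕ).factorial : ℂ)) := by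
      simp only [Finset.sum_range, Finset.mul_sum, Finset.sum_mul]
      rw [Finset.sum_comm]
      refine Finset.sum_congr rfl fun m _ => Finset.sum_congr rfl fun i _ => ?_
      push_cast
      ring
    rw [h2]
    simp only [WV x hx]
    rw [Finset.sum_eq_single r]
    · have h3 : (ε : ℂ) ^ (r : ℕ) ≠ 0 := pow_ne_zero _ (by exact_mod_cast hε)
      rw [if_pos rfl]
      field_simp
    · intro m _ hm; rw [if_neg (Ne.symm hm)]; ring
    · intro h; exact absurd (Finset.mem_univ r) h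
  rw [← h1, phi, ← mul_sub, ← Finset.sum_sub_distrib]
  simp only [← mul_sub]
  rw [norm_mul, norm_inv, norm_pow, Complex.norm_real, Real.norm_eq_abs]
  have hε0 : 0 < |ε| := abs_pos.mpr hε
  have h4 : ‖∑ i, Wm x r i * (Complex.exp (Complex.I * ((ε * x i * v : ℝ) : ℂ)) -
      ∑ m ∈ Finset.range L, (Complex.I * ((ε * x i * v : ℝ) : ℂ)) ^ m / (m.factorial : ℂ))‖ ≤
      (|ε| ^ L * |v| ^ L) * Bc x := by
    refine (norm_sum_le _ _).trans ?_
    have h5 : ∀ i : Fin L, ‖Wm x r i * (Complex.exp (Complex.I * ((ε * x i * v : ℝ) : ℂ)) -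
      ∑ m ∈ Finset.range L, (Complex.I * ((ε * x i * v : ℝ) : ℂ)) ^ m / (m.factorial : ℂ))‖ ≤
      (|ε| ^ L * |v| ^ L) * (((L : ℝ) + 2) * (‖Wm x r i‖ * |x i| ^ L)) := by
      intro i
      rw [norm_mul]
      refine (mul_le_mul_of_nonneg_left (exp_rem L (ε * x i * v)) (norm_nonneg _)).trans ?_
      rw [abs_mul, abs_mul, mul_pow, mul_pow]
      apply le_of_eq; ring
    refine (Finset.sum_le_sum fun i _ => h5 i).trans ?_
    rw [← Finset.mul_sum, ← Finset.mul_sum]
    refine mul_le_mul_of_nonneg_left ?_ (by positivity)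
    unfold Bc
    refine mul_le_mul_of_nonneg_left ?_ (by positivity)
    exact Finset.single_le_sum (f := fun r => ∑ i, ‖Wm x r i‖ * |x i| ^ L)
      (fun r _ => Finset.sum_nonneg fun i _ => by positivity) (Finset.mem_univ r)
  refine (mul_le_mul_of_nonneg_left h4 (by positivity)).trans ?_
  have h6' : ∀ a b : ℕ, a < b → (|ε| ^ a)⁻¹ * |ε| ^ b ≤ |ε| := by
    intro a b hab
    obtain ⟨m, rfl⟩ : ∃ m, b = a + m + 1 := ⟨b - a - 1, by omega⟩
    have h8 : (|ε| ^ a)⁻¹ * |ε| ^ (a + m + 1) = |ε| ^ m * |ε| := by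
      rw [pow_add, pow_add, pow_one]
      have : |ε| ^ a ≠ 0 := (pow_pos hε0 _).ne'
      field_simp
    rw [h8]
    exact mul_le_of_le_one_left hε0.le (pow_le_one₀ hε0.le hε1)
  have h6 : (|ε| ^ (r : ℕ))⁻¹ * |ε| ^ L ≤ |ε| := h6' r L r.2
  have h9 : |v| ^ L ≤ (1 + |v|) ^ L := pow_le_pow_left₀ (abs_nonneg v) (by linarith) L
  calc (|ε| ^ (r : ℕ))⁻¹ * (|ε| ^ L * |v| ^ L * Bc x) =
        ((|ε| ^ (r : ℕ))⁻¹ * |ε| ^ L) * (|v| ^ L * Bc x) := by ring
    _ ≤ |ε| * ((1 + |v|) ^ L * Bc x) := by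
        refine mul_le_mul h6 (mul_le_mul_of_nonneg_right h9 (Bc_nonneg x)) ?_ hε0.le
        exact mul_nonneg (by positivity) (Bc_nonneg x)
    _ = _ := by ring

theorem monomial_bound (r : Fin L) (v : ℝ) :
    ‖(Complex.I * (v : ℂ)) ^ (r : ℕ) / ((r : ℕ).factorial : ℂ)‖ ≤ (1 + |v|) ^ L := by
  rw [norm_div, norm_pow, norm_mul, Complex.norm_I, one_mul, Complex.norm_real, Real.norm_eq_abs,
    Complex.norm_natCast]
  have h4 : (1 : ℝ) ≤ (r : ℕ).factorial := by exact_mod_cast Nat.factorial_pos (r : ℕ)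
  calc |v| ^ (r : ℕ) / ((r : ℕ).factorial : ℝ) ≤ |v| ^ (r : ℕ) := div_le_self (by positivity) h4
    _ ≤ (1 + |v|) ^ (r : ℕ) := pow_le_pow_left₀ (abs_nonneg v) (by linarith) _
    _ ≤ (1 + |v|) ^ L := pow_le_pow_right₀ (by linarith [abs_nonneg v]) r.2.le

theorem phi_bound (hx : Function.Injective x) {ε : ℝ} (hε : ε ≠ 0) (hε1 : |ε| ≤ 1) (r : Fin L) (v : ℝ) :
    ‖phi x ε r v‖ ≤ (1 + Bc x) * (1 + |v|) ^ L := by
  have h1 := phi_sub x hx hε hε1 r v
  have h2 := monomial_bound r v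
  have h3 : ‖phi x ε r v‖ ≤ ‖phi x ε r v - (Complex.I * v) ^ (r : ℕ) / ((r : ℕ).factorial : ℂ)‖ +
      ‖(Complex.I * (v : ℂ)) ^ (r : ℕ) / ((r : ℕ).factorial : ℂ)‖ := by
    have := norm_add_le (phi x ε r v - (Complex.I * v) ^ (r : ℕ) / ((r : ℕ).factorial : ℂ))
      ((Complex.I * (v : ℂ)) ^ (r : ℕ) / ((r : ℕ).factorial : ℂ))
    rwa [sub_add_cancel] at this
  have h4 : |ε| * (Bc x * (1 + |v|) ^ L) ≤ Bc x * (1 + |v|) ^ L :=
    mul_le_of_le_one_left (mul_nonneg (Bc_nonneg x) (by positivity)) hε1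
  calc ‖phi x ε r v‖ ≤ _ := h3
    _ ≤ Bc x * (1 + |v|) ^ L + (1 + |v|) ^ L := add_le_add (h1.trans h4) h2
    _ = _ := by ring

theorem phi_cont (ε : ℝ) (r : Fin L) : Continuous (phi x ε r) := by
  unfold phi
  refine continuous_const.mul (continuous_finsetSum _ fun i _ => continuous_const.mul ?_)
  exact Complex.continuous_exp.comp (continuous_const.mul
    (Complex.continuous_ofReal.comp (continuous_const.mul continuous_id)))

theorem phi_tendsto (hx : Function.Injective x) (r : Fin L) (v : ℝ) :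
    Tendsto (fun ε => phi x ε r v) (𝓝[≠] 0) (𝓝 ((Complex.I * v) ^ (r : ℕ) / ((r : ℕ).factorial : ℂ))) := by
  rw [tendsto_iff_norm_sub_tendsto_zero]
  have h0 : Tendsto (fun ε : ℝ => |ε| * (Bc x * (1 + |v|) ^ L)) (𝓝[≠] 0) (𝓝 0) := by
    have h1 : Tendsto (fun ε : ℝ => |ε| * (Bc x * (1 + |v|) ^ L)) (𝓝 0) (𝓝 (|(0:ℝ)| * (Bc x * (1 + |v|) ^ L))) :=
      (continuous_abs.mul continuous_const).tendsto 0
    rw [abs_zero, zero_mul] at h1
    exact h1.mono_left nhdsWithin_le_nhds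
  have hev : ∀ᶠ ε : ℝ in 𝓝[≠] 0, ε ≠ 0 ∧ |ε| ≤ 1 := by
    have h1 : ∀ᶠ ε : ℝ in 𝓝[≠] 0, ε ≠ 0 := eventually_mem_nhdsWithin
    have h2 : ∀ᶠ ε : ℝ in 𝓝[≠] 0, |ε| ≤ 1 := by
      have : ∀ᶠ ε : ℝ in 𝓝 0, |ε| ≤ 1 := by
        have h3 : Tendsto (fun ε : ℝ => |ε|) (𝓝 0) (𝓝 |(0:ℝ)|) := continuous_abs.tendsto 0
        rw [abs_zero] at h3
        exact h3.eventually (eventually_le_nhds (by norm_num))
      exact nhdsWithin_le_nhds this
    exact h1.and h2
  refine squeeze_zero' (Eventually.of_forall fun ε => norm_nonneg _) ?_ h0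
  filter_upwards [hev] with ε hε
  exact phi_sub x hx hε.1 hε.2 r v

end

theorem ev_small : ∀ᶠ ε : ℝ in 𝓝[≠] 0, ε ≠ 0 ∧ |ε| ≤ 1 := by
  have h1 : ∀ᶠ ε : ℝ in 𝓝[≠] 0, ε ≠ 0 := eventually_mem_nhdsWithin
  have h2 : ∀ᶠ ε : ℝ in 𝓝[≠] 0, |ε| ≤ 1 := by
    have : ∀ᶠ ε : ℝ in 𝓝 0, |ε| ≤ 1 := by
      have h3 : Tendsto (fun ε : ℝ => |ε|) (𝓝 0) (𝓝 |(0:ℝ)|) := continuous_abs.tendsto 0
      rw [abs_zero] at h3
      exact h3.eventually (eventually_le_nhds (by norm_num))
    exact nhdsWithin_le_nhds this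
  exact h1.and h2

theorem dom_integrable (L : ℕ) (B M : ℝ) :
    Integrable (fun v : ℝ => B * (1 + |v|) ^ L * (B * (1 + |v|) ^ L) * M * wt v) := by
  have h := (integrable_pow_wt (L + L)).const_mul (B * B * M)
  refine h.congr (Eventually.of_forall fun v => ?_)
  simp only [pow_add]; ring

/-- the polynomial `mp n` in the monomial basis -/
theorem mp_poly (n : ℕ) : ∃ c : ℕ → ℝ, (∀ k, n < k → c k = 0) ∧ c n ≠ 0 ∧
    ∀ N, n < N → ∀ v, mp n v = ∑ k ∈ Finset.range N, c k * v ^ k := by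
  have key : ∀ n : ℕ, ∃ p : Polynomial ℝ, p.natDegree = n ∧ p ≠ 0 ∧ ∀ v, mp n v = p.eval v := by
    intro n
    have step : ∀ n : ℕ, (∃ p : Polynomial ℝ, p.natDegree = n ∧ p ≠ 0 ∧ ∀ v, mp n v = p.eval v) ∧
        (∃ p : Polynomial ℝ, p.natDegree = n + 1 ∧ p ≠ 0 ∧ ∀ v, mp (n + 1) v = p.eval v) := by
      intro n
      induction n with
      | zero =>
        refine ⟨⟨1, by simp, one_ne_zero, fun v => by simp [mp]⟩, ⟨Polynomial.C 2 * Polynomial.X, ?_, ?_, ?_⟩⟩
        · rw [Polynomial.natDegree_C_mul_X _ (by norm_num)]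
        · intro h
          have := congrArg (Polynomial.eval 1) h
          simp at this
        · intro v; simp [mp]
      | succ n ih =>
        obtain ⟨⟨p, hp, hp0, hpe⟩, ⟨q, hq, hq0, hqe⟩⟩ := ih
        refine ⟨⟨q, hq, hq0, hqe⟩, ?_⟩
        have hdeg : (Polynomial.C (2 / ((n : ℝ) + 2)) * Polynomial.X * q).natDegree = n + 2 := by
          have h2 : (2 / ((n : ℝ) + 2)) ≠ 0 := by positivity
          rw [mul_assoc, Polynomial.natDegree_C_mul h2, Polynomial.natDegree_X_mul hq0, hq]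
        have hdeg2 : (Polynomial.C (((n : ℝ) + 1) / (n + 2)) * p).natDegree ≤ n := by
          refine (Polynomial.natDegree_C_mul_le _ _).trans hp.le
        have hdeg3 : (Polynomial.C (2 / ((n : ℝ) + 2)) * Polynomial.X * q -
            Polynomial.C (((n : ℝ) + 1) / (n + 2)) * p).natDegree = n + 2 := by
          rw [Polynomial.natDegree_sub_eq_left_of_natDegree_lt (by rw [hdeg]; omega), hdeg]
        refine ⟨_, hdeg3, ?_, ?_⟩
        · intro h
          rw [h] at hdeg3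
          simp at hdeg3
        · intro v
          have h1 := mp_rec n v
          have h3 : ((n : ℝ) + 2) ≠ 0 := by positivity
          have h2 : mp (n + 2) v = (2 * v * mp (n + 1) v - ((n : ℝ) + 1) * mp n v) / (n + 2) := by
            rw [eq_div_iff h3, ← h1]; ring
          change mp (n + 2) v = _
          rw [h2, hqe, hpe]
          simp only [Polynomial.eval_sub, Polynomial.eval_mul, Polynomial.eval_C, Polynomial.eval_X]
          field_simp
    exact (step n).1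
  obtain ⟨p, hp, hp0, hpe⟩ := key n
  refine ⟨fun k => p.coeff k, ?_, ?_, ?_⟩
  · intro k hk
    exact Polynomial.coeff_eq_zero_of_natDegree_lt (by rw [hp]; exact hk)
  · have : p.leadingCoeff ≠ 0 := Polynomial.leadingCoeff_ne_zero.mpr hp0
    rw [Polynomial.leadingCoeff, hp] at this
    exact this
  · intro N hN v
    rw [hpe, Polynomial.eval_eq_sum_range' (by rw [hp]; exact hN)]

/-- `det (cmat L g) = κ · det (moments)`, `κ ≠ 0` independent of `g`. -/
theorem cmat_hankel (L : ℕ) : ∃ κ : ℂ, κ ≠ 0 ∧ ∀ (g : ℝ → ℂ) (M : ℝ), Continuous g →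
    (∀ v, ‖g v‖ ≤ M) →
    (∀ n : ℕ, Integrable (fun v : ℝ => (v : ℂ) ^ n * g v * wt v)) ∧
    (cmat L g).det = κ * (Matrix.of fun r s : Fin L =>
      ∫ v : ℝ, (v : ℂ) ^ ((r : ℕ) + (s : ℕ)) * g v * wt v).det := by
  choose c hc0 hcn hc using mp_poly
  set C : Matrix (Fin L) (Fin L) ℂ := Matrix.of fun j k => (c j k : ℂ) with hC
  have hdet : C.det ≠ 0 := by
    have h1 : C.det = ∏ i, C i i := by
      apply Matrix.det_of_isLowerTriangular
      intro i j hij
      have h2 : (i : ℕ) < j := hij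
      simp only [hC, Matrix.of_apply, hc0 i j h2, Complex.ofReal_zero]
    rw [h1]
    refine Finset.prod_ne_zero_iff.mpr fun i _ => ?_
    simp only [hC, Matrix.of_apply]
    exact_mod_cast hcn i
  refine ⟨C.det * C.det, mul_ne_zero hdet hdet, fun g M hg hb => ?_⟩
  have hint : ∀ n : ℕ, Integrable (fun v : ℝ => (v : ℂ) ^ n * g v * wt v) := by
    intro n
    refine ((integrable_pow_wt n).mul_const M).mono' ?_ (Eventually.of_forall fun v => ?_)
    · exact (((Complex.continuous_ofReal.pow n).mul hg).mul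
        (Complex.continuous_ofReal.comp wt_cont)).aestronglyMeasurable
    · rw [norm_mul, norm_mul, norm_pow, Complex.norm_real, Complex.norm_real, Real.norm_eq_abs,
        Real.norm_eq_abs, abs_of_pos (wt_pos v)]
      have h1 : |v| ^ n ≤ (1 + |v|) ^ n := pow_le_pow_left₀ (abs_nonneg v) (by linarith) n
      have h2 : |v| ^ n * ‖g v‖ ≤ (1 + |v|) ^ n * M :=
        mul_le_mul h1 (hb v) (norm_nonneg _) (by positivity)
      calc |v| ^ n * ‖g v‖ * wt v ≤ ((1 + |v|) ^ n * M) * wt v :=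
            mul_le_mul_of_nonneg_right h2 (wt_pos v).le
        _ = _ := by ring
  refine ⟨hint, ?_⟩
  have hmat : cmat L g = C * (Matrix.of fun r s : Fin L =>
      ∫ v : ℝ, (v : ℂ) ^ ((r : ℕ) + (s : ℕ)) * g v * wt v) * C.transpose := by
    ext j k
    have h1 : HI (fun v => g v * mp j v * mp k v * wt v) (∑ s : Fin L, (∑ r : Fin L,
        (c j r : ℂ) * ∫ v : ℝ, (v : ℂ) ^ ((r : ℕ) + (s : ℕ)) * g v * wt v) * (c k s : ℂ)) := by
      have h2 := HI.sum (Finset.univ : Finset (Fin L)) (fun s _ =>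
        HI.sum (Finset.univ : Finset (Fin L)) (fun r _ =>
          (HI.cmul ((c j r : ℂ) * (c k s : ℂ)) ⟨hint ((r : ℕ) + (s : ℕ)), rfl⟩)))
      refine h2.congr ?_ ?_
      · intro v
        rw [hc j L j.2 v, hc k L k.2 v]
        push_cast
        rw [Finset.sum_range, Finset.sum_range]
        have h3 : g v * (∑ i : Fin L, (c j i : ℂ) * (v : ℂ) ^ (i : ℕ)) *
            (∑ i : Fin L, (c k i : ℂ) * (v : ℂ) ^ (i : ℕ)) * wt v =
            (∑ i : Fin L, (c k i : ℂ) * (v : ℂ) ^ (i : ℕ)) *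
            (∑ i : Fin L, (c j i : ℂ) * (v : ℂ) ^ (i : ℕ)) * (g v * wt v) := by ring
        rw [h3, Finset.sum_mul_sum, Finset.sum_mul]
        refine Finset.sum_congr rfl fun s _ => ?_
        rw [Finset.sum_mul]
        refine Finset.sum_congr rfl fun r _ => ?_
        rw [pow_add]; ring
      · refine Finset.sum_congr rfl fun s _ => ?_
        rw [Finset.sum_mul]
        exact Finset.sum_congr rfl fun r _ => by ring
    rw [Matrix.mul_apply]
    simp only [Matrix.mul_apply, Matrix.transpose_apply, hC, Matrix.of_apply]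
    exact h1.eq
  rw [hmat, Matrix.det_mul, Matrix.det_mul, Matrix.det_transpose]
  ring

/-- For continuous bounded `g`, there are (θ-independent) nonzero constants `a ε` such that
`det [∫ e^{i ε (x_i - x_j) v} g wt] = a ε * D_ε`, `D_ε → det (cmat L g)`. -/
theorem confluent (L : ℕ) (x : Fin L → ℝ) (hx : Function.Injective x) :
    ∃ a : ℝ → ℂ, (∀ ε, ε ≠ 0 → a ε ≠ 0) ∧ ∀ (g : ℝ → ℂ) (M : ℝ), Continuous g →
      (∀ v, ‖g v‖ ≤ M) →
      Tendsto (fun ε : ℝ => (Matrix.det (fun i j : Fin L =>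
        ∫ v : ℝ, Complex.exp (Complex.I * (ε * (x i - x j) : ℝ) * v) * g v * wt v)) / a ε)
        (𝓝[≠] 0) (𝓝 (cmat L g).det) := by
  obtain ⟨κ, hκ, hcm⟩ := cmat_hankel L
  set V : Matrix (Fin L) (Fin L) ℂ := Matrix.vandermonde fun i => (x i : ℂ) with hV
  have hVd : V.det ≠ 0 := vdm_det_ne x hx
  set δ : ℂ := (∏ r : Fin L, Complex.I ^ (r : ℕ) / ((r : ℕ).factorial : ℂ)) *
    (∏ r : Fin L, (-Complex.I) ^ (r : ℕ) / ((r : ℕ).factorial : ℂ)) with hδ
  have hδ0 : δ ≠ 0 := by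
    refine mul_ne_zero (Finset.prod_ne_zero_iff.mpr fun r _ => ?_)
      (Finset.prod_ne_zero_iff.mpr fun r _ => ?_)
    · exact div_ne_zero (pow_ne_zero _ Complex.I_ne_zero) (by exact_mod_cast Nat.factorial_ne_zero _)
    · exact div_ne_zero (pow_ne_zero _ (neg_ne_zero.mpr Complex.I_ne_zero))
        (by exact_mod_cast Nat.factorial_ne_zero _)
  refine ⟨fun ε => V.det * V.det * (∏ r : Fin L, (ε : ℂ) ^ (r : ℕ)) * (∏ r : Fin L, (ε : ℂ) ^ (r : ℕ)) *
    (δ / κ), ?_, ?_⟩
  · intro ε hε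
    have h1 : (∏ r : Fin L, (ε : ℂ) ^ (r : ℕ)) ≠ 0 :=
      Finset.prod_ne_zero_iff.mpr fun r _ => pow_ne_zero _ (by exact_mod_cast hε)
    exact mul_ne_zero (mul_ne_zero (mul_ne_zero (mul_ne_zero hVd hVd) h1) h1) (div_ne_zero hδ0 hκ)
  · intro g M hg hb
    obtain ⟨hint, hcm⟩ := hcm g M hg hb
    set F : ℝ → Matrix (Fin L) (Fin L) ℂ := fun ε => Matrix.of fun r s =>
      ∫ v : ℝ, phi x ε r v * phi x ε s (-v) * g v * wt v with hF
    have hcont : ∀ ε r s, Continuous (fun v : ℝ => phi x ε r v * phi x ε s (-v) * g v * (wt v : ℂ)) := by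
      intro ε r s
      exact ((((phi_cont x ε r).mul ((phi_cont x ε s).comp continuous_neg)).mul hg).mul
        (Complex.continuous_ofReal.comp wt_cont))
    have hbd : ∀ ε : ℝ, ε ≠ 0 → |ε| ≤ 1 → ∀ r s v,
        ‖phi x ε r v * phi x ε s (-v) * g v * (wt v : ℂ)‖ ≤
        (1 + Bc x) * (1 + |v|) ^ L * ((1 + Bc x) * (1 + |v|) ^ L) * M * wt v := by
      intro ε h1 h2 r s v
      have h3 := phi_bound x hx h1 h2 r v
      have h4 := phi_bound x hx h1 h2 s (-v)
      rw [abs_neg] at h4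
      have h0 : 0 ≤ (1 + Bc x) * (1 + |v|) ^ L :=
        mul_nonneg (by have := Bc_nonneg x; linarith) (by positivity)
      rw [norm_mul, norm_mul, norm_mul, Complex.norm_real, Real.norm_eq_abs, abs_of_pos (wt_pos v)]
      refine mul_le_mul_of_nonneg_right ?_ (wt_pos v).le
      refine mul_le_mul ?_ (hb v) (norm_nonneg _) (mul_nonneg h0 h0)
      exact mul_le_mul h3 h4 (norm_nonneg _) h0
    have hFint : ∀ ε : ℝ, ε ≠ 0 → |ε| ≤ 1 → ∀ r s,
        HI (fun v => phi x ε r v * phi x ε s (-v) * g v * wt v) (F ε r s) := by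
      intro ε h1 h2 r s
      refine ⟨?_, rfl⟩
      exact (dom_integrable L (1 + Bc x) M).mono' (hcont ε r s).aestronglyMeasurable
        (Eventually.of_forall fun v => hbd ε h1 h2 r s v)
    -- limit of F
    have hFlim : ∀ r s : Fin L, Tendsto (fun ε => F ε r s) (𝓝[≠] 0)
        (𝓝 (∫ v : ℝ, ((Complex.I * v) ^ (r : ℕ) / ((r : ℕ).factorial : ℂ)) *
          ((Complex.I * ((-v : ℝ) : ℂ)) ^ (s : ℕ) / ((s : ℕ).factorial : ℂ)) * g v * wt v)) := by
      intro r s
      refine tendsto_integral_filter_of_dominated_convergence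
        (fun v : ℝ => (1 + Bc x) * (1 + |v|) ^ L * ((1 + Bc x) * (1 + |v|) ^ L) * M * wt v)
        (Eventually.of_forall fun ε => (hcont ε r s).aestronglyMeasurable) ?_
        (dom_integrable L (1 + Bc x) M) (Eventually.of_forall fun v => ?_)
      · filter_upwards [ev_small] with ε hε
        exact Eventually.of_forall fun v => hbd ε hε.1 hε.2 r s v
      · exact (((phi_tendsto x hx r v).mul (phi_tendsto x hx s (-v))).mul_const _).mul_const _
    set N : Matrix (Fin L) (Fin L) ℂ := Matrix.of fun r s : Fin L =>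
      ∫ v : ℝ, ((Complex.I * v) ^ (r : ℕ) / ((r : ℕ).factorial : ℂ)) *
          ((Complex.I * ((-v : ℝ) : ℂ)) ^ (s : ℕ) / ((s : ℕ).factorial : ℂ)) * g v * wt v with hN
    have hNdet : N.det = δ * (Matrix.of fun r s : Fin L =>
        ∫ v : ℝ, (v : ℂ) ^ ((r : ℕ) + (s : ℕ)) * g v * wt v).det := by
      have h1 : N = Matrix.diagonal (fun r : Fin L => Complex.I ^ (r : ℕ) / ((r : ℕ).factorial : ℂ)) *
          (Matrix.of fun r s : Fin L => ∫ v : ℝ, (v : ℂ) ^ ((r : ℕ) + (s : ℕ)) * g v * wt v) *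
          Matrix.diagonal (fun r : Fin L => (-Complex.I) ^ (r : ℕ) / ((r : ℕ).factorial : ℂ)) := by
        ext r s
        rw [Matrix.mul_diagonal, Matrix.diagonal_mul]
        simp only [hN, Matrix.of_apply]
        rw [← integral_const_mul, ← integral_mul_const]
        congr 1; ext v
        push_cast
        rw [show Complex.I * -(v : ℂ) = (-Complex.I) * v by ring, mul_pow, mul_pow, pow_add]
        ring
      rw [h1, Matrix.det_mul, Matrix.det_mul, Matrix.det_diagonal, Matrix.det_diagonal, hδ]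
      ring
    have hFdet : Tendsto (fun ε => (F ε).det) (𝓝[≠] 0) (𝓝 N.det) := by
      have h1 : Tendsto (fun ε => (fun r s => F ε r s : Fin L → Fin L → ℂ)) (𝓝[≠] 0)
          (𝓝 (fun r s => N r s)) :=
        tendsto_pi_nhds.mpr fun r => tendsto_pi_nhds.mpr fun s => hFlim r s
      have h2 : Continuous (fun A : Fin L → Fin L → ℂ => (Matrix.of A).det) :=
        Continuous.matrix_det continuous_id
      exact (h2.tendsto _).comp h1
    have hfac : ∀ ε : ℝ, ε ≠ 0 → |ε| ≤ 1 → Matrix.det (fun i j : Fin L =>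
        ∫ v : ℝ, Complex.exp (Complex.I * (ε * (x i - x j) : ℝ) * v) * g v * wt v) =
        V.det * V.det * (∏ r : Fin L, (ε : ℂ) ^ (r : ℕ)) * (∏ r : Fin L, (ε : ℂ) ^ (r : ℕ)) *
          (F ε).det := by
      intro ε h1 h2
      set A : Matrix (Fin L) (Fin L) ℂ := Matrix.of fun i r => (x i : ℂ) ^ (r : ℕ) * (ε : ℂ) ^ (r : ℕ)
        with hA
      have hAV : A = V * Matrix.diagonal (fun r : Fin L => (ε : ℂ) ^ (r : ℕ)) := by
        ext i r
        rw [Matrix.mul_diagonal]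
        simp only [hA, hV, Matrix.of_apply, Matrix.vandermonde_apply]
      have h3 : (Matrix.of fun i j : Fin L =>
          ∫ v : ℝ, Complex.exp (Complex.I * (ε * (x i - x j) : ℝ) * v) * g v * wt v) =
          A * F ε * A.transpose := by
        ext i j
        have h4 : HI (fun v => Complex.exp (Complex.I * (ε * (x i - x j) : ℝ) * v) * g v * wt v)
            (∑ s : Fin L, (∑ r : Fin L, ((x i : ℂ) ^ (r : ℕ) * (ε : ℂ) ^ (r : ℕ)) * F ε r s) *
              ((x j : ℂ) ^ (s : ℕ) * (ε : ℂ) ^ (s : ℕ))) := by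
          have h5 := HI.sum (Finset.univ : Finset (Fin L)) (fun s _ =>
            HI.sum (Finset.univ : Finset (Fin L)) (fun r _ =>
              (hFint ε h1 h2 r s).cmul (((x i : ℂ) ^ (r : ℕ) * (ε : ℂ) ^ (r : ℕ)) *
                ((x j : ℂ) ^ (s : ℕ) * (ε : ℂ) ^ (s : ℕ)))))
          refine h5.congr ?_ ?_
          · intro v
            have h6 : Complex.exp (Complex.I * (ε * (x i - x j) : ℝ) * v) =
                Complex.exp (Complex.I * ((ε * x i * v : ℝ) : ℂ)) *
                Complex.exp (Complex.I * ((ε * x j * (-v) : ℝ) : ℂ)) := by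
              rw [← Complex.exp_add]
              congr 1; push_cast; ring
            rw [h6, exp_eq_phi x hx h1 i v, exp_eq_phi x hx h1 j (-v)]
            rw [mul_comm (∑ r : Fin L, (x i : ℂ) ^ (r : ℕ) * ((ε : ℂ) ^ (r : ℕ) * phi x ε r v))]
            rw [Finset.sum_mul_sum, Finset.sum_mul, Finset.sum_mul]
            refine Finset.sum_congr rfl fun s _ => ?_
            rw [Finset.sum_mul, Finset.sum_mul]
            exact Finset.sum_congr rfl fun r _ => by ring
          · refine Finset.sum_congr rfl fun s _ => ?_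
            rw [Finset.sum_mul]
            exact Finset.sum_congr rfl fun r _ => by ring
        rw [Matrix.mul_apply]
        simp only [Matrix.mul_apply, Matrix.transpose_apply, hA, Matrix.of_apply]
        exact h4.eq
      have h7 : Matrix.det (fun i j : Fin L =>
        ∫ v : ℝ, Complex.exp (Complex.I * (ε * (x i - x j) : ℝ) * v) * g v * wt v) =
        (Matrix.of fun i j : Fin L =>
          ∫ v : ℝ, Complex.exp (Complex.I * (ε * (x i - x j) : ℝ) * v) * g v * wt v).det := rfl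
      rw [h7, h3, Matrix.det_mul, Matrix.det_mul, Matrix.det_transpose, hAV, Matrix.det_mul,
        Matrix.det_diagonal]
      ring
    have hlim : Tendsto (fun ε => (F ε).det * (κ / δ)) (𝓝[≠] 0) (𝓝 (cmat L g).det) := by
      have h1 := hFdet.mul_const (κ / δ)
      have h2 : N.det * (κ / δ) = (cmat L g).det := by
        rw [hNdet, hcm]; field_simp
      rwa [h2] at h1
    refine hlim.congr' ?_
    filter_upwards [ev_small] with ε hε
    rw [hfac ε hε.1 hε.2]
    have h1 : (∏ r : Fin L, (ε : ℂ) ^ (r : ℕ)) ≠ 0 :=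
      Finset.prod_ne_zero_iff.mpr fun r _ => pow_ne_zero _ (by exact_mod_cast hε.1)
    field_simp

/-- The ratio of kernel determinants tends to the ratio of compression determinants. -/
theorem kernel_ratio (L : ℕ) (x : Fin L → ℝ) (hx : Function.Injective x) :
    Tendsto (fun ε : ℝ => (((Matrix.det (fun i j : Fin L => kf (π / 2) (ε * (x i - x j)))) /
        (Matrix.det (fun i j : Fin L => kf (π / 3) (ε * (x i - x j)))) : ℝ) : ℂ))
      (𝓝[≠] 0) (𝓝 ((cmat L (gf (π / 2))).det / (cmat L (gf (π / 3))).det)) := by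
  have hx' : Function.Injective (fun i => -(3 / 2) * x i) := by
    intro i j h
    apply hx
    have : -(3 / 2) * x i = -(3 / 2) * x j := h
    linarith
  obtain ⟨a, ha, hconf⟩ := confluent L (fun i => -(3 / 2) * x i) hx'
  have hpi := Real.pi_pos
  have m1 : π / 2 ∈ Set.Icc (π / 3) (π / 2) := ⟨by linarith, le_rfl⟩
  have m2 : π / 3 ∈ Set.Icc (π / 3) (π / 2) := ⟨le_rfl, by linarith⟩
  have hK : ∀ θ ∈ Set.Icc (π / 3) (π / 2), ∀ ε : ℝ,
      Matrix.det (fun i j : Fin L => ∫ v : ℝ, Complex.exp (Complex.I *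
        (ε * (-(3 / 2) * x i - -(3 / 2) * x j) : ℝ) * v) * gf θ v * wt v) =
      (8 / 3 : ℂ) ^ L * ((Matrix.det (fun i j : Fin L => kf θ (ε * (x i - x j))) : ℝ) : ℂ) := by
    intro θ hθ ε
    set cg : Fin L → ℂ := fun i => ((Real.exp (-(3 * θ * ε * x i) / (4 * π)) : ℝ) : ℂ) with hcg
    set cg' : Fin L → ℂ := fun i => ((Real.exp ((3 * θ * ε * x i) / (4 * π)) : ℝ) : ℂ) with hcg'
    have h1 : (Matrix.of fun i j : Fin L => ∫ v : ℝ, Complex.exp (Complex.I *
        (ε * (-(3 / 2) * x i - -(3 / 2) * x j) : ℝ) * v) * gf θ v * wt v) =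
        (8 / 3 : ℂ) • (Matrix.diagonal cg * (Complex.ofRealHom.mapMatrix
          (Matrix.of fun i j : Fin L => kf θ (ε * (x i - x j)))) * Matrix.diagonal cg') := by
      ext i j
      rw [Matrix.smul_apply, Matrix.mul_diagonal, Matrix.diagonal_mul, Matrix.of_apply]
      have h2 := kernel_fourier hθ (ε * (-(3 / 2) * x i - -(3 / 2) * x j))
      rw [h2]
      simp only [hcg, hcg', RingHom.mapMatrix_apply, Matrix.map_apply, Matrix.of_apply,
        Complex.ofRealHom_eq_coe, smul_eq_mul]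
      have h3 : -(2 * (ε * (-(3 / 2) * x i - -(3 / 2) * x j)) / 3) = ε * (x i - x j) := by ring
      have h4 : Real.exp (θ * (ε * (-(3 / 2) * x i - -(3 / 2) * x j)) / (2 * π)) =
          Real.exp (-(3 * θ * ε * x i) / (4 * π)) * Real.exp ((3 * θ * ε * x j) / (4 * π)) := by
        rw [← Real.exp_add]
        congr 1; field_simp; ring
      rw [h3, h4]
      push_cast; ring
    have h5 : Matrix.det (fun i j : Fin L => ∫ v : ℝ, Complex.exp (Complex.I *
        (ε * (-(3 / 2) * x i - -(3 / 2) * x j) : ℝ) * v) * gf θ v * wt v) =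
        (Matrix.of fun i j : Fin L => ∫ v : ℝ, Complex.exp (Complex.I *
        (ε * (-(3 / 2) * x i - -(3 / 2) * x j) : ℝ) * v) * gf θ v * wt v).det := rfl
    rw [h5, h1, Matrix.det_smul, Fintype.card_fin, Matrix.det_mul, Matrix.det_mul,
      Matrix.det_diagonal, Matrix.det_diagonal, ← RingHom.map_det]
    have h6 : (∏ i, cg i) * ∏ i, cg' i = 1 := by
      rw [← Finset.prod_mul_distrib]
      refine Finset.prod_eq_one fun i _ => ?_
      simp only [hcg, hcg']
      rw [← Complex.ofReal_mul, ← Real.exp_add]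
      have : -(3 * θ * ε * x i) / (4 * π) + 3 * θ * ε * x i / (4 * π) = 0 := by ring
      rw [this]; simp
    have h7 : Complex.ofRealHom (Matrix.of fun i j : Fin L => kf θ (ε * (x i - x j))).det =
        ((Matrix.det (fun i j : Fin L => kf θ (ε * (x i - x j))) : ℝ) : ℂ) := rfl
    rw [h7]
    linear_combination ((8 / 3 : ℂ) ^ L *
      ((Matrix.det (fun i j : Fin L => kf θ (ε * (x i - x j))) : ℝ) : ℂ)) * h6
  have l1 := hconf (gf (π / 2)) 2 (gf_cont m1) (gf_bound m1)
  have l2 := hconf (gf (π / 3)) 2 (gf_cont m2) (gf_bound m2)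
  have hne : (cmat L (gf (π / 3))).det ≠ 0 :=
    cmat_det_ne_zero L (gf_cont m2) (gf_bound m2) (c := 1 / 4) (by norm_num) (gf_re m2)
  refine (l1.div l2 hne).congr' ?_
  filter_upwards [ev_small] with ε hε
  have ha' := ha ε hε.1
  simp only [Pi.div_apply]
  rw [hK _ m1 ε, hK _ m2 ε]
  push_cast
  have h8 : (8 / 3 : ℂ) ^ L ≠ 0 := pow_ne_zero _ (by norm_num)
  rw [div_div_div_cancel_right₀ ha', mul_div_mul_left _ _ h8]

end OneArm
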