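import Mathlib

/-!
# Bulk one-arm exponent 5/48: asymptotics of the determinant (helper82)

Definitions shared by all modules.
-/

open Real MeasureTheory Filter Topology

namespace OneArm

/-- The Meixner-Pollaczek polynomials `P_n` (orthonormal for `sech (π v)`):
`(n+1) P_{n+1} + n P_{n-1} = 2 v P_n`. -/
noncomputable def mp : ℕ → ℝ → ℝ
  | 0, _ => 1
  | 1, v => 2 * v
  | (n + 2), v => (2 * v * mp (n + 1) v - (n + 1) * mp n v) / (n + 2)

/-- The weight `sech (π v)`. -/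
noncomputable def wt (v : ℝ) : ℝ := (Real.cosh (π * v))⁻¹

/-- `g_θ(v) = 2 cosh(π v/2 + i b) cosh(π v) / cosh(3 π v/2 + i b)`, `b = 3 θ/4`. -/
noncomputable def gf (θ v : ℝ) : ℂ :=
  2 * Complex.cosh (π * v / 2 + (3 * θ / 4 : ℝ) * Complex.I) * Complex.cosh (π * v) /
    Complex.cosh (3 * π * v / 2 + (3 * θ / 4 : ℝ) * Complex.I)

/-- `h_θ = ∂_θ g_θ / g_θ = (3/4) i (tanh(π v/2 + i b) - tanh(3 π v/2 + i b))`. -/
noncomputable def hf (θ v : ℝ) : ℂ :=
  (3 / 4 : ℝ) * Complex.I *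
    (Complex.sinh (π * v / 2 + (3 * θ / 4 : ℝ) * Complex.I) /
        Complex.cosh (π * v / 2 + (3 * θ / 4 : ℝ) * Complex.I) -
      Complex.sinh (3 * π * v / 2 + (3 * θ / 4 : ℝ) * Complex.I) /
        Complex.cosh (3 * π * v / 2 + (3 * θ / 4 : ℝ) * Complex.I))

/-- The kernel of the inhomogeneous formula, as a function of `t = t_i - t_j`. -/
noncomputable def kf (θ t : ℝ) : ℝ :=
  (Real.sin (π / 3 + θ / 2) * Real.exp (t / 2) + Real.sin (π / 3 - θ / 2) * Real.exp (-t / 2)) /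
    (1 + 2 * Real.cosh t)

/-- Matrix elements of the compression of multiplication by `u`. -/
noncomputable def me (u : ℝ → ℂ) (j k : ℕ) : ℂ := ∫ v, u v * mp j v * mp k v * wt v

/-- The compression to polynomials of degree `< L`. -/
noncomputable def cmat (L : ℕ) (u : ℝ → ℂ) : Matrix (Fin L) (Fin L) ℂ :=
  fun j k => me u j k

end OneArm
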