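import Pool.Agent.Helper82.OneArm.Energy

/-! Module Diag: the diagonal of the Christoffel-Darboux kernel. -/

open Real MeasureTheory Filter Topology

namespace OneArm

/-- `a_k = P_k^2 w` -/
noncomputable def dgA (k : ℕ) (v : ℝ) : ℝ := (mp k v) ^ 2 * wt v

theorem dgA_nonneg (k : ℕ) (v : ℝ) : 0 ≤ dgA k v := by
  unfold dgA
  have := wt_pos v
  positivity

theorem dgA_le (k : ℕ) (v : ℝ) : dgA k v ≤ 8 := mp_unif k v

/-- telescoping of the pair sums -/
theorem dg_pair (v : ℝ) (n : ℕ) :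
    2 * ∑ k ∈ Finset.range (n + 1), dgA k v =
      (∑ k ∈ Finset.range n, (dgA k v + dgA (k + 1) v)) + dgA 0 v + dgA n v := by
  induction n with
  | zero => simp; ring
  | succ n ih =>
    rw [Finset.sum_range_succ, mul_add, ih, Finset.sum_range_succ _ n]
    ring

theorem dg_sq_sum' (n : ℕ) :
    ∑ k ∈ Finset.range (n + 1), 1 / ((k : ℝ) + 1) ^ 2 ≤ 2 - 1 / ((n : ℝ) + 1) := by
  induction n with
  | zero => simp; norm_num
  | succ n ih =>
    rw [Finset.sum_range_succ]
    have hn : (0 : ℝ) ≤ n := Nat.cast_nonneg n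
    have h2 : 1 / (((n + 1 : ℕ) : ℝ) + 1) ^ 2 ≤ 1 / ((n : ℝ) + 1) - 1 / (((n + 1 : ℕ) : ℝ) + 1) := by
      push_cast
      rw [div_sub_div _ _ (by positivity) (by positivity), div_le_div_iff₀ (by positivity)
        (by positivity)]
      nlinarith
    linarith

theorem dg_sq_sum (n : ℕ) : ∑ k ∈ Finset.range n, 1 / ((k : ℝ) + 1) ^ 2 ≤ 2 := by
  cases n with
  | zero => simp
  | succ n =>
    have := dg_sq_sum' n
    have h3 : (0 : ℝ) ≤ 1 / ((n : ℝ) + 1) := by positivity
    linarith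

theorem dg_harmonic (n : ℕ) :
    |∑ k ∈ Finset.range n, 1 / ((k : ℝ) + 1) - Real.log ((n : ℝ) + 1)| ≤ 1 := by
  have h1 := log_add_one_le_harmonic n
  have h2 := harmonic_le_one_add_log n
  have e : ((harmonic n : ℚ) : ℝ) = ∑ k ∈ Finset.range n, 1 / ((k : ℝ) + 1) := by
    unfold harmonic
    push_cast
    simp
  rw [e] at h1 h2
  push_cast at h1
  rw [abs_le]
  constructor
  · linarith
  · rcases Nat.eq_zero_or_pos n with h0 | h0
    · subst h0
      simp
    · have h3 : Real.log (n : ℝ) ≤ Real.log ((n : ℝ) + 1) := by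
        apply Real.log_le_log
        · exact_mod_cast h0
        · linarith
      linarith

/-- pointwise bound on each pair -/
theorem dg_term : ∃ C : ℝ, 0 < C ∧ ∀ (k : ℕ) (v : ℝ),
    |dgA k v + dgA (k + 1) v - 2 / π * (1 / ((k : ℝ) + 1))| ≤
      C * (1 + |v|) ^ 2 * (1 / ((k : ℝ) + 1) ^ 2) := by
  obtain ⟨C, hC, hasym⟩ := mp_sq_asym
  refine ⟨C + 68, by linarith, fun k v => ?_⟩
  have hv := abs_nonneg v
  have hk : (0 : ℝ) < (k : ℝ) + 1 := by positivity
  rcases le_total (2 * |v| + 1) (k : ℝ) with h | h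
  · have h1 := hasym k v h
    have e : dgA k v + dgA (k + 1) v - 2 / π * (1 / ((k : ℝ) + 1)) =
        (((k : ℝ) + 1) * ((mp (k + 1) v) ^ 2 + (mp k v) ^ 2) * wt v - 2 / π) / ((k : ℝ) + 1) := by
      unfold dgA
      field_simp
      ring
    rw [e, abs_div, abs_of_pos hk, div_le_iff₀ hk]
    refine h1.trans ?_
    have e2 : (C + 68) * (1 + |v|) ^ 2 * (1 / ((k : ℝ) + 1) ^ 2) * ((k : ℝ) + 1) =
        (C + 68) * (1 + |v|) ^ 2 / ((k : ℝ) + 1) := by
      field_simp
    rw [e2]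
    apply div_le_div_of_nonneg_right _ hk.le
    have h3 : (1 + |v|) ≤ (1 + |v|) ^ 2 := by nlinarith
    nlinarith
  · have h1 : |dgA k v + dgA (k + 1) v - 2 / π * (1 / ((k : ℝ) + 1))| ≤ 17 := by
      have a0 := dgA_nonneg k v
      have a1 := dgA_nonneg (k + 1) v
      have b0 := dgA_le k v
      have b1 := dgA_le (k + 1) v
      have c0 : 0 ≤ 2 / π * (1 / ((k : ℝ) + 1)) := by positivity
      have c1 : 2 / π * (1 / ((k : ℝ) + 1)) ≤ 1 := by
        have hp : 2 / π ≤ 1 := by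
          rw [div_le_one Real.pi_pos]
          linarith [Real.pi_gt_three]
        have hq : 1 / ((k : ℝ) + 1) ≤ 1 := by
          rw [div_le_one hk]
          have : (0 : ℝ) ≤ k := Nat.cast_nonneg k
          linarith
        have hq0 : 0 ≤ 1 / ((k : ℝ) + 1) := by positivity
        have hp0 : 0 ≤ 2 / π := by positivity
        nlinarith
      rw [abs_le]
      constructor <;> linarith
    refine h1.trans ?_
    have h2 : ((k : ℝ) + 1) ^ 2 ≤ 4 * (1 + |v|) ^ 2 := by nlinarith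
    rw [mul_one_div, le_div_iff₀ (by positivity)]
    have h3 : 0 ≤ (1 + |v|) ^ 2 := by positivity
    nlinarith

/-- pointwise asymptotics of the diagonal kernel -/
theorem dg_kernel : ∃ C : ℝ, 0 < C ∧ ∀ (L : ℕ), 1 ≤ L → ∀ v : ℝ,
    |∑ k ∈ Finset.range L, dgA k v - Real.log L / π| ≤ C * (1 + |v|) ^ 2 := by
  obtain ⟨C, hC, hterm⟩ := dg_term
  refine ⟨C + 9, by linarith, fun L hL v => ?_⟩
  obtain ⟨n, rfl⟩ : ∃ n, L = n + 1 := ⟨L - 1, by omega⟩
  have hv := abs_nonneg v
  have hpair := dg_pair v n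
  have h1 : |∑ k ∈ Finset.range n, (dgA k v + dgA (k + 1) v) -
      2 / π * ∑ k ∈ Finset.range n, 1 / ((k : ℝ) + 1)| ≤ 2 * C * (1 + |v|) ^ 2 := by
    rw [Finset.mul_sum, ← Finset.sum_sub_distrib]
    refine (Finset.abs_sum_le_sum_abs _ _).trans ?_
    refine (Finset.sum_le_sum (fun k _ => hterm k v)).trans ?_
    rw [← Finset.mul_sum]
    have := dg_sq_sum n
    have h3 : 0 ≤ C * (1 + |v|) ^ 2 := by positivity
    nlinarith
  have h2 := dg_harmonic n
  have hp : 0 < 2 / π := by positivity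
  have hp1 : 2 / π ≤ 1 := by
    rw [div_le_one Real.pi_pos]
    linarith [Real.pi_gt_three]
  have h3 : |2 / π * ∑ k ∈ Finset.range n, 1 / ((k : ℝ) + 1) -
      2 / π * Real.log ((n : ℝ) + 1)| ≤ 1 := by
    rw [← mul_sub, abs_mul, abs_of_pos hp]
    nlinarith [abs_nonneg (∑ k ∈ Finset.range n, 1 / ((k : ℝ) + 1) - Real.log ((n : ℝ) + 1))]
  have a0 := dgA_nonneg 0 v
  have a1 := dgA_nonneg n v
  have b0 := dgA_le 0 v
  have b1 := dgA_le n v
  rw [abs_le] at h1 h3 ⊢
  have hcast : ((n + 1 : ℕ) : ℝ) = (n : ℝ) + 1 := by push_cast; ring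
  rw [hcast]
  have e : Real.log ((n : ℝ) + 1) / π = (2 / π * Real.log ((n : ℝ) + 1)) / 2 := by
    field_simp
  rw [e]
  have hsq : 1 ≤ (1 + |v|) ^ 2 := by nlinarith
  constructor
  · nlinarith [h1.1, h3.1]
  · nlinarith [h1.2, h3.2]

theorem dg_int : Integrable (fun v : ℝ => (1 + |v|) ^ 2 * Real.exp (-|v|)) := by
  have hb := (integrable_exp_abs (a := 1 / 2) (by norm_num)).const_mul (8 * Real.exp (1 / 2))
  refine hb.mono' ?_ ?_
  · apply Continuous.aestronglyMeasurable
    fun_prop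
  · refine Eventually.of_forall (fun v => ?_)
    have hv := abs_nonneg v
    rw [Real.norm_eq_abs, abs_of_nonneg (by positivity)]
    have h1 := Real.pow_div_factorial_le_exp ((1 + |v|) / 2) (by linarith) 2
    have h2 : (1 + |v|) ^ 2 ≤ 8 * Real.exp ((1 + |v|) / 2) := by
      have : ((2 : ℕ).factorial : ℝ) = 2 := by norm_num [Nat.factorial]
      rw [this] at h1
      nlinarith
    calc (1 + |v|) ^ 2 * Real.exp (-|v|) ≤ 8 * Real.exp ((1 + |v|) / 2) * Real.exp (-|v|) := by
          apply mul_le_mul_of_nonneg_right h2 (Real.exp_pos _).le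
      _ = 8 * Real.exp (1 / 2) * Real.exp (-(1 / 2 * |v|)) := by
          rw [mul_assoc, mul_assoc, ← Real.exp_add, ← Real.exp_add]
          congr 2
          ring

theorem diag_asym : ∃ C : ℝ, 0 < C ∧ ∀ (h : ℝ → ℂ) (M : ℝ), Continuous h →
    (∀ v, ‖h v‖ ≤ M * Real.exp (-|v|)) → ∀ L : ℕ, 1 ≤ L →
    ‖∑ k ∈ Finset.range L, me h k k - ((Real.log L / π : ℝ) : ℂ) * ∫ v, h v‖ ≤ C * M := by
  obtain ⟨C, hC, hker⟩ := dg_kernel
  set I : ℝ := ∫ v : ℝ, (1 + |v|) ^ 2 * Real.exp (-|v|) with hI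
  have hI0 : 0 ≤ I := by
    apply integral_nonneg
    intro v
    positivity
  refine ⟨C * I + 1, by positivity, fun h M hh hb L hL => ?_⟩
  have hM : 0 ≤ M := by
    have := (norm_nonneg _).trans (hb 0)
    simpa using this
  have hbM : ∀ v, ‖h v‖ ≤ M := by
    intro v
    refine (hb v).trans ?_
    have : Real.exp (-|v|) ≤ 1 := by
      rw [Real.exp_le_one_iff]
      have := abs_nonneg v
      linarith
    nlinarith
  have hint : Integrable h := by
    refine (integrable_exp_neg_abs.const_mul M).mono' hh.aestronglyMeasurable ?_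
    exact Eventually.of_forall hb
  have hme : ∀ k, Integrable (fun v => h v * mp k v * mp k v * wt v) :=
    fun k => integrable_me hh.aestronglyMeasurable hbM k k
  have e1 : ∑ k ∈ Finset.range L, me h k k - ((Real.log L / π : ℝ) : ℂ) * ∫ v, h v =
      ∫ v, h v * ((∑ k ∈ Finset.range L, dgA k v - Real.log L / π : ℝ) : ℂ) := by
    unfold me
    rw [← integral_finsetSum _ (fun k _ => hme k), ← integral_const_mul,
      ← integral_sub (integrable_finsetSum _ (fun k _ => hme k)) (hint.const_mul _)]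
    congr 1
    funext v
    unfold dgA
    push_cast
    rw [mul_sub, Finset.mul_sum]
    congr 1
    · apply Finset.sum_congr rfl
      intro k _
      ring
    · ring
  rw [e1]
  have h2 : ∀ v, ‖h v * ((∑ k ∈ Finset.range L, dgA k v - Real.log L / π : ℝ) : ℂ)‖ ≤
      (M * C) * ((1 + |v|) ^ 2 * Real.exp (-|v|)) := by
    intro v
    rw [norm_mul, Complex.norm_real, Real.norm_eq_abs]
    have h3 := hker L hL v
    calc ‖h v‖ * |∑ k ∈ Finset.range L, dgA k v - Real.log L / π| ≤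
          (M * Real.exp (-|v|)) * (C * (1 + |v|) ^ 2) :=
          mul_le_mul (hb v) h3 (abs_nonneg _) (by positivity)
      _ = _ := by ring
  refine (norm_integral_le_of_norm_le (dg_int.const_mul (M * C))
    (Eventually.of_forall h2)).trans ?_
  rw [integral_const_mul]
  nlinarith

end OneArm
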