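import Pool.Agent.Helper82.OneArm.Rep

/-! Module Energy: uniform bounds from
`U n = (n+1)(P_{n+1}^2+P_n^2) - 2 v P_{n+1} P_n - P_n^2`,
`U (n+1) - U n = (P_n^2 + 2 v P_{n+1} P_n)/(n+2)`. Uses only `mp_rec` and `mp_lim`. -/

open Real MeasureTheory Filter Topology

namespace OneArm

/-- `P_{n+1}^2 + P_n^2` -/
noncomputable def enS (n : ℕ) (v : ℝ) : ℝ := (mp (n + 1) v) ^ 2 + (mp n v) ^ 2

/-- the lower order part -/
noncomputable def enX (n : ℕ) (v : ℝ) : ℝ := 2 * v * mp (n + 1) v * mp n v + (mp n v) ^ 2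

/-- the energy -/
noncomputable def enU (n : ℕ) (v : ℝ) : ℝ := ((n : ℝ) + 1) * enS n v - enX n v

theorem enS_nonneg (n : ℕ) (v : ℝ) : 0 ≤ enS n v := by unfold enS; positivity

theorem en_cross (n : ℕ) (v : ℝ) : |enX n v| ≤ (1 + |v|) * enS n v := by
  unfold enX enS
  set a := mp (n + 1) v
  set b := mp n v
  have h1 : |2 * v * a * b| ≤ |v| * (a ^ 2 + b ^ 2) := by
    have e : 2 * v * a * b = v * (2 * a * b) := by ring
    rw [e, abs_mul]
    apply mul_le_mul_of_nonneg_left _ (abs_nonneg v)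
    rw [abs_le]
    constructor
    · nlinarith [sq_nonneg (a + b)]
    · nlinarith [sq_nonneg (a - b)]
  calc |2 * v * a * b + b ^ 2| ≤ |2 * v * a * b| + |b ^ 2| := abs_add_le _ _
    _ ≤ |v| * (a ^ 2 + b ^ 2) + (a ^ 2 + b ^ 2) := by
        rw [abs_of_nonneg (sq_nonneg b)]
        have := sq_nonneg a
        linarith
    _ = _ := by ring

theorem enU_succ (n : ℕ) (v : ℝ) : enU (n + 1) v - enU n v = enX n v / ((n : ℝ) + 2) := by
  have h := mp_rec n v
  have hn : (0 : ℝ) < (n : ℝ) + 2 := by positivity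
  have hc : mp (n + 2) v = (2 * v * mp (n + 1) v - ((n : ℝ) + 1) * mp n v) / ((n : ℝ) + 2) := by
    rw [eq_div_iff hn.ne']; linarith
  unfold enU enS enX
  rw [show n + 1 + 1 = n + 2 from rfl, hc]
  push_cast
  field_simp
  ring

theorem enU_lower {n : ℕ} {v : ℝ} (hn : 2 * |v| + 1 ≤ n) :
    enS n v ≤ 2 / ((n : ℝ) + 1) * enU n v := by
  have h1 := (abs_le.mp (en_cross n v)).2
  have h2 := enS_nonneg n v
  have hn1 : (0 : ℝ) < (n : ℝ) + 1 := by positivity
  have h3 : ((n : ℝ) + 1) / 2 * enS n v ≤ enU n v := by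
    unfold enU
    nlinarith
  rw [div_mul_eq_mul_div, le_div_iff₀ hn1]
  linarith

theorem enU_nonneg {n : ℕ} {v : ℝ} (hn : 2 * |v| + 1 ≤ n) : 0 ≤ enU n v := by
  have h := enU_lower hn
  have h2 := enS_nonneg n v
  have hn1 : (0 : ℝ) < 2 / ((n : ℝ) + 1) := by positivity
  by_contra hc
  push Not at hc
  have := mul_neg_of_pos_of_neg hn1 hc
  linarith

theorem enU_step {n : ℕ} {v : ℝ} (hn : 2 * |v| + 1 ≤ n) :
    |enU (n + 1) v - enU n v| ≤ 2 * (1 + |v|) / (((n : ℝ) + 1) * ((n : ℝ) + 2)) * enU n v := by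
  rw [enU_succ, abs_div, abs_of_pos (by positivity : (0 : ℝ) < (n : ℝ) + 2)]
  have hv := abs_nonneg v
  rw [div_le_iff₀ (by positivity)]
  calc |enX n v| ≤ (1 + |v|) * enS n v := en_cross n v
    _ ≤ (1 + |v|) * (2 / ((n : ℝ) + 1) * enU n v) :=
        mul_le_mul_of_nonneg_left (enU_lower hn) (by positivity)
    _ = _ := by field_simp

/-- the limit of the energy -/
theorem enU_lim (v : ℝ) : Tendsto (fun n : ℕ => enU n v * wt v) atTop (𝓝 (2 / π)) := by
  have h1 := mp_lim v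
  have h2 : Tendsto (fun n : ℕ => enX n v * wt v) atTop (𝓝 0) := by
    apply squeeze_zero_norm (a := fun n : ℕ => (1 + |v|) *
      ((((n : ℝ) + 1) * ((mp (n + 1) v) ^ 2 + (mp n v) ^ 2) * wt v) * (1 / ((n : ℝ) + 1))))
    · intro n
      rw [Real.norm_eq_abs, abs_mul, abs_of_pos (wt_pos v)]
      have hn1 : (0 : ℝ) < (n : ℝ) + 1 := by positivity
      calc |enX n v| * wt v ≤ (1 + |v|) * enS n v * wt v :=
            mul_le_mul_of_nonneg_right (en_cross n v) (wt_pos v).le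
        _ = _ := by unfold enS; field_simp
    · have h3 := (h1.mul tendsto_one_div_add_atTop_nhds_zero_nat).const_mul (1 + |v|)
      simpa using h3
  have h4 := h1.sub h2
  rw [sub_zero] at h4
  refine h4.congr (fun n => ?_)
  unfold enU enS
  ring

theorem en_cond {n : ℕ} {v : ℝ} (hn : 2 * |v| + 1 ≤ n) (k : ℕ) :
    2 * |v| + 1 ≤ ((n + k : ℕ) : ℝ) := by
  push_cast
  have : (0 : ℝ) ≤ k := Nat.cast_nonneg k
  linarith

theorem en_inv (κ : ℝ) (m : ℕ) : κ / (((m + 1 : ℕ) : ℝ) + 1) =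
    κ / ((m : ℝ) + 1) - κ / (((m : ℝ) + 1) * ((m : ℝ) + 2)) := by
  push_cast
  field_simp
  ring

theorem en_shift (n : ℕ) : Tendsto (fun k : ℕ => n + k) atTop atTop :=
  (tendsto_add_atTop_nat n).congr (fun k => add_comm k n)

theorem en_exp_lim (κ : ℝ) (n : ℕ) :
    Tendsto (fun k : ℕ => Real.exp (κ / (((n + k : ℕ) : ℝ) + 1))) atTop (𝓝 1) := by
  have h1 : Tendsto (fun m : ℕ => κ / ((m : ℝ) + 1)) atTop (𝓝 0) := by
    have := (tendsto_one_div_add_atTop_nhds_zero_nat (𝕜 := ℝ)).const_mul κ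
    simpa [div_eq_mul_inv] using this
  have h2 := h1.rexp
  rw [Real.exp_zero] at h2
  exact h2.comp (en_shift n)

theorem enU_le {n : ℕ} {v : ℝ} (hn : 2 * |v| + 1 ≤ n) :
    enU n v * wt v ≤ 2 / π * Real.exp (2 * (2 * (1 + |v|) / ((n : ℝ) + 1))) := by
  have hv := abs_nonneg v
  set κ := 2 * (1 + |v|) with hκ
  have hmono : Monotone (fun k : ℕ => Real.exp (-(2 * κ) / (((n + k : ℕ) : ℝ) + 1)) *
      (enU (n + k) v * wt v)) := by
    apply monotone_nat_of_le_succ
    intro k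
    have hc := en_cond hn k
    have hstep := enU_step hc
    have hU := enU_nonneg hc
    rw [show n + (k + 1) = (n + k) + 1 by ring, en_inv]
    set m := n + k
    set ε := κ / (((m : ℝ) + 1) * ((m : ℝ) + 2)) with hε
    have hε0 : 0 ≤ ε := by rw [hε]; positivity
    have hε1 : ε ≤ 1 / 2 := by
      rw [hε, div_le_div_iff₀ (by positivity) (by norm_num)]
      have : (0 : ℝ) ≤ m := Nat.cast_nonneg m
      nlinarith
    have e1 : -(2 * κ) / ((m : ℝ) + 1) - -(2 * κ) / (((m : ℝ) + 1) * ((m : ℝ) + 2)) =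
        -(2 * κ) / ((m : ℝ) + 1) + 2 * ε := by rw [hε]; ring
    rw [e1, Real.exp_add, mul_assoc]
    apply mul_le_mul_of_nonneg_left _ (Real.exp_pos _).le
    have h1 : (1 - ε) * enU m v ≤ enU (m + 1) v := by
      have := (abs_le.mp hstep).1
      nlinarith
    have h2 : 1 + 2 * ε ≤ Real.exp (2 * ε) := by
      have := Real.add_one_le_exp (2 * ε)
      linarith
    have h3 : enU m v ≤ Real.exp (2 * ε) * enU (m + 1) v := by
      calc enU m v ≤ (1 + 2 * ε) * ((1 - ε) * enU m v) := by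
            have : 0 ≤ ε * (1 - 2 * ε) * enU m v := by
              apply mul_nonneg (mul_nonneg hε0 (by linarith)) hU
            nlinarith
        _ ≤ Real.exp (2 * ε) * enU (m + 1) v := by
            apply mul_le_mul h2 h1 (mul_nonneg (by linarith) hU) (Real.exp_pos _).le
    calc enU m v * wt v ≤ (Real.exp (2 * ε) * enU (m + 1) v) * wt v :=
          mul_le_mul_of_nonneg_right h3 (wt_pos v).le
      _ = _ := by ring
  have hlim : Tendsto (fun k : ℕ => Real.exp (-(2 * κ) / (((n + k : ℕ) : ℝ) + 1)) *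
      (enU (n + k) v * wt v)) atTop (𝓝 (1 * (2 / π))) := by
    apply (en_exp_lim _ n).mul
    exact (enU_lim v).comp (en_shift n)
  have h := hmono.ge_of_tendsto hlim 0
  rw [add_zero, one_mul] at h
  calc enU n v * wt v = Real.exp (2 * (κ / ((n : ℝ) + 1))) *
        (Real.exp (-(2 * κ) / ((n : ℝ) + 1)) * (enU n v * wt v)) := by
        rw [← mul_assoc, ← Real.exp_add]
        have : 2 * (κ / ((n : ℝ) + 1)) + -(2 * κ) / ((n : ℝ) + 1) = 0 := by ring
        rw [this, Real.exp_zero, one_mul]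
    _ ≤ Real.exp (2 * (κ / ((n : ℝ) + 1))) * (2 / π) :=
        mul_le_mul_of_nonneg_left h (Real.exp_pos _).le
    _ = _ := by ring

theorem enU_ge {n : ℕ} {v : ℝ} (hn : 2 * |v| + 1 ≤ n) :
    2 / π * Real.exp (-(2 * (1 + |v|) / ((n : ℝ) + 1))) ≤ enU n v * wt v := by
  have hv := abs_nonneg v
  set κ := 2 * (1 + |v|) with hκ
  have hmono : Antitone (fun k : ℕ => Real.exp (κ / (((n + k : ℕ) : ℝ) + 1)) *
      (enU (n + k) v * wt v)) := by
    apply antitone_nat_of_succ_le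
    intro k
    have hc := en_cond hn k
    have hstep := enU_step hc
    have hU := enU_nonneg hc
    rw [show n + (k + 1) = (n + k) + 1 by ring, en_inv]
    set m := n + k
    set ε := κ / (((m : ℝ) + 1) * ((m : ℝ) + 2)) with hε
    have hε0 : 0 ≤ ε := by rw [hε]; positivity
    rw [sub_eq_add_neg, Real.exp_add, mul_assoc]
    apply mul_le_mul_of_nonneg_left _ (Real.exp_pos _).le
    have h1 : enU (m + 1) v ≤ (1 + ε) * enU m v := by
      have := (abs_le.mp hstep).2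
      nlinarith
    have h2 : 1 + ε ≤ Real.exp ε := by
      have := Real.add_one_le_exp ε
      linarith
    have h3 : Real.exp (-ε) * enU (m + 1) v ≤ enU m v := by
      calc Real.exp (-ε) * enU (m + 1) v ≤ Real.exp (-ε) * (Real.exp ε * enU m v) := by
            apply mul_le_mul_of_nonneg_left _ (Real.exp_pos _).le
            exact h1.trans (mul_le_mul_of_nonneg_right h2 hU)
        _ = enU m v := by
            rw [← mul_assoc, ← Real.exp_add, neg_add_cancel, Real.exp_zero, one_mul]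
    calc Real.exp (-ε) * (enU (m + 1) v * wt v) = (Real.exp (-ε) * enU (m + 1) v) * wt v := by ring
      _ ≤ _ := mul_le_mul_of_nonneg_right h3 (wt_pos v).le
  have hlim : Tendsto (fun k : ℕ => Real.exp (κ / (((n + k : ℕ) : ℝ) + 1)) *
      (enU (n + k) v * wt v)) atTop (𝓝 (1 * (2 / π))) := by
    apply (en_exp_lim _ n).mul
    exact (enU_lim v).comp (en_shift n)
  have h := hmono.le_of_tendsto hlim 0
  rw [add_zero, one_mul] at h
  calc 2 / π * Real.exp (-(κ / ((n : ℝ) + 1))) ≤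
        (Real.exp (κ / ((n : ℝ) + 1)) * (enU n v * wt v)) * Real.exp (-(κ / ((n : ℝ) + 1))) :=
        mul_le_mul_of_nonneg_right h (Real.exp_pos _).le
    _ = (Real.exp (κ / ((n : ℝ) + 1)) * Real.exp (-(κ / ((n : ℝ) + 1)))) * (enU n v * wt v) := by
        ring
    _ = _ := by rw [← Real.exp_add, add_neg_cancel, Real.exp_zero, one_mul]

theorem en_two_pi : 2 / π ≤ 2 / 3 := by
  apply div_le_div_of_nonneg_left (by norm_num) (by norm_num)
  exact Real.pi_gt_three.le

theorem en_exp_two : Real.exp 2 ≤ 8 := by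
  have h : Real.exp 2 = Real.exp 1 * Real.exp 1 := by rw [← Real.exp_add]; norm_num
  rw [h]
  have h1 := Real.exp_one_lt_d9
  have h0 := Real.exp_pos 1
  nlinarith

theorem en_ratio {n : ℕ} {v : ℝ} (hn : 2 * |v| + 1 ≤ n) :
    0 ≤ 2 * (1 + |v|) / ((n : ℝ) + 1) ∧ 2 * (1 + |v|) / ((n : ℝ) + 1) ≤ 1 := by
  have hv := abs_nonneg v
  constructor
  · positivity
  · rw [div_le_one (by positivity)]
    linarith

theorem enS_le {n : ℕ} {v : ℝ} (hn : 2 * |v| + 1 ≤ n) :
    ((n : ℝ) + 1) * enS n v * wt v ≤ 11 := by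
  have h1 := enU_lower hn
  have h2 := enU_le hn
  have h3 := en_ratio hn
  have hn1 : (0 : ℝ) < (n : ℝ) + 1 := by positivity
  have hw := wt_pos v
  have h4 : Real.exp (2 * (2 * (1 + |v|) / ((n : ℝ) + 1))) ≤ 8 := by
    refine le_trans (Real.exp_le_exp.mpr ?_) en_exp_two
    linarith [h3.2]
  have h5 : enU n v * wt v ≤ 2 / 3 * 8 := by
    refine h2.trans (mul_le_mul en_two_pi h4 (Real.exp_pos _).le (by norm_num))
  calc ((n : ℝ) + 1) * enS n v * wt v ≤ ((n : ℝ) + 1) * (2 / ((n : ℝ) + 1) * enU n v) * wt v := by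
        apply mul_le_mul_of_nonneg_right _ hw.le
        exact mul_le_mul_of_nonneg_left h1 hn1.le
    _ = 2 * (enU n v * wt v) := by field_simp
    _ ≤ 11 := by linarith

theorem mp_sq_bound : ∃ C : ℝ, 0 < C ∧ ∀ (n : ℕ) (v : ℝ), 2 * |v| + 1 ≤ n →
    ((n : ℝ) + 1) * ((mp (n + 1) v) ^ 2 + (mp n v) ^ 2) * wt v ≤ C :=
  ⟨11, by norm_num, fun _ _ hn => enS_le hn⟩

theorem enU_asym {n : ℕ} {v : ℝ} (hn : 2 * |v| + 1 ≤ n) :
    |enU n v * wt v - 2 / π| ≤ 22 * (1 + |v|) / ((n : ℝ) + 1) := by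
  have h1 := enU_le hn
  have h2 := enU_ge hn
  have h3 := en_ratio hn
  have hv := abs_nonneg v
  have hn1 : (0 : ℝ) < (n : ℝ) + 1 := by positivity
  set x := 2 * (1 + |v|) / ((n : ℝ) + 1) with hx
  have e : 22 * (1 + |v|) / ((n : ℝ) + 1) = 11 * x := by rw [hx]; ring
  rw [e]
  have hpi := en_two_pi
  have hpi0 : 0 < 2 / π := by positivity
  -- exp (2x) - 1 ≤ 16 x
  have h4 : Real.exp (2 * x) - 1 ≤ 16 * x := by
    have h5 : 1 - 2 * x ≤ Real.exp (-(2 * x)) := by
      have := Real.add_one_le_exp (-(2 * x)); linarith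
    have h6 : Real.exp (2 * x) ≤ 8 :=
      le_trans (Real.exp_le_exp.mpr (by linarith [h3.2])) en_exp_two
    have h7 : Real.exp (2 * x) * Real.exp (-(2 * x)) = 1 := by
      rw [← Real.exp_add, add_neg_cancel, Real.exp_zero]
    have h8 : Real.exp (2 * x) * (1 - 2 * x) ≤ 1 := by
      calc Real.exp (2 * x) * (1 - 2 * x) ≤ Real.exp (2 * x) * Real.exp (-(2 * x)) :=
            mul_le_mul_of_nonneg_left h5 (Real.exp_pos _).le
        _ = 1 := h7
    nlinarith [h3.1]
  have h9 : 1 - Real.exp (-x) ≤ x := by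
    have := Real.add_one_le_exp (-x); linarith
  rw [abs_le]
  constructor
  · nlinarith [h3.1]
  · have : enU n v * wt v - 2 / π ≤ 2 / π * (16 * x) := by nlinarith
    nlinarith [h3.1]

theorem mp_sq_asym : ∃ C : ℝ, 0 < C ∧ ∀ (n : ℕ) (v : ℝ), 2 * |v| + 1 ≤ n →
    |((n : ℝ) + 1) * ((mp (n + 1) v) ^ 2 + (mp n v) ^ 2) * wt v - 2 / π| ≤
      C * (1 + |v|) / (n + 1) := by
  refine ⟨33, by norm_num, fun n v hn => ?_⟩
  have h1 := enU_asym hn
  have h2 := enS_le hn
  have h3 := en_cross n v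
  have hw := wt_pos v
  have hn1 : (0 : ℝ) < (n : ℝ) + 1 := by positivity
  have hv := abs_nonneg v
  have e : ((n : ℝ) + 1) * ((mp (n + 1) v) ^ 2 + (mp n v) ^ 2) * wt v - 2 / π =
      (enU n v * wt v - 2 / π) + enX n v * wt v := by
    unfold enU enS; ring
  rw [e]
  have h4 : |enX n v * wt v| ≤ 11 * (1 + |v|) / ((n : ℝ) + 1) := by
    rw [abs_mul, abs_of_pos hw, le_div_iff₀ hn1]
    calc |enX n v| * wt v * ((n : ℝ) + 1) ≤ ((1 + |v|) * enS n v) * wt v * ((n : ℝ) + 1) := by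
          apply mul_le_mul_of_nonneg_right _ hn1.le
          exact mul_le_mul_of_nonneg_right h3 hw.le
      _ = (1 + |v|) * (((n : ℝ) + 1) * enS n v * wt v) := by ring
      _ ≤ (1 + |v|) * 11 := mul_le_mul_of_nonneg_left h2 (by positivity)
      _ = _ := by ring
  calc |(enU n v * wt v - 2 / π) + enX n v * wt v| ≤
        |enU n v * wt v - 2 / π| + |enX n v * wt v| := abs_add_le _ _
    _ ≤ 22 * (1 + |v|) / ((n : ℝ) + 1) + 11 * (1 + |v|) / ((n : ℝ) + 1) := add_le_add h1 h4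
    _ = _ := by ring

end OneArm
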