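import Pool.Agent.Helper82.OneArm.Sech
import Pool.Agent.Helper82.OneArm.GFun

/-! Module Kernel: Fourier transform of `gf θ * wt` is (a gauge factor times) `kf θ`. -/

open Real MeasureTheory Filter Topology

namespace OneArm

/-- trigonometric identity behind the kernel -/
theorem ke_trig (θ τ : ℝ) :
    Complex.exp (Complex.I * (θ / 2)) * Complex.cos (π / 6 - Complex.I * (τ / 3)) +
      Complex.exp (-(Complex.I * (θ / 2))) * Complex.cos (π / 6 + Complex.I * (τ / 3)) =
    ((Real.sin (π / 3 + θ / 2) * Real.exp (-(2 * τ / 3) / 2) +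
      Real.sin (π / 3 - θ / 2) * Real.exp (-(-(2 * τ / 3)) / 2) : ℝ) : ℂ) := by
  have hc6 : Complex.cos (π / 6) = ((√3 / 2 : ℝ) : ℂ) := by
    rw [← Real.cos_pi_div_six]; push_cast; rfl
  have hs6 : Complex.sin (π / 6) = ((1 / 2 : ℝ) : ℂ) := by
    rw [← Real.sin_pi_div_six]; push_cast; rfl
  have hs3 : Real.sin (π / 3) = √3 / 2 := Real.sin_pi_div_three
  have hc3 : Real.cos (π / 3) = 1 / 2 := Real.cos_pi_div_three
  have e1 : Complex.I * ((τ : ℂ) / 3) = (τ / 3 : ℂ) * Complex.I := by ring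
  have e2 : Complex.I * ((θ : ℂ) / 2) = (θ / 2 : ℂ) * Complex.I := by ring
  have e3 : -(2 * τ / 3) / 2 = -(τ / 3) := by ring
  have e4 : -(-(2 * τ / 3)) / 2 = τ / 3 := by ring
  rw [e1, e2, ← neg_mul, Complex.exp_mul_I, Complex.exp_mul_I, Complex.cos_neg, Complex.sin_neg,
    Complex.cos_sub, Complex.cos_add, Complex.cos_mul_I, Complex.sin_mul_I, hc6, hs6, e3, e4,
    Real.sin_add, Real.sin_sub, hs3, hc3]
  have h5 : (Real.exp (-(τ / 3)) : ℂ) = Complex.cosh (τ / 3) - Complex.sinh (τ / 3) := by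
    rw [Complex.cosh_sub_sinh]; push_cast; rfl
  have h6 : (Real.exp (τ / 3) : ℂ) = Complex.cosh (τ / 3) + Complex.sinh (τ / 3) := by
    rw [Complex.cosh_add_sinh]; push_cast; rfl
  rw [Complex.ofReal_add, Complex.ofReal_mul, Complex.ofReal_mul, h5, h6]
  push_cast
  have hI : Complex.I * Complex.I = -1 := Complex.I_mul_I
  linear_combination (Complex.sin (θ / 2) * Complex.sinh (τ / 3)) * hI

/-- the product of the two cosines -/
theorem ke_prod (τ : ℝ) :
    Complex.cos (π / 6 - Complex.I * (τ / 3)) * Complex.cos (π / 6 + Complex.I * (τ / 3)) =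
    (((1 + 2 * Real.cosh (-(2 * τ / 3))) / 4 : ℝ) : ℂ) := by
  have hc6 : Complex.cos (π / 6) = ((√3 / 2 : ℝ) : ℂ) := by
    rw [← Real.cos_pi_div_six]; push_cast; rfl
  have hs6 : Complex.sin (π / 6) = ((1 / 2 : ℝ) : ℂ) := by
    rw [← Real.sin_pi_div_six]; push_cast; rfl
  have e1 : Complex.I * ((τ : ℂ) / 3) = (τ / 3 : ℂ) * Complex.I := by ring
  have h3 : ((√3 : ℝ) : ℂ) ^ 2 = 3 := by
    rw [← Complex.ofReal_pow, Real.sq_sqrt (by norm_num)]; norm_num
  have hcs := Complex.cosh_sq_sub_sinh_sq ((τ : ℂ) / 3)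
  rw [e1, Complex.cos_sub, Complex.cos_add, Complex.cos_mul_I, Complex.sin_mul_I, hc6, hs6,
    Real.cosh_neg, show 2 * τ / 3 = 2 * (τ / 3) by ring, Real.cosh_two_mul]
  push_cast
  have hI : Complex.I ^ 2 = -1 := Complex.I_sq
  linear_combination (Complex.cosh (τ / 3) ^ 2 / 4) * h3 -
    (Complex.sinh (τ / 3) ^ 2 / 4) * hI + (1 / 4 : ℂ) * hcs

theorem ke_alg (E P Q n1 n2 : ℂ) (h1 : n1 ≠ 0) (h2 : n2 ≠ 0) :
    E * P / n2 + E * Q / n1 = E * ((P * n1 + Q * n2) / (n1 * n2)) := by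
  field_simp

theorem ke_alg2 (T A B X Y e1 e2 : ℂ) (hX : X ≠ 0) (hY : Y ≠ 0) :
    T * ((A * e1 + B * e2) * X / Y) * X⁻¹ = A * (T * e1 / Y) + B * (T * e2 / Y) := by
  field_simp

theorem kernel_fourier {θ : ℝ} (hθ : θ ∈ Set.Icc (π / 3) (π / 2)) (τ : ℝ) :
    ∫ v : ℝ, Complex.exp (Complex.I * τ * v) * gf θ v * wt v =
      ((8 / 3 * Real.exp (θ * τ / (2 * π)) * kf θ (-(2 * τ / 3)) : ℝ) : ℂ) := by
  have hpi : (π : ℂ) ≠ 0 := by exact_mod_cast Real.pi_ne_zero
  have hpos := Real.pi_pos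
  set b : ℝ := 3 * θ / 4 with hb
  have hb2 : |b| < π / 2 := by
    rw [abs_lt, hb]
    constructor <;> linarith [hθ.1, hθ.2]
  set c1 : ℂ := 2 * Complex.I * τ / 3 + π / 3 with hc1
  set c2 : ℂ := 2 * Complex.I * τ / 3 - π / 3 with hc2
  have hre : (2 * Complex.I * τ / 3 : ℂ).re = 0 := by
    have : (2 * Complex.I * τ / 3 : ℂ) = ((2 * τ / 3 : ℝ) : ℂ) * Complex.I := by push_cast; ring
    rw [this, Complex.re_ofReal_mul, Complex.I_re, mul_zero]
  have hre3 : (π / 3 : ℂ).re = π / 3 := by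
    have : (π / 3 : ℂ) = ((π / 3 : ℝ) : ℂ) := by push_cast; rfl
    rw [this, Complex.ofReal_re]
  have hc1r : |c1.re| < π := by
    rw [hc1, Complex.add_re, hre, hre3, zero_add, abs_of_pos (by positivity)]
    linarith
  have hc2r : |c2.re| < π := by
    rw [hc2, Complex.sub_re, hre, hre3, zero_sub, abs_neg, abs_of_pos (by positivity)]
    linarith
  -- the integrand after the substitution `v = 2 u / 3`
  set f : ℝ → ℂ := fun v => Complex.exp (Complex.I * τ * v) * gf θ v * wt v with hf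
  have hsub : ∫ v, f v = (2 / 3 : ℝ) • ∫ u, f (2 / 3 * u) := by
    have := Measure.integral_comp_mul_left f (2 / 3 : ℝ)
    rw [this, smul_smul, abs_of_pos (by norm_num)]
    norm_num
  have hfu : ∀ u : ℝ, f (2 / 3 * u) = Complex.exp (Complex.I * b) * seF c1 b u +
      Complex.exp (-(Complex.I * b)) * seF c2 b u := by
    intro u
    have hne := se_cosh_ne' hb2 u
    have hch : (Real.cosh (π * (2 / 3 * u)) : ℂ) ≠ 0 := by
      exact_mod_cast (Real.cosh_pos _).ne'
    rw [hf]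
    simp only
    unfold gf wt seF
    have a1 : (π : ℂ) * ((2 / 3 * u : ℝ) : ℂ) / 2 + (3 * θ / 4 : ℝ) * Complex.I =
        π * u / 3 + b * Complex.I := by rw [hb]; push_cast; ring
    have a2 : 3 * (π : ℂ) * ((2 / 3 * u : ℝ) : ℂ) / 2 + (3 * θ / 4 : ℝ) * Complex.I =
        π * u + b * Complex.I := by rw [hb]; push_cast; ring
    have a3 : Complex.cosh ((π : ℂ) * ((2 / 3 * u : ℝ) : ℂ)) =
        (Real.cosh (π * (2 / 3 * u)) : ℂ) := by push_cast; rfl
    rw [a1, a2, a3, Complex.ofReal_inv]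
    have a4 : 2 * Complex.cosh (π * u / 3 + b * Complex.I) =
        Complex.exp (Complex.I * b) * Complex.exp (π * u / 3) +
        Complex.exp (-(Complex.I * b)) * Complex.exp (-(π * u / 3)) := by
      rw [Complex.cosh, ← Complex.exp_add, ← Complex.exp_add]
      have b1 : Complex.I * b + π * u / 3 = π * u / 3 + b * Complex.I := by ring
      have b2 : -(Complex.I * b) + -(π * u / 3) = -(π * u / 3 + b * Complex.I) := by ring
      rw [b1, b2]
      ring
    have a5 : Complex.exp (c1 * u) = Complex.exp (Complex.I * τ * ((2 / 3 * u : ℝ) : ℂ)) *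
        Complex.exp (π * u / 3) := by
      rw [← Complex.exp_add, hc1]; congr 1; push_cast; ring
    have a6 : Complex.exp (c2 * u) = Complex.exp (Complex.I * τ * ((2 / 3 * u : ℝ) : ℂ)) *
        Complex.exp (-(π * u / 3)) := by
      rw [← Complex.exp_add, hc2]; congr 1; push_cast; ring
    rw [a4, a5, a6]
    exact ke_alg2 _ _ _ _ _ _ _ hch hne
  have hI1 := sech_shift c1 hc1r b hb2
  have hI2 := sech_shift c2 hc2r b hb2
  have hint : ∫ u, f (2 / 3 * u) = Complex.exp (Complex.I * b) *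
      (Complex.exp (-(Complex.I * c1 * b / π)) / Complex.cos (c1 / 2)) +
      Complex.exp (-(Complex.I * b)) *
      (Complex.exp (-(Complex.I * c2 * b / π)) / Complex.cos (c2 / 2)) := by
    rw [integral_congr_ae (Eventually.of_forall hfu), integral_add
      ((se_integrableF c1 hc1r hb2).const_mul _) ((se_integrableF c2 hc2r hb2).const_mul _),
      integral_const_mul, integral_const_mul]
    rw [← hI1, ← hI2]
    rfl
  have hE : (Real.exp (θ * τ / (2 * π)) : ℂ) = Complex.exp (θ * τ / (2 * π)) := by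
    push_cast; rfl
  have g1 : Complex.exp (Complex.I * b) * Complex.exp (-(Complex.I * c1 * b / π)) =
      Complex.exp (θ * τ / (2 * π)) * Complex.exp (Complex.I * (θ / 2)) := by
    rw [← Complex.exp_add, ← Complex.exp_add]
    congr 1
    rw [hc1, hb]
    push_cast
    have hI : Complex.I ^ 2 = -1 := Complex.I_sq
    field_simp
    linear_combination (-(4 * θ * τ) : ℂ) * hI
  have g2 : Complex.exp (-(Complex.I * b)) * Complex.exp (-(Complex.I * c2 * b / π)) =
      Complex.exp (θ * τ / (2 * π)) * Complex.exp (-(Complex.I * (θ / 2))) := by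
    rw [← Complex.exp_add, ← Complex.exp_add]
    congr 1
    rw [hc2, hb]
    push_cast
    have hI : Complex.I ^ 2 = -1 := Complex.I_sq
    field_simp
    linear_combination (-(4 * θ * τ) : ℂ) * hI
  have k1 : Complex.cos (c1 / 2) = Complex.cos (π / 6 + Complex.I * (τ / 3)) := by
    congr 1; rw [hc1]; ring
  have k2 : Complex.cos (c2 / 2) = Complex.cos (π / 6 - Complex.I * (τ / 3)) := by
    rw [← Complex.cos_neg]; congr 1; rw [hc2]; ring
  have hprod := ke_prod τ
  have htrig := ke_trig θ τ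
  have hDpos : (0 : ℝ) < 1 + 2 * Real.cosh (-(2 * τ / 3)) := by
    have := Real.cosh_pos (-(2 * τ / 3)); positivity
  have hDne : (((1 + 2 * Real.cosh (-(2 * τ / 3))) / 4 : ℝ) : ℂ) ≠ 0 := by
    rw [Ne, Complex.ofReal_eq_zero]
    positivity
  rw [← hprod] at hDne
  have hn1 : Complex.cos (π / 6 - Complex.I * (τ / 3)) ≠ 0 := left_ne_zero_of_mul hDne
  have hn2 : Complex.cos (π / 6 + Complex.I * (τ / 3)) ≠ 0 := right_ne_zero_of_mul hDne
  rw [hsub, hint, k1, k2]
  have step : Complex.exp (Complex.I * b) *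
      (Complex.exp (-(Complex.I * c1 * b / π)) / Complex.cos (π / 6 + Complex.I * (τ / 3))) +
      Complex.exp (-(Complex.I * b)) *
      (Complex.exp (-(Complex.I * c2 * b / π)) / Complex.cos (π / 6 - Complex.I * (τ / 3))) =
      Complex.exp (θ * τ / (2 * π)) *
      (((Real.sin (π / 3 + θ / 2) * Real.exp (-(2 * τ / 3) / 2) +
      Real.sin (π / 3 - θ / 2) * Real.exp (-(-(2 * τ / 3)) / 2) : ℝ) : ℂ) /
      (((1 + 2 * Real.cosh (-(2 * τ / 3))) / 4 : ℝ) : ℂ)) := by
    have s1 : Complex.exp (Complex.I * b) *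
        (Complex.exp (-(Complex.I * c1 * b / π)) / Complex.cos (π / 6 + Complex.I * (τ / 3))) =
        (Complex.exp (θ * τ / (2 * π)) * Complex.exp (Complex.I * (θ / 2))) /
          Complex.cos (π / 6 + Complex.I * (τ / 3)) := by
      rw [← g1]; ring
    have s2 : Complex.exp (-(Complex.I * b)) *
        (Complex.exp (-(Complex.I * c2 * b / π)) / Complex.cos (π / 6 - Complex.I * (τ / 3))) =
        (Complex.exp (θ * τ / (2 * π)) * Complex.exp (-(Complex.I * (θ / 2)))) /
          Complex.cos (π / 6 - Complex.I * (τ / 3)) := by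
      rw [← g2]; ring
    rw [s1, s2, ← htrig, ← hprod]
    exact ke_alg _ _ _ _ _ hn1 hn2
  rw [step, Complex.real_smul]
  unfold kf
  rw [← hE]
  have hD2 : ((1 + 2 * Real.cosh (-(2 * τ / 3)) : ℝ) : ℂ) ≠ 0 := by
    rw [Ne, Complex.ofReal_eq_zero]
    exact hDpos.ne'
  rw [← Complex.ofReal_div, ← Complex.ofReal_mul, ← Complex.ofReal_mul]
  congr 1
  field_simp
  ring

end OneArm
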