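import Pool.Agent.Helper82.OneArm.Sech

/-! Module Rep: `P_n(v) sech(π v) = (i^n / 2π) ∫ sech(r/2) tanh(r/2)^n e^{-ivr} dr`,
orthonormality, and the asymptotics for fixed `v`. -/

open Real MeasureTheory Filter Topology Set

namespace OneArm

/-! ### hyperbolic functions -/

theorem rp_normSq_cosh (x y : ℝ) : Complex.normSq (Complex.cosh (x + y * Complex.I)) =
    Real.cosh x ^ 2 - Real.sin y ^ 2 := by
  have h : Complex.cosh (x + y * Complex.I) = ((Real.cosh x * Real.cos y : ℝ) : ℂ) +
      ((Real.sinh x * Real.sin y : ℝ) : ℂ) * Complex.I := by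
    rw [Complex.cosh_add, Complex.cosh_mul_I, Complex.sinh_mul_I]
    push_cast
    ring
  rw [h, Complex.normSq_add_mul_I]
  have h1 := Real.cosh_sq x
  have h2 := Real.sin_sq_add_cos_sq y
  have h3 : Real.cos y ^ 2 = 1 - Real.sin y ^ 2 := by linarith
  have h4 : Real.sinh x ^ 2 = Real.cosh x ^ 2 - 1 := by linarith
  rw [mul_pow, mul_pow, h3, h4]
  ring

theorem rp_normSq_sinh (x y : ℝ) : Complex.normSq (Complex.sinh (x + y * Complex.I)) =
    Real.sinh x ^ 2 + Real.sin y ^ 2 := by
  have h : Complex.sinh (x + y * Complex.I) = ((Real.sinh x * Real.cos y : ℝ) : ℂ) +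
      ((Real.cosh x * Real.sin y : ℝ) : ℂ) * Complex.I := by
    rw [Complex.sinh_add, Complex.cosh_mul_I, Complex.sinh_mul_I]
    push_cast
    ring
  rw [h, Complex.normSq_add_mul_I]
  have h1 := Real.cosh_sq x
  have h2 := Real.sin_sq_add_cos_sq y
  have h3 : Real.cos y ^ 2 = 1 - Real.sin y ^ 2 := by linarith
  rw [mul_pow, mul_pow, h3, h1]
  ring

theorem rp_exp_abs_le_two_cosh (x : ℝ) : Real.exp |x| ≤ 2 * Real.cosh x := by
  rw [← Real.cosh_abs x, Real.cosh_eq]
  have := Real.exp_pos (-|x|)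
  linarith

theorem rp_inv_cosh_le (x : ℝ) : (Real.cosh x)⁻¹ ≤ 2 * Real.exp (-|x|) := by
  rw [Real.exp_neg, inv_le_iff_one_le_mul₀ (Real.cosh_pos x)]
  have h1 := rp_exp_abs_le_two_cosh x
  have h2 := Real.exp_pos |x|
  rw [mul_assoc, mul_comm (Real.exp |x|)⁻¹, ← mul_assoc, ← div_eq_mul_inv, le_div_iff₀ h2]
  linarith

theorem rp_integrable_exp_neg_abs {a : ℝ} (ha : 0 < a) : Integrable (fun x : ℝ => Real.exp (-(a * |x|))) := by
  have h1 : IntegrableOn (fun x : ℝ => Real.exp (-(a * |x|))) (Ioi 0) := by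
    have := integrableOn_exp_mul_Ioi (a := -a) (by linarith) 0
    refine this.congr_fun (fun x hx => ?_) measurableSet_Ioi
    have hx' : (0 : ℝ) < x := hx
    simp only [abs_of_pos hx', neg_mul]
  have h2 : IntegrableOn (fun x : ℝ => Real.exp (-(a * |x|))) (Iic 0) := by
    have := integrableOn_exp_mul_Iic (a := a) ha 0
    refine this.congr_fun (fun x hx => ?_) measurableSet_Iic
    have hx' : x ≤ (0 : ℝ) := hx
    simp only [abs_of_nonpos hx', mul_neg, neg_neg]
  rw [← integrableOn_univ, ← Iic_union_Ioi (a := (0 : ℝ))]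
  exact h2.union h1

theorem rp_integral_exp_neg_abs {a : ℝ} (ha : 0 < a) : ∫ x : ℝ, Real.exp (-(a * |x|)) = 2 / a := by
  have h0 := rp_integrable_exp_neg_abs ha
  have : (fun x : ℝ => Real.exp (-(a * |x|))) = fun x => (fun y => Real.exp (-(a * y))) |x| := rfl
  rw [this, integral_comp_abs (f := fun y => Real.exp (-(a * y)))]
  have h1 : ∫ x in Ioi (0 : ℝ), Real.exp (-(a * x)) = 1 / a := by
    have := integral_exp_mul_Ioi (a := -a) (by linarith) 0
    simp only [neg_mul] at this
    rw [this]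
    simp
  rw [h1]
  ring

/-! ### shifting a contour -/

/-- moving the line of integration down by `b` -/
theorem rp_shift_integral {f : ℂ → ℂ} {b : ℝ} (hb : 0 ≤ b) {g : ℝ → ℝ} (hg : Integrable g)
    (hg1 : Tendsto g atTop (𝓝 0)) (hg2 : Tendsto g atBot (𝓝 0))
    (hd : ∀ z : ℂ, -b ≤ z.im → z.im ≤ 0 → DifferentiableAt ℂ f z)
    (hbd : ∀ x y : ℝ, -b ≤ y → y ≤ 0 → ‖f (x + y * Complex.I)‖ ≤ g x) :
    ∫ x : ℝ, f x = ∫ x : ℝ, f (x - b * Complex.I) := by
  have hcont : ∀ y : ℝ, -b ≤ y → y ≤ 0 → Continuous (fun x : ℝ => f (x + y * Complex.I)) := by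
    intro y h1 h2
    rw [continuous_iff_continuousAt]
    intro x
    have : ContinuousAt f (x + y * Complex.I) := by
      apply (hd _ _ _).continuousAt
      · simpa using h1
      · simpa using h2
    exact ContinuousAt.comp (f := fun x : ℝ => (x + y * Complex.I : ℂ)) this (by fun_prop)
  have hint : ∀ y : ℝ, -b ≤ y → y ≤ 0 → Integrable (fun x : ℝ => f (x + y * Complex.I)) := by
    intro y h1 h2
    exact hg.mono' (hcont y h1 h2).aestronglyMeasurable (Eventually.of_forall fun x => hbd x y h1 h2)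
  have h0 : Integrable (fun x : ℝ => f x) := by simpa using hint 0 (by linarith) le_rfl
  have hb' : Integrable (fun x : ℝ => f (x - b * Complex.I)) := by
    have := hint (-b) le_rfl (by linarith)
    simpa [sub_eq_add_neg] using this
  have hlim0 := intervalIntegral_tendsto_integral h0 tendsto_neg_atTop_atBot tendsto_id (μ := volume)
  have hlimb := intervalIntegral_tendsto_integral hb' tendsto_neg_atTop_atBot tendsto_id (μ := volume)
  have hrect : ∀ R : ℝ, (∫ x in (-R)..R, f (x - b * Complex.I)) - (∫ x in (-R)..R, f x) =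
      Complex.I • (∫ y in (-b)..0, f (((-R : ℝ) : ℂ) + y * Complex.I)) -
      Complex.I • ∫ y in (-b)..0, f ((R : ℂ) + y * Complex.I) := by
    intro R
    have h := Complex.integral_boundary_rect_eq_zero_of_differentiableOn f
      (((-R : ℝ) : ℂ) - b * Complex.I) (R : ℂ) (fun z hz => by
        apply (hd z _ _).differentiableWithinAt
        · have := (Complex.mem_reProdIm.mp hz).2
          simp only [Complex.sub_im, Complex.ofReal_im, Complex.mul_im, Complex.ofReal_re,
            Complex.I_im, mul_one, Complex.I_re, mul_zero, add_zero, zero_sub] at this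
          rw [uIcc_of_le (by linarith)] at this
          exact this.1
        · have := (Complex.mem_reProdIm.mp hz).2
          simp only [Complex.sub_im, Complex.ofReal_im, Complex.mul_im, Complex.ofReal_re,
            Complex.I_im, mul_one, Complex.I_re, mul_zero, add_zero, zero_sub] at this
          rw [uIcc_of_le (by linarith)] at this
          exact this.2)
    have e1 : (((-R : ℝ) : ℂ) - b * Complex.I).re = -R := by simp
    have e2 : (((-R : ℝ) : ℂ) - b * Complex.I).im = -b := by simp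
    rw [e1, e2, Complex.ofReal_re, Complex.ofReal_im] at h
    have e : ∀ x : ℝ, (x : ℂ) + ((-b : ℝ) : ℂ) * Complex.I = x - b * Complex.I := fun x => by
      push_cast; ring
    simp only [e, Complex.ofReal_zero, zero_mul, add_zero] at h
    linear_combination h
  have hside : ∀ s : ℝ → ℝ, Tendsto (fun R => g (s R)) atTop (𝓝 0) →
      Tendsto (fun R : ℝ => ∫ y in (-b)..0, f (((s R : ℝ) : ℂ) + y * Complex.I)) atTop (𝓝 0) := by
    intro s hs
    apply squeeze_zero_norm (a := fun R => g (s R) * |0 - -b|)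
    · intro R
      apply intervalIntegral.norm_integral_le_of_norm_le_const
      intro y hy
      rw [uIoc_of_le (by linarith)] at hy
      exact hbd _ _ hy.1.le hy.2
    · simpa using hs.mul_const |0 - -b|
  have h1 := hside (fun R => -R) (hg2.comp tendsto_neg_atTop_atBot)
  have h2 := hside (fun R => R) hg1
  have h3 : Tendsto (fun R : ℝ => (∫ x in (-R)..R, f (x - b * Complex.I)) - (∫ x in (-R)..R, f x))
      atTop (𝓝 (Complex.I • (0 : ℂ) - Complex.I • (0 : ℂ))) := by
    simp only [hrect]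
    exact (h1.const_smul _).sub (h2.const_smul _)
  have h4 := tendsto_nhds_unique h3 (hlimb.sub hlim0)
  simp only [smul_zero, sub_zero] at h4
  exact (sub_eq_zero.mp h4.symm).symm


/-! ### the functions `fn` -/

/-- `f_n(r) = i^n sech(r/2) tanh(r/2)^n` -/
noncomputable def fn (n : ℕ) (r : ℝ) : ℂ :=
  Complex.I ^ n * ((Real.cosh (r / 2))⁻¹ * (Real.tanh (r / 2)) ^ n : ℝ)

theorem rp_abs_tanh_le (x : ℝ) : |Real.tanh x| ≤ 1 := by
  rw [Real.tanh_eq_sinh_div_cosh, abs_div, abs_of_pos (Real.cosh_pos x), div_le_one (Real.cosh_pos x)]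
  rw [← abs_of_pos (Real.cosh_pos x)]
  apply sq_le_sq.mp
  have := Real.cosh_sq x
  linarith

theorem rp_fn_norm_le (n : ℕ) (r : ℝ) : ‖fn n r‖ ≤ 2 * Real.exp (-(1 / 2 * |r|)) := by
  unfold fn
  rw [norm_mul, norm_pow, Complex.norm_I, one_pow, one_mul, Complex.norm_real, Real.norm_eq_abs, abs_mul,
    abs_of_pos (inv_pos.mpr (Real.cosh_pos _)), abs_pow]
  have h1 := rp_inv_cosh_le (r / 2)
  have h2 : |Real.tanh (r / 2)| ^ n ≤ 1 := pow_le_one₀ (abs_nonneg _) (rp_abs_tanh_le _)
  have h3 : (0 : ℝ) ≤ |Real.tanh (r / 2)| ^ n := by positivity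
  have h4 : (0 : ℝ) < (Real.cosh (r / 2))⁻¹ := inv_pos.mpr (Real.cosh_pos _)
  have e : |r / 2| = 1 / 2 * |r| := by rw [abs_div, abs_two]; ring
  rw [e] at h1
  calc (Real.cosh (r / 2))⁻¹ * |Real.tanh (r / 2)| ^ n ≤ (Real.cosh (r / 2))⁻¹ * 1 :=
        mul_le_mul_of_nonneg_left h2 h4.le
    _ ≤ _ := by rw [mul_one]; exact h1

theorem rp_fn_continuous (n : ℕ) : Continuous (fn n) := by
  unfold fn
  have h : ∀ r : ℝ, Real.cosh (r / 2) ≠ 0 := fun r => (Real.cosh_pos _).ne'
  have h1 : Continuous fun r : ℝ => (Real.cosh (r / 2))⁻¹ := (by fun_prop : Continuous fun r : ℝ =>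
    Real.cosh (r / 2)).inv₀ h
  have h2 : Continuous fun r : ℝ => Real.tanh (r / 2) := by
    simp only [Real.tanh_eq_sinh_div_cosh]
    exact (by fun_prop : Continuous fun r : ℝ => Real.sinh (r / 2)).div (by fun_prop) h
  exact continuous_const.mul (Complex.continuous_ofReal.comp (h1.mul (h2.pow n)))

theorem fn_integrable (n : ℕ) : Integrable (fn n) := by
  refine Integrable.mono' ((rp_integrable_exp_neg_abs (a := 1 / 2) (by norm_num)).const_mul 2)
    (rp_fn_continuous n).aestronglyMeasurable (Eventually.of_forall fun r => rp_fn_norm_le n r)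

theorem rp_fn_exp_integrable (n : ℕ) (v : ℝ) :
    Integrable (fun r : ℝ => fn n r * Complex.exp (-(Complex.I * v * r))) := by
  refine Integrable.mono' ((rp_integrable_exp_neg_abs (a := 1 / 2) (by norm_num)).const_mul 2)
    ((rp_fn_continuous n).mul (by fun_prop)).aestronglyMeasurable (Eventually.of_forall fun r => ?_)
  rw [norm_mul]
  have : ‖Complex.exp (-(Complex.I * v * r))‖ = 1 := by
    have e : -(Complex.I * v * r) = ((-(v * r) : ℝ) : ℂ) * Complex.I := by push_cast; ring
    rw [e, Complex.norm_exp_ofReal_mul_I]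
  rw [this, mul_one]
  exact rp_fn_norm_le n r

theorem rp_hasDerivAt_core (n : ℕ) (r : ℝ) :
    HasDerivAt (fun r : ℝ => (Real.cosh (r / 2))⁻¹ * (Real.tanh (r / 2)) ^ (n + 1))
      (1 / 2 * ((n + 1) * ((Real.cosh (r / 2))⁻¹ * (Real.tanh (r / 2)) ^ n) -
        (n + 2) * ((Real.cosh (r / 2))⁻¹ * (Real.tanh (r / 2)) ^ (n + 2)))) r := by
  have hc : Real.cosh (r / 2) ≠ 0 := (Real.cosh_pos _).ne'
  have hdiv : HasDerivAt (fun r : ℝ => r / 2) (1 / 2) r := by
    simpa using (hasDerivAt_id r).div_const 2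
  have h1 : HasDerivAt (fun r : ℝ => Real.cosh (r / 2)) (Real.sinh (r / 2) * (1 / 2)) r := hdiv.cosh
  have h2 : HasDerivAt (fun r : ℝ => Real.sinh (r / 2)) (Real.cosh (r / 2) * (1 / 2)) r := hdiv.sinh
  have h3 := h2.div h1 hc
  have h4 := (h1.inv hc).mul (h3.pow (n + 1))
  have e : (fun r : ℝ => (Real.cosh (r / 2))⁻¹ * (Real.tanh (r / 2)) ^ (n + 1)) =
      fun r : ℝ => (Real.cosh (r / 2))⁻¹ * (Real.sinh (r / 2) / Real.cosh (r / 2)) ^ (n + 1) := by
    funext r; rw [Real.tanh_eq_sinh_div_cosh]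
  rw [e]
  refine h4.congr_deriv ?_
  have hsq := Real.cosh_sq (r / 2)
  rw [Real.tanh_eq_sinh_div_cosh]
  simp only [Pi.div_apply, Pi.inv_apply, Pi.pow_apply, add_tsub_cancel_right, Nat.cast_add, Nat.cast_one]
  set c := Real.cosh (r / 2)
  set s := Real.sinh (r / 2)
  have hs : c ^ 2 = s ^ 2 + 1 := hsq
  have hs' : c * c = s * s + 1 := by nlinarith
  rw [pow_succ (s / c) n, pow_succ (s / c) (n + 1), pow_succ (s / c) n]
  field_simp
  rw [show c ^ 2 = s ^ 2 + 1 from hs]
  ring

theorem rp_hasDerivAt_core_zero (r : ℝ) :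
    HasDerivAt (fun r : ℝ => (Real.cosh (r / 2))⁻¹ * (Real.tanh (r / 2)) ^ 0)
      (-(1 / 2) * ((Real.cosh (r / 2))⁻¹ * (Real.tanh (r / 2)) ^ 1)) r := by
  have hc : Real.cosh (r / 2) ≠ 0 := (Real.cosh_pos _).ne'
  have hdiv : HasDerivAt (fun r : ℝ => r / 2) (1 / 2) r := by
    simpa using (hasDerivAt_id r).div_const 2
  have h1 : HasDerivAt (fun r : ℝ => Real.cosh (r / 2)) (Real.sinh (r / 2) * (1 / 2)) r := hdiv.cosh
  have h4 := (h1.inv hc)
  simp only [pow_zero, mul_one, pow_one]
  refine h4.congr_deriv ?_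
  rw [Real.tanh_eq_sinh_div_cosh]
  field_simp

/-- `K n v` is the Fourier integral of `fn n` -/
noncomputable def rpK (n : ℕ) (v : ℝ) : ℂ := ∫ r : ℝ, fn n r * Complex.exp (-(Complex.I * v * r))

theorem rp_hasDerivAt_exp (v r : ℝ) :
    HasDerivAt (fun r : ℝ => Complex.exp (-(Complex.I * v * r)))
      (-(Complex.I * v) * Complex.exp (-(Complex.I * v * r))) r := by
  have h : HasDerivAt (fun r : ℝ => -(Complex.I * v * (r : ℂ))) (-(Complex.I * v)) r := by
    have := ((hasDerivAt_id r).ofReal_comp.const_mul (Complex.I * v)).fun_neg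
    simpa using this
  simpa [mul_comm] using h.cexp

theorem rpK_one (v : ℝ) : rpK 1 v = 2 * v * rpK 0 v := by
  have hderiv : ∀ r : ℝ, HasDerivAt (fun r : ℝ => fn 0 r * Complex.exp (-(Complex.I * v * r)))
      ((-(1 / 2) * -Complex.I) * (fn 1 r * Complex.exp (-(Complex.I * v * r))) +
        (-(Complex.I * v)) * (fn 0 r * Complex.exp (-(Complex.I * v * r)))) r := by
    intro r
    have h1 := (rp_hasDerivAt_core_zero r).ofReal_comp
    have h2 := h1.mul (rp_hasDerivAt_exp v r)
    have e : (fun r : ℝ => fn 0 r * Complex.exp (-(Complex.I * v * r))) =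
        ((fun r : ℝ => (((Real.cosh (r / 2))⁻¹ * (Real.tanh (r / 2)) ^ 0 : ℝ) : ℂ)) *
          fun r : ℝ => Complex.exp (-(Complex.I * v * r))) := by
      funext r; simp [fn]
    rw [e]
    refine h2.congr_deriv ?_
    simp only [fn]
    push_cast
    linear_combination (-(1 / 2) * (Complex.cosh (r / 2))⁻¹ * Complex.tanh (r / 2) *
      Complex.exp (-(Complex.I * v * r))) * Complex.I_sq
  have hint := (rp_fn_exp_integrable 1 v).const_mul (-(1 / 2) * -Complex.I)
  have hint' := (rp_fn_exp_integrable 0 v).const_mul (-(Complex.I * v))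
  have h := integral_eq_zero_of_hasDerivAt_of_integrable hderiv (hint.add hint') (rp_fn_exp_integrable 0 v)
  rw [integral_add hint hint', integral_const_mul, integral_const_mul] at h
  change (-(1 / 2) * -Complex.I) * rpK 1 v + (-(Complex.I * v)) * rpK 0 v = 0 at h
  have hI : Complex.I * Complex.I = -1 := Complex.I_mul_I
  linear_combination (-2 * Complex.I) * h + (rpK 1 v - 2 * v * rpK 0 v) * hI

theorem rpK_succ (n : ℕ) (v : ℝ) :
    ((n : ℂ) + 2) * rpK (n + 2) v = 2 * v * rpK (n + 1) v - ((n : ℂ) + 1) * rpK n v := by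
  have hderiv : ∀ r : ℝ, HasDerivAt (fun r : ℝ => fn (n + 1) r * Complex.exp (-(Complex.I * v * r)))
      ((1 / 2 * (n + 1) * Complex.I) * (fn n r * Complex.exp (-(Complex.I * v * r))) +
        (1 / 2 * (n + 2) * Complex.I) * (fn (n + 2) r * Complex.exp (-(Complex.I * v * r))) +
        (-(Complex.I * v)) * (fn (n + 1) r * Complex.exp (-(Complex.I * v * r)))) r := by
    intro r
    have h1 := ((rp_hasDerivAt_core n r).ofReal_comp).const_mul (Complex.I ^ (n + 1))
    have h2 := h1.mul (rp_hasDerivAt_exp v r)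
    refine h2.congr_deriv ?_
    simp only [fn]
    push_cast
    rw [pow_succ Complex.I n, pow_succ Complex.I (n + 1), pow_succ Complex.I n]
    linear_combination (-(1 / 2) * (n + 2) * Complex.I ^ n * Complex.I * (Complex.cosh (r / 2))⁻¹ *
      Complex.tanh (r / 2) ^ (n + 2) * Complex.exp (-(Complex.I * v * r))) * Complex.I_sq
  have hint := (rp_fn_exp_integrable n v).const_mul (1 / 2 * (n + 1) * Complex.I)
  have hint' := (rp_fn_exp_integrable (n + 2) v).const_mul (1 / 2 * (n + 2) * Complex.I)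
  have hint'' := (rp_fn_exp_integrable (n + 1) v).const_mul (-(Complex.I * v))
  have h := integral_eq_zero_of_hasDerivAt_of_integrable hderiv ((hint.add hint').add hint'')
    (rp_fn_exp_integrable (n + 1) v)
  have h' : (∫ r : ℝ, ((1 / 2 * (n + 1) * Complex.I) * (fn n r * Complex.exp (-(Complex.I * v * r))) +
        (1 / 2 * (n + 2) * Complex.I) * (fn (n + 2) r * Complex.exp (-(Complex.I * v * r))) +
        (-(Complex.I * v)) * (fn (n + 1) r * Complex.exp (-(Complex.I * v * r))))) =
      (1 / 2 * (n + 1) * Complex.I) * rpK n v + (1 / 2 * (n + 2) * Complex.I) * rpK (n + 2) v +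
        (-(Complex.I * v)) * rpK (n + 1) v := by
    have h12 : Integrable (fun r : ℝ => (1 / 2 * (n + 1) * Complex.I) * (fn n r *
        Complex.exp (-(Complex.I * v * r))) + (1 / 2 * (n + 2) * Complex.I) * (fn (n + 2) r *
        Complex.exp (-(Complex.I * v * r)))) := hint.add hint'
    rw [integral_add h12 hint'', integral_add hint hint', integral_const_mul,
      integral_const_mul, integral_const_mul]
    rfl
  rw [h'] at h
  have hI : Complex.I * Complex.I = -1 := Complex.I_mul_I
  linear_combination (-2 * Complex.I) * h + ((n + 1) * rpK n v + (n + 2) * rpK (n + 2) v -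
    2 * v * rpK (n + 1) v) * hI

theorem rpK_zero (v : ℝ) : rpK 0 v = ((2 * π * wt v : ℝ) : ℂ) := by
  have h := sech_laplace (-(2 * π * Complex.I * v)) (by simp [pi_pos])
  have h2 : rpK 0 v = (2 * π : ℝ) • ∫ x : ℝ, Complex.exp (-(2 * π * Complex.I * v) * x) * wt x := by
    have := MeasureTheory.Measure.integral_comp_mul_left
      (fun r : ℝ => fn 0 r * Complex.exp (-(Complex.I * v * r))) (2 * π)
    rw [abs_of_pos (by positivity)] at this
    unfold rpK
    have e : ∀ x : ℝ, fn 0 (2 * π * x) * Complex.exp (-(Complex.I * v * ((2 * π * x : ℝ) : ℂ))) =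
        Complex.exp (-(2 * π * Complex.I * v) * x) * wt x := by
      intro x
      simp only [fn, wt, pow_zero, one_mul, mul_one]
      rw [show 2 * π * x / 2 = π * x by ring]
      rw [mul_comm]
      congr 2
      push_cast
      ring
    simp only [e] at this
    rw [this, smul_smul]
    rw [mul_inv_cancel₀ (by positivity), one_smul]
  rw [h2, h]
  have e : -(2 * π * Complex.I * v) / 2 = -((π * v : ℝ) : ℂ) * Complex.I := by push_cast; ring
  rw [e, neg_mul, Complex.cos_neg, Complex.cos_mul_I, ← Complex.ofReal_cosh]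
  unfold wt
  rw [Complex.real_smul]
  push_cast
  rw [one_div]

theorem mp_rep (n : ℕ) (v : ℝ) :
    ((mp n v * wt v : ℝ) : ℂ) =
      (1 / (2 * π) : ℝ) * ∫ r : ℝ, fn n r * Complex.exp (-(Complex.I * v * r)) := by
  have key : ∀ n : ℕ, rpK n v = ((2 * π * (mp n v * wt v) : ℝ) : ℂ) := by
    intro n
    induction n using Nat.strong_induction_on with
    | _ n ih =>
      match n with
      | 0 => rw [rpK_zero]; simp [mp]
      | 1 =>
        rw [rpK_one, rpK_zero]
        simp only [mp]
        push_cast; ring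
      | n + 2 =>
        have h1 := rpK_succ n v
        rw [ih (n + 1) (by omega), ih n (by omega)] at h1
        have h2 := mp_rec n v
        have h3 : (n : ℂ) + 2 ≠ 0 := by
          have : ((n + 2 : ℕ) : ℂ) ≠ 0 := Nat.cast_ne_zero.mpr (by omega)
          simpa using this
        apply mul_left_cancel₀ h3
        rw [h1]
        have h4 : (((n : ℝ) + 2) * mp (n + 2) v : ℝ) = ((2 * v * mp (n + 1) v - ((n : ℝ) + 1) * mp n v : ℝ)) := h2
        have h5 : ((((n : ℝ) + 2) * mp (n + 2) v : ℝ) : ℂ) =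
          ((2 * v * mp (n + 1) v - ((n : ℝ) + 1) * mp n v : ℝ) : ℂ) := by rw [h4]
        push_cast at h5 ⊢
        linear_combination (-(2 * π * wt v : ℂ)) * h5
  have h := key n
  unfold rpK at h
  rw [h]
  push_cast
  have : (π : ℂ) ≠ 0 := by exact_mod_cast pi_ne_zero
  field_simp

theorem rp_mp_wt_integrable (n : ℕ) : Integrable (fun v : ℝ => mp n v * wt v) := by
  have h := integrable_real (u := fun _ => (1 : ℝ)) (M := 1) aestronglyMeasurable_const (by simp) n 0
  simpa [mp] using h

open FourierTransform in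
/-- via Fourier inversion at `0` and `mp_rep` -/
theorem mp_mean (n : ℕ) : ∫ v, mp n v * wt v = if n = 0 then 1 else 0 := by
  set f : ℝ → ℂ := fun x => fn n (2 * π * x) with hf
  have hF : 𝓕 f = fun v : ℝ => ((mp n v * wt v : ℝ) : ℂ) := by
    funext v
    rw [Real.fourier_real_eq_integral_exp_smul, mp_rep]
    have := MeasureTheory.Measure.integral_comp_mul_left
      (fun r : ℝ => fn n r * Complex.exp (-(Complex.I * v * r))) (2 * π)
    rw [abs_of_pos (by positivity)] at this
    rw [show ((1 / (2 * π) : ℝ) : ℂ) * ∫ r : ℝ, fn n r * Complex.exp (-(Complex.I * v * r)) =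
      (2 * π)⁻¹ • ∫ r : ℝ, fn n r * Complex.exp (-(Complex.I * v * r)) by
        rw [Complex.real_smul, one_div], ← this]
    apply integral_congr_ae
    filter_upwards with x
    simp only [hf, smul_eq_mul]
    rw [mul_comm]
    congr 2
    push_cast
    ring
  have hc : Continuous f := (rp_fn_continuous n).comp (by fun_prop)
  have hi : Integrable f := (fn_integrable n).comp_mul_left' (by positivity)
  have hFi : Integrable (𝓕 f) := by
    rw [hF]
    exact (rp_mp_wt_integrable n).ofReal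
  have h := congrFun (hc.fourierInv_fourier_eq hi hFi) 0
  rw [Real.fourierInv_eq', hF] at h
  simp only [inner_zero_right, mul_zero, Complex.ofReal_zero, zero_mul, Complex.exp_zero, one_smul] at h
  have h' : ((∫ v, mp n v * wt v : ℝ) : ℂ) = f 0 := by
    rw [← h]; exact (integral_ofReal (𝕜 := ℂ)).symm
  have h2 : f 0 = ((if n = 0 then 1 else 0 : ℝ) : ℂ) := by
    simp only [hf, fn, mul_zero, zero_div, Real.cosh_zero, inv_one, Real.tanh_zero, one_mul]
    split_ifs with h0
    · subst h0; simp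
    · rw [zero_pow h0]; simp
  rw [h2] at h'
  exact_mod_cast h'

theorem rp_int_mul (m n : ℕ) : Integrable (fun v : ℝ => mp m v * mp n v * wt v) := by
  have h := integrable_real (u := fun _ => (1 : ℝ)) (M := 1) aestronglyMeasurable_const (by simp) m n
  simpa using h

/-- Favard type induction from `mp_mean` and the recurrence -/
theorem mp_orth (m n : ℕ) : ∫ v, mp m v * mp n v * wt v = if m = n then 1 else 0 := by
  -- the symmetry relation
  have hsym : ∀ m n : ℕ, ((m : ℝ) + 2) * (∫ v, mp (m + 2) v * mp (n + 1) v * wt v) +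
      ((m : ℝ) + 1) * (∫ v, mp m v * mp (n + 1) v * wt v) =
      ((n : ℝ) + 2) * (∫ v, mp (m + 1) v * mp (n + 2) v * wt v) +
      ((n : ℝ) + 1) * (∫ v, mp (m + 1) v * mp n v * wt v) := by
    intro m n
    rw [← integral_const_mul, ← integral_const_mul, ← integral_const_mul, ← integral_const_mul,
      ← integral_add ((rp_int_mul _ _).const_mul _) ((rp_int_mul _ _).const_mul _),
      ← integral_add ((rp_int_mul _ _).const_mul _) ((rp_int_mul _ _).const_mul _)]
    congr 1
    funext v
    have h1 := mp_rec m v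
    have h2 := mp_rec n v
    linear_combination (mp (n + 1) v * wt v) * h1 - (mp (m + 1) v * wt v) * h2
  have hsym0 : ∀ m : ℕ, ((m : ℝ) + 2) * (∫ v, mp (m + 2) v * mp 0 v * wt v) +
      ((m : ℝ) + 1) * (∫ v, mp m v * mp 0 v * wt v) =
      ∫ v, mp (m + 1) v * mp 1 v * wt v := by
    intro m
    rw [← integral_const_mul, ← integral_const_mul,
      ← integral_add ((rp_int_mul _ _).const_mul _) ((rp_int_mul _ _).const_mul _)]
    congr 1
    funext v
    have h1 := mp_rec m v
    simp only [mp] at *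
    linear_combination (wt v) * h1
  have hcomm : ∀ m n : ℕ, ∫ v, mp m v * mp n v * wt v = ∫ v, mp n v * mp m v * wt v := by
    intro m n
    congr 1; funext v; ring
  have h0 : ∀ n : ℕ, ∫ v, mp 0 v * mp n v * wt v = if n = 0 then 1 else 0 := by
    intro n
    have := mp_mean n
    simpa [mp] using this
  -- row 1
  have h1 : ∀ n : ℕ, ∫ v, mp 1 v * mp n v * wt v = if n = 1 then 1 else 0 := by
    intro n
    match n with
    | 0 => rw [hcomm, h0]; simp
    | n + 1 =>
      have h := hsym0 n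
      rw [hcomm (n + 2) 0, hcomm n 0, h0, h0] at h
      rw [hcomm, ← h]
      by_cases hn : n = 0
      · subst hn; simp
      · simp [hn]
  have main : ∀ m : ℕ, (∀ n : ℕ, ∫ v, mp m v * mp n v * wt v = if m = n then 1 else 0) ∧
      (∀ n : ℕ, ∫ v, mp (m + 1) v * mp n v * wt v = if m + 1 = n then 1 else 0) := by
    intro m
    induction m with
    | zero =>
      refine ⟨fun n => ?_, fun n => ?_⟩
      · rw [h0]; simp [eq_comm]
      · rw [zero_add, h1]; simp [eq_comm]
    | succ m ih =>
      refine ⟨ih.2, fun n => ?_⟩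
      have hm2 : ((m : ℝ) + 2) ≠ 0 := by positivity
      match n with
      | 0 => rw [hcomm, h0]
      | n + 1 =>
        have h := hsym m n
        rw [ih.1, ih.2, ih.2] at h
        apply mul_left_cancel₀ hm2
        have h' : ((m : ℝ) + 2) * (∫ v, mp (m + 1 + 1) v * mp (n + 1) v * wt v) =
          ((n : ℝ) + 2) * (if m + 1 = n + 2 then 1 else 0) + ((n : ℝ) + 1) * (if m + 1 = n then 1 else 0) -
          ((m : ℝ) + 1) * (if m = n + 1 then 1 else 0) := by linarith
        rw [h']
        by_cases e1 : m = n + 1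
        · subst e1
          simp only [if_true]
          rw [if_neg (by omega), if_neg (by omega)]
          push_cast; ring
        · by_cases e2 : m + 1 = n
          · subst e2
            rw [if_neg (by omega), if_neg e1, if_pos rfl, if_pos rfl]
            push_cast
            ring
          · rw [if_neg (by omega), if_neg e2, if_neg e1, if_neg (by omega)]
            ring
  exact (main m).1 n

/-! ### uniform bound -/

theorem rp_wt_mul (v : ℝ) : wt v * Real.cosh (π * v) = 1 := inv_mul_cancel₀ (Real.cosh_pos _).ne'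

theorem rp_mp_neg (n : ℕ) (v : ℝ) : mp n (-v) = (-1) ^ n * mp n v := by
  induction n using Nat.strong_induction_on with
  | _ n ih =>
    match n with
    | 0 => simp [mp]
    | 1 => simp [mp]
    | n + 2 =>
      have h : (n + 2 : ℝ) ≠ 0 := by positivity
      have h1 := mp_rec n v
      have h2 := mp_rec n (-v)
      rw [ih (n + 1) (by omega), ih n (by omega)] at h2
      apply mul_left_cancel₀ h
      rw [h2]
      have : (n + 2 : ℝ) * ((-1) ^ (n + 2) * mp (n + 2) v) = (-1) ^ (n + 2) * ((n + 2 : ℝ) * mp (n + 2) v) := by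
        ring
      rw [this, h1]
      ring

/-- the complex version of `fn` times the exponential -/
noncomputable def rpf (n : ℕ) (v : ℝ) (z : ℂ) : ℂ :=
  Complex.I ^ n * ((Complex.cosh (z / 2))⁻¹ * (Complex.sinh (z / 2) / Complex.cosh (z / 2)) ^ n) *
    Complex.exp (-(Complex.I * v * z))

theorem rp_cosh_half_normSq (x y : ℝ) : Complex.normSq (Complex.cosh ((x + y * Complex.I) / 2)) =
    Real.cosh (x / 2) ^ 2 - Real.sin (y / 2) ^ 2 := by
  have := rp_normSq_cosh (x / 2) (y / 2)
  rw [← this]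
  congr 2
  push_cast; ring

theorem rp_sinh_half_normSq (x y : ℝ) : Complex.normSq (Complex.sinh ((x + y * Complex.I) / 2)) =
    Real.sinh (x / 2) ^ 2 + Real.sin (y / 2) ^ 2 := by
  have := rp_normSq_sinh (x / 2) (y / 2)
  rw [← this]
  congr 2
  push_cast; ring

theorem rp_sin_sq_half {y : ℝ} (h1 : -(π / 2) ≤ y) (h2 : y ≤ 0) : Real.sin (y / 2) ^ 2 ≤ 1 / 2 := by
  have h := Real.sin_sq (y / 2)
  have h3 := Real.cos_sq (y / 2)
  have h4 : 0 ≤ Real.cos (2 * (y / 2)) := Real.cos_nonneg_of_neg_pi_div_two_le_of_le (by linarith)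
    (by linarith [pi_pos])
  rw [h3] at h
  linarith

theorem rp_cosh_half_lower {x y : ℝ} (h1 : -(π / 2) ≤ y) (h2 : y ≤ 0) :
    Real.cosh (x / 2) ^ 2 / 2 ≤ Complex.normSq (Complex.cosh ((x + y * Complex.I) / 2)) := by
  rw [rp_cosh_half_normSq]
  have h3 := rp_sin_sq_half h1 h2
  have h4 : 1 ≤ Real.cosh (x / 2) ^ 2 := one_le_pow₀ (Real.one_le_cosh _)
  linarith

theorem rp_norm_cosh_half {x y : ℝ} (h1 : -(π / 2) ≤ y) (h2 : y ≤ 0) :
    ‖(Complex.cosh ((x + y * Complex.I) / 2))⁻¹‖ ≤ 4 * Real.exp (-(1 / 2 * |x|)) := by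
  have h3 := rp_cosh_half_lower (x := x) h1 h2
  rw [norm_inv]
  have h4 : Real.cosh (x / 2) / 2 ≤ ‖Complex.cosh ((x + y * Complex.I) / 2)‖ := by
    apply (pow_le_pow_iff_left₀ (by have := Real.cosh_pos (x / 2); positivity) (norm_nonneg _) two_ne_zero).mp
    rw [← Complex.normSq_eq_norm_sq]
    nlinarith [sq_nonneg (Real.cosh (x / 2))]
  have h5 := Real.cosh_pos (x / 2)
  calc (‖Complex.cosh ((x + y * Complex.I) / 2)‖)⁻¹ ≤ (Real.cosh (x / 2) / 2)⁻¹ :=
        inv_anti₀ (by positivity) h4
    _ = 2 * (Real.cosh (x / 2))⁻¹ := by field_simp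
    _ ≤ 2 * (2 * Real.exp (-|x / 2|)) := by
        gcongr; exact rp_inv_cosh_le _
    _ = 4 * Real.exp (-(1 / 2 * |x|)) := by
        rw [abs_div, abs_two]; ring_nf

theorem rp_norm_tanh_half {x y : ℝ} (h1 : -(π / 2) ≤ y) (h2 : y ≤ 0) :
    ‖Complex.sinh ((x + y * Complex.I) / 2) / Complex.cosh ((x + y * Complex.I) / 2)‖ ≤ 1 := by
  rw [norm_div]
  apply div_le_one_of_le₀ _ (norm_nonneg _)
  apply (pow_le_pow_iff_left₀ (norm_nonneg _) (norm_nonneg _) two_ne_zero).mp
  rw [← Complex.normSq_eq_norm_sq, ← Complex.normSq_eq_norm_sq, rp_cosh_half_normSq, rp_sinh_half_normSq]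
  have h3 := rp_sin_sq_half h1 h2
  have h4 := Real.cosh_sq (x / 2)
  linarith

theorem rp_norm_rpf {n : ℕ} {v : ℝ} {x y : ℝ} (h1 : -(π / 2) ≤ y) (h2 : y ≤ 0) :
    ‖rpf n v (x + y * Complex.I)‖ ≤ 4 * Real.exp (-(1 / 2 * |x|)) * Real.exp (v * y) := by
  unfold rpf
  rw [norm_mul, norm_mul, norm_pow, Complex.norm_I, one_pow, one_mul, norm_mul, norm_pow]
  have h3 := rp_norm_cosh_half (x := x) h1 h2
  have h4 := pow_le_one₀ (n := n) (norm_nonneg _) (rp_norm_tanh_half (x := x) h1 h2)
  have h5 : ‖Complex.exp (-(Complex.I * v * (x + y * Complex.I)))‖ = Real.exp (v * y) := by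
    rw [Complex.norm_exp]
    congr 1
    simp
  rw [h5]
  apply mul_le_mul_of_nonneg_right _ (Real.exp_pos _).le
  calc _ ≤ (4 * Real.exp (-(1 / 2 * |x|))) * 1 := by
        apply mul_le_mul h3 h4 (by positivity) (by positivity)
    _ = _ := mul_one _

theorem rpf_real (n : ℕ) (v x : ℝ) : rpf n v x = fn n x * Complex.exp (-(Complex.I * v * x)) := by
  unfold rpf fn
  rw [Real.tanh_eq_sinh_div_cosh]
  push_cast
  rfl

theorem rpf_diff (n : ℕ) (v : ℝ) (z : ℂ) (h1 : -(π / 2) ≤ z.im) (h2 : z.im ≤ 0) :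
    DifferentiableAt ℂ (rpf n v) z := by
  have hz : z = z.re + z.im * Complex.I := (Complex.re_add_im z).symm
  have hne : Complex.cosh (z / 2) ≠ 0 := by
    intro h
    have h3 := rp_cosh_half_lower (x := z.re) h1 h2
    rw [← hz, h, map_zero] at h3
    have := Real.one_le_cosh (z.re / 2)
    nlinarith
  unfold rpf
  have hc : DifferentiableAt ℂ (fun z : ℂ => Complex.cosh (z / 2)) z := by fun_prop
  have hs : DifferentiableAt ℂ (fun z : ℂ => Complex.sinh (z / 2)) z := by fun_prop
  exact (((hc.inv hne).mul ((hs.div hc hne).pow n)).const_mul _).mul (by fun_prop)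

theorem rp_mp_wt_nonneg {v : ℝ} (hv : 0 ≤ v) (n : ℕ) :
    |mp n v * wt v| ≤ (8 / π) * Real.exp (-(π / 2 * v)) := by
  have hrep := mp_rep n v
  have hshift := rp_shift_integral (f := rpf n v) (b := π / 2) (by positivity)
    (g := fun x => 4 * Real.exp (-(1 / 2 * |x|)))
    ((rp_integrable_exp_neg_abs (a := 1 / 2) (by norm_num)).const_mul 4)
    (by
      have h1 : Tendsto (fun x : ℝ => -(1 / 2 * |x|)) atTop atBot := by
        apply tendsto_neg_atTop_atBot.comp
        exact tendsto_abs_atTop_atTop.const_mul_atTop (by norm_num)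
      simpa using (Real.tendsto_exp_atBot.comp h1).const_mul 4)
    (by
      have h1 : Tendsto (fun x : ℝ => -(1 / 2 * |x|)) atBot atBot := by
        apply tendsto_neg_atTop_atBot.comp
        exact tendsto_abs_atBot_atTop.const_mul_atTop (by norm_num)
      simpa using (Real.tendsto_exp_atBot.comp h1).const_mul 4)
    (fun z h1 h2 => rpf_diff n v z h1 h2)
    (fun x y h1 h2 => (rp_norm_rpf h1 h2).trans (by
      have : Real.exp (v * y) ≤ 1 := Real.exp_le_one_iff.mpr (mul_nonpos_of_nonneg_of_nonpos hv h2)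
      have h3 : 0 < Real.exp (-(1 / 2 * |x|)) := Real.exp_pos _
      nlinarith))
  have h1 : ∫ r : ℝ, fn n r * Complex.exp (-(Complex.I * v * r)) = ∫ x : ℝ, rpf n v x := by
    congr 1; funext x; rw [rpf_real]
  rw [h1, hshift] at hrep
  have h2 : ‖∫ x : ℝ, rpf n v (x - ((π / 2 : ℝ) : ℂ) * Complex.I)‖ ≤
      ∫ x : ℝ, (4 * Real.exp (-(π / 2 * v))) * Real.exp (-(1 / 2 * |x|)) := by
    apply norm_integral_le_of_norm_le
    · exact (rp_integrable_exp_neg_abs (a := 1 / 2) (by norm_num)).const_mul _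
    · filter_upwards with x
      have := rp_norm_rpf (n := n) (v := v) (x := x) (y := -(π / 2)) le_rfl (by linarith [pi_pos])
      have e : (x : ℂ) + ((-(π / 2) : ℝ) : ℂ) * Complex.I = x - ((π / 2 : ℝ) : ℂ) * Complex.I := by
        push_cast; ring
      rw [e] at this
      refine this.trans (le_of_eq ?_)
      rw [show v * -(π / 2) = -(π / 2 * v) by ring]; ring
  rw [integral_const_mul, rp_integral_exp_neg_abs (by norm_num)] at h2
  have h3 : |mp n v * wt v| = ‖((mp n v * wt v : ℝ) : ℂ)‖ := by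
    rw [Complex.norm_real, Real.norm_eq_abs]
  rw [h3, hrep, norm_mul, Complex.norm_real, Real.norm_eq_abs, abs_of_pos (by positivity)]
  calc 1 / (2 * π) * ‖∫ x : ℝ, rpf n v (x - ((π / 2 : ℝ) : ℂ) * Complex.I)‖
      ≤ 1 / (2 * π) * (4 * Real.exp (-(π / 2 * v)) * (2 / (1 / 2))) := by gcongr
    _ = (8 / π) * Real.exp (-(π / 2 * v)) := by field_simp; ring

/-- the uniform bound: `P_n(v)^2 sech(π v) ≤ 8` for all `n`, `v` -/
theorem mp_unif (n : ℕ) (v : ℝ) : mp n v ^ 2 * wt v ≤ 8 := by
  have key : ∀ v : ℝ, 0 ≤ v → mp n v ^ 2 * wt v ≤ 8 := by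
    intro v hv
    have h := rp_mp_wt_nonneg hv n
    have h1 : mp n v ^ 2 * wt v = (mp n v * wt v) ^ 2 * Real.cosh (π * v) := by
      have := rp_wt_mul v
      calc mp n v ^ 2 * wt v = mp n v ^ 2 * wt v * (wt v * Real.cosh (π * v)) := by rw [this, mul_one]
        _ = _ := by ring
    rw [h1, ← sq_abs]
    have h2 : |mp n v * wt v| ^ 2 ≤ ((8 / π) * Real.exp (-(π / 2 * v))) ^ 2 := by
      gcongr
    have h3 : Real.cosh (π * v) ≤ Real.exp (π * v) := by
      rw [Real.cosh_eq]
      have : Real.exp (-(π * v)) ≤ Real.exp (π * v) := Real.exp_le_exp.mpr (by nlinarith [pi_pos])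
      linarith
    calc |mp n v * wt v| ^ 2 * Real.cosh (π * v)
        ≤ ((8 / π) * Real.exp (-(π / 2 * v))) ^ 2 * Real.exp (π * v) := by
          apply mul_le_mul h2 h3 (Real.cosh_pos _).le (by positivity)
      _ = (8 / π) ^ 2 := by
          rw [mul_pow, ← Real.exp_nat_mul, mul_assoc, ← Real.exp_add]
          have : ((2 : ℕ) : ℝ) * -(π / 2 * v) + π * v = 0 := by push_cast; ring
          rw [this, Real.exp_zero, mul_one]
      _ ≤ 8 := by
          rw [div_pow, div_le_iff₀ (by positivity)]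
          nlinarith [Real.pi_gt_three]
  rcases le_total 0 v with hv | hv
  · exact key v hv
  · have := key (-v) (by linarith)
    rw [rp_mp_neg, wt_neg, mul_pow, ← pow_mul, mul_comm n 2, pow_mul] at this
    simpa using this

/-! ### the limit for fixed `v` -/

theorem rp_fn_neg (n : ℕ) (v r : ℝ) : fn n (-r) * Complex.exp (-(Complex.I * v * ((-r : ℝ) : ℂ))) =
    (starRingEnd ℂ) (fn n r * Complex.exp (-(Complex.I * v * r))) := by
  simp only [fn, map_mul, map_pow, Complex.conj_I, Complex.conj_ofReal, ← Complex.exp_conj, map_neg]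
  rw [neg_div, Real.cosh_neg, Real.tanh_neg]
  have e1 : ∀ x : ℝ, ((-x) ^ n : ℝ) = (-1) ^ n * x ^ n := fun x => by rw [← mul_pow]; simp
  rw [e1, show (-Complex.I) ^ n = (-1) ^ n * Complex.I ^ n by rw [← mul_pow]; simp]
  push_cast
  ring_nf

theorem rp_int_half (n : ℕ) (v : ℝ) :
    mp n v * wt v = 1 / π * (∫ r in Ioi (0 : ℝ), fn n r * Complex.exp (-(Complex.I * v * r))).re := by
  have h := mp_rep n v
  have hint := rp_fn_exp_integrable n v
  have h1 : ∫ r : ℝ, fn n r * Complex.exp (-(Complex.I * v * r)) =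
      (∫ r in Iic (0 : ℝ), fn n r * Complex.exp (-(Complex.I * v * r))) +
      ∫ r in Ioi (0 : ℝ), fn n r * Complex.exp (-(Complex.I * v * r)) := by
    rw [intervalIntegral.integral_Iic_add_Ioi hint.integrableOn hint.integrableOn]
  have h2 : ∫ r in Iic (0 : ℝ), fn n r * Complex.exp (-(Complex.I * v * r)) =
      (starRingEnd ℂ) (∫ r in Ioi (0 : ℝ), fn n r * Complex.exp (-(Complex.I * v * r))) := by
    rw [← integral_conj, ← neg_zero, ← integral_comp_neg_Ioi, neg_zero]
    congr 1
    funext r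
    exact rp_fn_neg n v r
  rw [h1, h2, add_comm, Complex.add_conj] at h
  have h3 := congrArg Complex.re h
  rw [← Complex.ofReal_mul, Complex.ofReal_re, Complex.ofReal_re] at h3
  rw [h3]
  field_simp

/-- the rescaled integrand -/
noncomputable def rpB (n : ℕ) (v : ℝ) : ℝ → ℂ := (Ioi (-Real.log n)).indicator (fun s : ℝ =>
  ((2 * Real.exp (-(s / 2)) / (1 + Real.exp (-s) / n) *
    ((1 - Real.exp (-s) / n) / (1 + Real.exp (-s) / n)) ^ n : ℝ) : ℂ) * Complex.exp (-(Complex.I * v * s)))

theorem rp_cosh_inv (r : ℝ) : (Real.cosh (r / 2))⁻¹ = 2 * Real.exp (-(r / 2)) / (1 + Real.exp (-r)) := by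
  rw [Real.cosh_eq]
  have h1 : Real.exp (-r) = Real.exp (-(r / 2)) * Real.exp (-(r / 2)) := by rw [← Real.exp_add]; ring_nf
  have h2 : Real.exp (r / 2) * Real.exp (-(r / 2)) = 1 := by rw [← Real.exp_add]; simp
  rw [h1]
  have h3 := Real.exp_pos (-(r / 2))
  have h4 := Real.exp_pos (r / 2)
  rw [inv_eq_one_div, div_eq_div_iff (by positivity) (by positivity)]
  linear_combination (-Real.exp (-(r / 2)) * 0) * h2 - h2

theorem rp_tanh (r : ℝ) : Real.tanh (r / 2) = (1 - Real.exp (-r)) / (1 + Real.exp (-r)) := by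
  rw [Real.tanh_eq_sinh_div_cosh, Real.sinh_eq, Real.cosh_eq]
  have h1 : Real.exp (-r) = Real.exp (-(r / 2)) * Real.exp (-(r / 2)) := by rw [← Real.exp_add]; ring_nf
  have h2 : Real.exp (r / 2) * Real.exp (-(r / 2)) = 1 := by rw [← Real.exp_add]; simp
  rw [h1]
  have h3 := Real.exp_pos (-(r / 2))
  have h4 := Real.exp_pos (r / 2)
  rw [div_eq_div_iff (by positivity) (by positivity)]
  linear_combination (2 * Real.exp (-(r / 2)) ) * h2 * 0 + (Real.exp (-(r / 2))) * h2

theorem rp_half_eq (n : ℕ) (hn : 1 ≤ n) (v : ℝ) :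
    (√n : ℂ) * ∫ r in Ioi (0 : ℝ), fn n r * Complex.exp (-(Complex.I * v * r)) =
      Complex.I ^ n * Complex.exp (-(Complex.I * v * Real.log n)) * ∫ s, rpB n v s := by
  have hn0 : (0 : ℝ) < n := by exact_mod_cast hn
  rw [← integral_indicator measurableSet_Ioi]
  rw [← integral_add_right_eq_self (f := (Ioi (0 : ℝ)).indicator
    (fun r : ℝ => fn n r * Complex.exp (-(Complex.I * v * r)))) (Real.log n)]
  rw [← integral_const_mul, ← integral_const_mul]
  congr 1
  funext s
  unfold rpB
  by_cases hs : -Real.log n < s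
  · rw [indicator_of_mem (by simp only [mem_Ioi]; linarith), indicator_of_mem (show s ∈ Ioi (-Real.log n) from hs)]
    simp only [fn]
    rw [rp_cosh_inv, rp_tanh]
    have e1 : Real.exp (-(s + Real.log n)) = Real.exp (-s) / n := by
      rw [neg_add, Real.exp_add, Real.exp_neg (Real.log n), Real.exp_log hn0]; rfl
    have e2 : Real.exp (-((s + Real.log n) / 2)) = Real.exp (-(s / 2)) / √n := by
      rw [add_div, neg_add, Real.exp_add]
      have : Real.exp (-(Real.log n / 2)) = (√n)⁻¹ := by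
        rw [Real.exp_neg, Real.exp_half, Real.exp_log hn0]
      rw [this]; rfl
    rw [e1, e2]
    have e3 : Complex.exp (-(Complex.I * v * ((s + Real.log n : ℝ) : ℂ))) =
        Complex.exp (-(Complex.I * v * Real.log n)) * Complex.exp (-(Complex.I * v * s)) := by
      rw [← Complex.exp_add]; congr 1; push_cast; ring
    rw [e3]
    have hsq : (√n : ℂ) ≠ 0 := by exact_mod_cast (Real.sqrt_pos.mpr hn0).ne'
    push_cast
    field_simp
  · rw [indicator_of_notMem (by simp only [mem_Ioi]; linarith), indicator_of_notMem (show s ∉ Ioi (-Real.log n) from hs)]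
    simp

theorem rp_exp_half_bound (s : ℝ) : Real.exp (-(s / 2)) * Real.exp (-Real.exp (-s)) ≤
    Real.exp (-(1 / 2 * |s|)) := by
  rcases le_total 0 s with hs | hs
  · rw [abs_of_nonneg hs]
    have : Real.exp (-Real.exp (-s)) ≤ 1 := Real.exp_le_one_iff.mpr (by linarith [Real.exp_pos (-s)])
    calc _ ≤ Real.exp (-(s / 2)) * 1 := by gcongr
      _ = _ := by rw [mul_one]; congr 1; ring
  · rw [abs_of_nonpos hs]
    have h1 : Real.exp (-Real.exp (-s)) ≤ Real.exp s := by
      apply Real.exp_le_exp.mpr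
      have := Real.add_one_le_exp (-s)
      linarith
    calc _ ≤ Real.exp (-(s / 2)) * Real.exp s := by gcongr
      _ = _ := by rw [← Real.exp_add]; congr 1; ring

theorem rpB_bound (n : ℕ) (hn : 1 ≤ n) (v s : ℝ) : ‖rpB n v s‖ ≤ 2 * Real.exp (-(1 / 2 * |s|)) := by
  have hn0 : (0 : ℝ) < n := by exact_mod_cast hn
  unfold rpB
  by_cases hs : -Real.log n < s
  · rw [indicator_of_mem (show s ∈ Ioi (-Real.log n) from hs), norm_mul]
    have h1 : ‖Complex.exp (-(Complex.I * v * s))‖ = 1 := by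
      have e : -(Complex.I * v * s) = ((-(v * s) : ℝ) : ℂ) * Complex.I := by push_cast; ring
      rw [e, Complex.norm_exp_ofReal_mul_I]
    rw [h1, mul_one, Complex.norm_real, Real.norm_eq_abs]
    set ε := Real.exp (-s) / n with hε
    have hε0 : 0 < ε := by positivity
    have hε1 : ε < 1 := by
      rw [hε, div_lt_one hn0]
      calc Real.exp (-s) < Real.exp (Real.log n) := Real.exp_lt_exp.mpr (by linarith)
        _ = n := Real.exp_log hn0
    have h2 : ((1 - ε) / (1 + ε)) ^ n ≤ Real.exp (-Real.exp (-s)) := by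
      have h3 : (1 - ε) / (1 + ε) ≤ Real.exp (-ε) := by
        rw [div_le_iff₀ (by linarith)]
        have h4 := Real.one_sub_le_exp_neg ε
        have h5 := Real.exp_pos (-ε)
        nlinarith
      calc ((1 - ε) / (1 + ε)) ^ n ≤ (Real.exp (-ε)) ^ n := by
            apply pow_le_pow_left₀ _ h3
            apply div_nonneg <;> linarith
        _ = Real.exp (-Real.exp (-s)) := by
            rw [← Real.exp_nat_mul]; congr 1; rw [hε]; field_simp
    have h6 : 0 ≤ ((1 - ε) / (1 + ε)) ^ n := by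
      apply pow_nonneg; apply div_nonneg <;> linarith
    rw [abs_of_nonneg (by positivity)]
    calc 2 * Real.exp (-(s / 2)) / (1 + ε) * ((1 - ε) / (1 + ε)) ^ n
        ≤ 2 * Real.exp (-(s / 2)) * Real.exp (-Real.exp (-s)) := by
          apply mul_le_mul _ h2 h6 (by positivity)
          apply div_le_self (by positivity); linarith
      _ = 2 * (Real.exp (-(s / 2)) * Real.exp (-Real.exp (-s))) := by ring
      _ ≤ _ := by have := rp_exp_half_bound s; linarith
  · rw [indicator_of_notMem (show s ∉ Ioi (-Real.log n) from hs), norm_zero]; positivity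

/-- the limiting amplitude -/
noncomputable def rpA (v : ℝ) : ℂ := ∫ s : ℝ, ((2 * Real.exp (-(s / 2)) * Real.exp (-(2 * Real.exp (-s))) : ℝ) : ℂ) *
  Complex.exp (-(Complex.I * v * s))

theorem rpA_tendsto (v : ℝ) : Tendsto (fun n : ℕ => ∫ s, rpB n v s) atTop (𝓝 (rpA v)) := by
  apply tendsto_integral_filter_of_dominated_convergence (fun s => 2 * Real.exp (-(1 / 2 * |s|)))
  · filter_upwards [eventually_ge_atTop 1] with n hn
    unfold rpB
    have hn0 : (0 : ℝ) < n := by exact_mod_cast hn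
    apply AEStronglyMeasurable.indicator _ measurableSet_Ioi
    apply Continuous.aestronglyMeasurable
    have h1 : ∀ s : ℝ, 1 + Real.exp (-s) / n ≠ 0 := fun s => by positivity
    refine (Complex.continuous_ofReal.comp ?_).mul (by fun_prop)
    exact (Continuous.div (by fun_prop) (by fun_prop) h1).mul ((Continuous.div (by fun_prop) (by fun_prop) h1).pow n)
  · filter_upwards [eventually_ge_atTop 1] with n hn
    filter_upwards with s
    exact rpB_bound n hn v s
  · exact (rp_integrable_exp_neg_abs (a := 1 / 2) (by norm_num)).const_mul 2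
  · filter_upwards with s
    have h1 : ∀ᶠ n : ℕ in atTop, rpB n v s = ((2 * Real.exp (-(s / 2)) / (1 + Real.exp (-s) / n) *
        ((1 + -Real.exp (-s) / n) ^ n / (1 + Real.exp (-s) / n) ^ n) : ℝ) : ℂ) *
        Complex.exp (-(Complex.I * v * s)) := by
      have : Tendsto (fun n : ℕ => -Real.log n) atTop atBot :=
        tendsto_neg_atTop_atBot.comp (Real.tendsto_log_atTop.comp tendsto_natCast_atTop_atTop)
      filter_upwards [this.eventually_lt_atBot s] with n hn
      unfold rpB
      rw [indicator_of_mem (show s ∈ Ioi (-Real.log n) from hn), div_pow]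
      congr 5
      ring
    refine Tendsto.congr' (h1.mono fun n hn => hn.symm) ?_
    apply Tendsto.mul_const
    apply (Complex.continuous_ofReal.tendsto _).comp
    have h2 : Tendsto (fun n : ℕ => Real.exp (-s) / (n : ℝ)) atTop (𝓝 0) :=
      tendsto_const_div_atTop_nhds_zero_nat _
    have h3 := (tendsto_const_nhds (x := 2 * Real.exp (-(s / 2)))).div (h2.const_add 1) (by norm_num)
    have h4 := (Real.tendsto_one_add_div_pow_exp (-Real.exp (-s))).div
      (Real.tendsto_one_add_div_pow_exp (Real.exp (-s))) (Real.exp_pos _).ne'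
    have h5 := h3.mul h4
    refine h5.trans (le_of_eq ?_)
    congr 1
    rw [add_zero, div_one, ← Real.exp_sub]
    congr 2
    ring

open FourierTransform in
theorem rpA_eq (v : ℝ) : rpA v = 2 * ((2 : ℂ) ^ (-(1 / 2 + v * Complex.I)) * Complex.Gamma (1 / 2 + v * Complex.I)) := by
  set s : ℂ := 1 / 2 + v * Complex.I with hs
  have hre : s.re = 1 / 2 := by simp [hs]
  have him : s.im = v := by simp [hs]
  have h1 : Complex.Gamma s = mellin (fun x : ℝ => ((Real.exp (-x) : ℝ) : ℂ)) s := by
    rw [Complex.Gamma_eq_integral (by rw [hre]; norm_num), Complex.GammaIntegral_eq_mellin]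
  have h2 : mellin (fun x : ℝ => ((Real.exp (-(2 * x)) : ℝ) : ℂ)) s = (2 : ℂ) ^ (-s) * Complex.Gamma s := by
    rw [h1]
    have := mellin_comp_mul_left (fun x : ℝ => ((Real.exp (-x) : ℝ) : ℂ)) s (a := 2) (by norm_num)
    simpa using this
  rw [← h2, mellin_eq_fourier, Real.fourier_real_eq_integral_exp_smul, ← integral_const_mul]
  unfold rpA
  congr 1
  funext x
  rw [hre, him, smul_eq_mul, Complex.real_smul]
  have e : ((-2 * π * x * (v / (2 * π)) : ℝ) : ℂ) * Complex.I = -(Complex.I * v * x) := by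
    have : (-2 * π * x * (v / (2 * π)) : ℝ) = -(v * x) := by field_simp
    rw [this]; push_cast; ring
  rw [e]
  have e2 : Real.exp (-(1 / 2) * x) = Real.exp (-(x / 2)) := by congr 1; ring
  rw [e2]
  push_cast
  ring

theorem rpA_normSq (v : ℝ) : ‖rpA v‖ ^ 2 = 2 * π * wt v := by
  rw [rpA_eq, norm_mul, norm_mul]
  have h1 : ‖(2 : ℂ) ^ (-(1 / 2 + (v : ℂ) * Complex.I))‖ = 2 ^ (-(1 / 2) : ℝ) := by
    have := Complex.norm_cpow_eq_rpow_re_of_pos (x := 2) (by norm_num) (-(1 / 2 + (v : ℂ) * Complex.I))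
    rw [Complex.ofReal_ofNat] at this
    rw [this]
    congr 1
    simp
  have h2 : ‖Complex.Gamma (1 / 2 + v * Complex.I)‖ ^ 2 = π * wt v := by
    have h3 := Complex.Gamma_mul_Gamma_one_sub (1 / 2 + v * Complex.I)
    have h4 : (1 : ℂ) - (1 / 2 + v * Complex.I) = (starRingEnd ℂ) (1 / 2 + v * Complex.I) := by
      simp only [map_add, map_div₀, map_one, map_ofNat, map_mul, Complex.conj_ofReal, Complex.conj_I]
      ring
    rw [h4, Complex.Gamma_conj, Complex.mul_conj] at h3
    have h5 : Complex.sin (π * (1 / 2 + v * Complex.I)) = ((Real.cosh (π * v) : ℝ) : ℂ) := by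
      have : (π : ℂ) * (1 / 2 + v * Complex.I) = ((π * v : ℝ) : ℂ) * Complex.I + π / 2 := by
        push_cast; ring
      rw [this, Complex.sin_add_pi_div_two, Complex.cos_mul_I]
      push_cast; rfl
    rw [h5, Complex.normSq_eq_norm_sq] at h3
    have h6 : ‖Complex.Gamma (1 / 2 + v * Complex.I)‖ ^ 2 = π / Real.cosh (π * v) := by
      exact_mod_cast h3
    rw [h6]; unfold wt; rfl
  rw [h1, mul_pow, mul_pow, h2]
  have h7 : ((2 : ℝ) ^ (-(1 / 2) : ℝ)) ^ 2 = 1 / 2 := by
    rw [← Real.rpow_natCast, ← Real.rpow_mul (by norm_num)]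
    norm_num
  rw [h7]
  simp
  ring

/-- dominated convergence in `mp_rep` (r = log n + s), `|Γ(1/2+iv)|^2 = π / cosh(π v)` -/
theorem mp_lim (v : ℝ) :
    Tendsto (fun n : ℕ => ((n : ℝ) + 1) * ((mp (n + 1) v) ^ 2 + (mp n v) ^ 2) * wt v) atTop
      (𝓝 (2 / π)) := by
  set A : ℕ → ℂ := fun n => ∫ s, rpB n v s with hA
  set c : ℕ → ℂ := fun n => Complex.exp (-(Complex.I * v * Real.log n)) with hc
  have hAlim : Tendsto A atTop (𝓝 (rpA v)) := rpA_tendsto v
  have hcn : ∀ n, ‖c n‖ = 1 := by
    intro n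
    have e : -(Complex.I * v * (Real.log n : ℝ)) = ((-(v * Real.log n) : ℝ) : ℂ) * Complex.I := by
      push_cast; ring
    simp only [hc]
    rw [e, Complex.norm_exp_ofReal_mul_I]
  -- the half integral
  have hval : ∀ n : ℕ, 1 ≤ n → (n : ℝ) * (mp n v * wt v) ^ 2 =
      1 / π ^ 2 * (Complex.I ^ n * (c n * A n)).re ^ 2 := by
    intro n hn
    have hn0 : (0 : ℝ) < n := by exact_mod_cast hn
    have h1 := rp_half_eq n hn v
    have h2 := rp_int_half n v
    have h3 : √(n : ℝ) * (∫ r in Ioi (0 : ℝ), fn n r * Complex.exp (-(Complex.I * v * r))).re =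
        (Complex.I ^ n * (c n * A n)).re := by
      rw [← Complex.re_ofReal_mul, h1, mul_assoc]
    rw [← h3, h2, mul_pow, mul_pow, Real.sq_sqrt hn0.le]
    ring
  -- differences
  have hdiff : Tendsto (fun n => c (n + 1) * A (n + 1) - c n * A n) atTop (𝓝 0) := by
    have h1 : Tendsto (fun n : ℕ => c (n + 1) - c n) atTop (𝓝 0) := by
      have h2 : ∀ᶠ n : ℕ in atTop, ‖c (n + 1) - c n‖ ≤
          ‖Complex.exp (-(Complex.I * v * Real.log (1 + 1 / n))) - 1‖ := by
        filter_upwards [eventually_ge_atTop 1] with n hn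
        have hn0 : (0 : ℝ) < n := by exact_mod_cast hn
        have e : c (n + 1) - c n = c n * (Complex.exp (-(Complex.I * v * Real.log (1 + 1 / n))) - 1) := by
          simp only [hc]
          rw [mul_sub, mul_one, ← Complex.exp_add]
          congr 2
          have : Real.log ((n + 1 : ℕ) : ℝ) = Real.log n + Real.log (1 + 1 / n) := by
            rw [← Real.log_mul hn0.ne' (by positivity)]
            congr 1; push_cast; field_simp
          rw [this]; push_cast; ring
        rw [e, norm_mul, hcn, one_mul]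
      apply squeeze_zero_norm' h2
      have h3 : Tendsto (fun n : ℕ => Real.log (1 + 1 / (n : ℝ))) atTop (𝓝 0) := by
        have h4 : Tendsto (fun n : ℕ => 1 + 1 / (n : ℝ)) atTop (𝓝 (1 + 0)) :=
          tendsto_one_div_atTop_nhds_zero_nat.const_add 1
        have := h4.log (by norm_num)
        simpa using this
      have h5 : Tendsto (fun n : ℕ => Complex.exp (-(Complex.I * v * Real.log (1 + 1 / (n : ℝ)))) - 1)
          atTop (𝓝 0) := by
        have h6 : Tendsto (fun n : ℕ => ((Real.log (1 + 1 / (n : ℝ)) : ℝ) : ℂ)) atTop (𝓝 0) := by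
          have := (Complex.continuous_ofReal.tendsto 0).comp h3
          rw [Complex.ofReal_zero] at this
          exact this
        have h7 := ((h6.const_mul (Complex.I * v)).neg).cexp.sub_const 1
        simpa using h7
      simpa using h5.norm
    have e : ∀ n, c (n + 1) * A (n + 1) - c n * A n = (c (n + 1) - c n) * A (n + 1) +
        c n * (A (n + 1) - A n) := fun n => by ring
    simp only [e]
    have h8 : Tendsto (fun n => A (n + 1)) atTop (𝓝 (rpA v)) := hAlim.comp (tendsto_add_atTop_nat 1)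
    have h9 : Tendsto (fun n => A (n + 1) - A n) atTop (𝓝 0) := by simpa using h8.sub hAlim
    have h10 : Tendsto (fun n => c n * (A (n + 1) - A n)) atTop (𝓝 0) := by
      apply squeeze_zero_norm (a := fun n => ‖A (n + 1) - A n‖)
      · intro n; rw [norm_mul, hcn, one_mul]
      · simpa using h9.norm
    simpa using (h1.mul h8).add h10
  set γ : ℕ → ℂ := fun n => Complex.I ^ n * (c n * A n) with hγ
  have hγn : ∀ n, ‖γ n‖ = ‖A n‖ := by
    intro n; simp only [hγ]
    rw [norm_mul, norm_mul, hcn, norm_pow, Complex.norm_I, one_pow, one_mul, one_mul]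
  have hnorm : Tendsto (fun n => ‖γ n‖ ^ 2) atTop (𝓝 (2 * π * wt v)) := by
    simp only [hγn]
    rw [← rpA_normSq]
    exact hAlim.norm.pow 2
  -- re of the next one
  have hnext : Tendsto (fun n => (γ (n + 1)).re ^ 2 - (γ n).im ^ 2) atTop (𝓝 0) := by
    set δ : ℕ → ℂ := fun n => Complex.I ^ n * (c (n + 1) * A (n + 1) - c n * A n) with hδ
    have hδ0 : Tendsto δ atTop (𝓝 0) := by
      apply squeeze_zero_norm (a := fun n => ‖c (n + 1) * A (n + 1) - c n * A n‖)
      · intro n; simp only [hδ]; rw [norm_mul, norm_pow, Complex.norm_I, one_pow, one_mul]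
      · simpa using hdiff.norm
    have e : ∀ n, (γ (n + 1)).re = -((γ n).im + (δ n).im) := by
      intro n
      have : γ (n + 1) = Complex.I * (γ n + δ n) := by simp only [hγ, hδ]; ring
      rw [this]; simp
    have e2 : ∀ n, (γ (n + 1)).re ^ 2 - (γ n).im ^ 2 = (δ n).im * (2 * (γ n).im + (δ n).im) := by
      intro n; rw [e]; ring
    simp only [e2]
    have hδim : Tendsto (fun n => (δ n).im) atTop (𝓝 0) := by
      have := (Complex.continuous_im.tendsto 0).comp hδ0
      rw [Complex.zero_im] at this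
      exact this
    apply squeeze_zero_norm (a := fun n => |(δ n).im| * (2 * ‖γ n‖ + |(δ n).im|))
    · intro n
      rw [Real.norm_eq_abs, abs_mul]
      apply mul_le_mul_of_nonneg_left _ (abs_nonneg _)
      calc |2 * (γ n).im + (δ n).im| ≤ |2 * (γ n).im| + |(δ n).im| := abs_add_le _ _
        _ ≤ _ := by rw [abs_mul, abs_two]; gcongr; exact Complex.abs_im_le_norm _
    · have h1 : Tendsto (fun n => ‖γ n‖) atTop (𝓝 ‖rpA v‖) := by simp only [hγn]; exact hAlim.norm
      have := (hδim.abs).mul ((h1.const_mul 2).add hδim.abs)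
      simpa using this
  have hwt := wt_pos v
  have hπ := pi_pos
  have hmain : Tendsto (fun n : ℕ => ((n : ℝ) + 1) * ((mp (n + 1) v) ^ 2 + (mp n v) ^ 2) * wt v ^ 2) atTop
      (𝓝 (2 / π * wt v)) := by
    have h1 : Tendsto (fun n : ℕ => 1 / π ^ 2 * ((γ (n + 1)).re ^ 2 - (γ n).im ^ 2 + ‖γ n‖ ^ 2) +
        1 / π ^ 2 * (1 / (n : ℝ) * (γ n).re ^ 2)) atTop (𝓝 (1 / π ^ 2 * (0 + 2 * π * wt v) + 1 / π ^ 2 * 0)) := by
      apply ((hnext.add hnorm).const_mul _).add
      apply Tendsto.const_mul
      apply squeeze_zero_norm (a := fun n : ℕ => 1 / (n : ℝ) * ‖γ n‖ ^ 2)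
      · intro n
        rw [Real.norm_eq_abs, abs_of_nonneg (by positivity)]
        apply mul_le_mul_of_nonneg_left _ (by positivity)
        rw [← sq_abs]
        gcongr
        exact Complex.abs_re_le_norm _
      · simpa using tendsto_one_div_atTop_nhds_zero_nat.mul hnorm
    have h2 : 1 / π ^ 2 * (0 + 2 * π * wt v) + 1 / π ^ 2 * 0 = 2 / π * wt v := by field_simp; ring
    rw [h2] at h1
    refine Tendsto.congr' ?_ h1
    filter_upwards [eventually_ge_atTop 1] with n hn
    have hn0 : (0 : ℝ) < n := by exact_mod_cast hn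
    have h3 := hval n hn
    have h4 := hval (n + 1) (by omega)
    have h5 : ‖γ n‖ ^ 2 = (γ n).re ^ 2 + (γ n).im ^ 2 := by
      rw [← Complex.normSq_eq_norm_sq, Complex.normSq_apply]; ring
    change (n : ℝ) * (mp n v * wt v) ^ 2 = 1 / π ^ 2 * (γ n).re ^ 2 at h3
    change ((n + 1 : ℕ) : ℝ) * (mp (n + 1) v * wt v) ^ 2 = 1 / π ^ 2 * (γ (n + 1)).re ^ 2 at h4
    push_cast at h4
    have h6 : (mp n v * wt v) ^ 2 = 1 / π ^ 2 * (1 / (n : ℝ) * (γ n).re ^ 2) := by
      field_simp
      field_simp at h3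
      linarith
    rw [h5, ← h6]
    have e : 1 / π ^ 2 * ((γ (n + 1)).re ^ 2 - (γ n).im ^ 2 + ((γ n).re ^ 2 + (γ n).im ^ 2)) =
        1 / π ^ 2 * (γ (n + 1)).re ^ 2 + 1 / π ^ 2 * (γ n).re ^ 2 := by ring
    rw [e, ← h3, ← h4]
    ring
  have h7 := hmain.div_const (wt v)
  have e : 2 / π * wt v / wt v = 2 / π := by field_simp
  rw [e] at h7
  refine h7.congr (fun n => ?_)
  field_simp

end OneArm
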