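import Pool.Agent.Helper82.OneArm.Basic

/-! Module Sech: Fourier-Laplace transform of sech (Beta integral + reflection formula). -/

open Real MeasureTheory Filter Topology

namespace OneArm

theorem se_cosh_pos (v : ℝ) : 0 < 2 * Real.cosh (π * v) := by
  have := Real.cosh_pos (π * v)
  positivity

theorem se_log_sig (v : ℝ) :
    Real.log (sigmoid (2 * π * v)) = π * v - Real.log (2 * Real.cosh (π * v)) := by
  have h : sigmoid (2 * π * v) = Real.exp (π * v) / (2 * Real.cosh (π * v)) := by
    rw [sigmoid_def, Real.cosh_eq, eq_div_iff (by positivity), inv_mul_eq_iff_eq_mul₀ (by positivity)]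
    have : Real.exp (-(2 * π * v)) * Real.exp (π * v) = Real.exp (-(π * v)) := by
      rw [← Real.exp_add]; congr 1; ring
    linear_combination (-1 : ℝ) * this
  rw [h, Real.log_div (Real.exp_ne_zero _) (se_cosh_pos v).ne', Real.log_exp]

theorem se_log_one_sub_sig (v : ℝ) :
    Real.log (1 - sigmoid (2 * π * v)) = -(π * v) - Real.log (2 * Real.cosh (π * v)) := by
  rw [← sigmoid_neg]
  have h := se_log_sig (-v)
  have e1 : 2 * π * -v = -(2 * π * v) := by ring
  have e2 : π * -v = -(π * v) := by ring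
  rw [e1, e2, Real.cosh_neg] at h
  exact h

theorem se_integrand (s t c : ℂ) (hst : s + t = 1) (hc : s - t = c / π) (v : ℝ) :
    |sigmoid (2 * π * v) * (1 - sigmoid (2 * π * v)) * (2 * π)| •
      (((sigmoid (2 * π * v) : ℝ) : ℂ) ^ (s - 1) *
        (1 - ((sigmoid (2 * π * v) : ℝ) : ℂ)) ^ (t - 1)) =
      π * (Complex.exp (c * v) * wt v) := by
  set σ := sigmoid (2 * π * v) with hσ
  have h0 : 0 < σ := sigmoid_pos _
  have h1 : 0 < 1 - σ := by have := sigmoid_lt_one (2 * π * v); linarith
  have hσ0 : (σ : ℂ) ≠ 0 := by exact_mod_cast h0.ne'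
  have h1c : (1 : ℂ) - (σ : ℂ) = ((1 - σ : ℝ) : ℂ) := by push_cast; ring
  have hσ1 : ((1 - σ : ℝ) : ℂ) ≠ 0 := by exact_mod_cast h1.ne'
  rw [abs_of_pos (by positivity), Complex.real_smul, h1c]
  have e1 : (σ : ℂ) ^ (s - 1) = Complex.exp ((Real.log σ : ℂ) * s) / σ := by
    rw [Complex.cpow_sub _ _ hσ0, Complex.cpow_one, Complex.cpow_def_of_ne_zero hσ0,
      ← Complex.ofReal_log h0.le]
  have e2 : ((1 - σ : ℝ) : ℂ) ^ (t - 1) = Complex.exp ((Real.log (1 - σ) : ℂ) * t) /
      ((1 - σ : ℝ) : ℂ) := by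
    rw [Complex.cpow_sub _ _ hσ1, Complex.cpow_one, Complex.cpow_def_of_ne_zero hσ1,
      ← Complex.ofReal_log h1.le]
  rw [e1, e2, hσ, se_log_sig, se_log_one_sub_sig]
  have hc' : c = π * (s - t) := by
    rw [hc]; field_simp
  have key : Complex.exp (((π * v - Real.log (2 * Real.cosh (π * v)) : ℝ) : ℂ) * s) *
      Complex.exp (((-(π * v) - Real.log (2 * Real.cosh (π * v)) : ℝ) : ℂ) * t) =
      Complex.exp (c * v) * ((2 * Real.cosh (π * v) : ℝ) : ℂ)⁻¹ := by
    rw [← Complex.exp_add]
    have : ((2 * Real.cosh (π * v) : ℝ) : ℂ)⁻¹ =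
        Complex.exp (-(Real.log (2 * Real.cosh (π * v)) : ℂ)) := by
      rw [Complex.exp_neg, ← Complex.ofReal_exp, Real.exp_log (se_cosh_pos v)]
    rw [this, ← Complex.exp_add]
    congr 1
    have ht : t = 1 - s := by linear_combination hst
    rw [hc', ht]
    push_cast
    ring
  rw [← hσ]
  calc ((σ * (1 - σ) * (2 * π) : ℝ) : ℂ) *
        (Complex.exp (((π * v - Real.log (2 * Real.cosh (π * v)) : ℝ) : ℂ) * s) / σ *
          (Complex.exp (((-(π * v) - Real.log (2 * Real.cosh (π * v)) : ℝ) : ℂ) * t) /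
            ((1 - σ : ℝ) : ℂ)))
      = 2 * π * (Complex.exp (((π * v - Real.log (2 * Real.cosh (π * v)) : ℝ) : ℂ) * s) *
      Complex.exp (((-(π * v) - Real.log (2 * Real.cosh (π * v)) : ℝ) : ℂ) * t)) := by
        push_cast
        push_cast at hσ1
        field_simp
    _ = π * (Complex.exp (c * v) * wt v) := by
        rw [key, wt]
        push_cast
        ring

theorem se_hasDeriv (v : ℝ) : HasDerivAt (fun v => sigmoid (2 * π * v))
    (sigmoid (2 * π * v) * (1 - sigmoid (2 * π * v)) * (2 * π)) v := by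
  have h1 := hasDerivAt_sigmoid (2 * π * v)
  have h2 : HasDerivAt (fun v : ℝ => 2 * π * v) (2 * π) v := by
    simpa using (hasDerivAt_id v).const_mul (2 * π)
  exact h1.comp v h2

theorem se_range : (fun v : ℝ => sigmoid (2 * π * v)) '' Set.univ = Set.Ioo 0 1 := by
  rw [Set.image_univ, ← range_sigmoid]
  ext x
  constructor
  · rintro ⟨v, rfl⟩; exact ⟨_, rfl⟩
  · rintro ⟨v, rfl⟩
    refine ⟨v / (2 * π), ?_⟩
    show sigmoid (2 * π * (v / (2 * π))) = sigmoid v
    congr 1
    field_simp

theorem se_inj : Set.InjOn (fun v : ℝ => sigmoid (2 * π * v)) Set.univ := by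
  intro v _ w _ h
  have h2 := sigmoid_injective h
  have : (2 * π) ≠ 0 := by positivity
  exact mul_left_cancel₀ this h2

theorem se_integrableOn_beta {s t : ℂ} (hs : 0 < s.re) (ht : 0 < t.re) :
    IntegrableOn (fun x : ℝ => (x : ℂ) ^ (s - 1) * (1 - (x : ℂ)) ^ (t - 1)) (Set.Ioo 0 1) := by
  have h := Complex.betaIntegral_convergent hs ht
  rw [intervalIntegrable_iff_integrableOn_Ioo_of_le (by norm_num)] at h
  exact h

theorem se_re (c : ℂ) (hc : |c.re| < π) : 0 < (1 / 2 + c / (2 * π)).re ∧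
    0 < (1 / 2 - c / (2 * π)).re := by
  have h1 : (c / (2 * π)).re = c.re / (2 * π) := by
    have : c / (2 * (π : ℂ)) = c * (((1 / (2 * π) : ℝ)) : ℂ) := by push_cast; ring
    rw [this, Complex.re_mul_ofReal]; ring
  have h2 : |c.re / (2 * π)| < 1 / 2 := by
    rw [abs_div, abs_of_pos (by positivity : (0:ℝ) < 2 * π), div_lt_iff₀ (by positivity)]
    linarith
  rw [abs_lt] at h2
  constructor
  · rw [Complex.add_re, h1]; norm_num; linarith [h2.1]
  · rw [Complex.sub_re, h1]; norm_num; linarith [h2.2]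

theorem sech_laplace_integrable (c : ℂ) (hc : |c.re| < π) :
    Integrable (fun v : ℝ => Complex.exp (c * v) * wt v) := by
  obtain ⟨hs, ht⟩ := se_re c hc
  have h1 := se_integrableOn_beta hs ht
  rw [← se_range, integrableOn_image_iff_integrableOn_abs_deriv_smul MeasurableSet.univ
    (fun v _ => (se_hasDeriv v).hasDerivWithinAt) se_inj, integrableOn_univ] at h1
  have h2 : (fun v : ℝ => (π : ℂ) * (Complex.exp (c * v) * wt v)) = fun v =>
      |sigmoid (2 * π * v) * (1 - sigmoid (2 * π * v)) * (2 * π)| •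
      (((sigmoid (2 * π * v) : ℝ) : ℂ) ^ ((1 / 2 + c / (2 * π)) - 1) *
        (1 - ((sigmoid (2 * π * v) : ℝ) : ℂ)) ^ ((1 / 2 - c / (2 * π)) - 1)) := by
    funext v
    rw [se_integrand (1 / 2 + c / (2 * π)) (1 / 2 - c / (2 * π)) c (by ring) (by ring) v]
  have h3 : Integrable (fun v : ℝ => (π : ℂ) * (Complex.exp (c * v) * wt v)) := by
    rw [h2]; exact h1
  have h4 := h3.const_mul ((π : ℂ)⁻¹)
  refine h4.congr (Filter.Eventually.of_forall fun v => ?_)
  have : (π : ℂ) ≠ 0 := by exact_mod_cast Real.pi_ne_zero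
  field_simp

/-- `∫ e^{c v} sech(π v) dv = 1 / cos (c/2)` for `|Re c| < π`. -/
theorem sech_laplace (c : ℂ) (hc : |c.re| < π) :
    ∫ v : ℝ, Complex.exp (c * v) * wt v = 1 / Complex.cos (c / 2) := by
  obtain ⟨hs, ht⟩ := se_re c hc
  set s : ℂ := 1 / 2 + c / (2 * π) with hsd
  set t : ℂ := 1 / 2 - c / (2 * π) with htd
  have hpi : (π : ℂ) ≠ 0 := by exact_mod_cast Real.pi_ne_zero
  have h1 : Complex.betaIntegral s t = ∫ v : ℝ, (π : ℂ) * (Complex.exp (c * v) * wt v) := by
    rw [Complex.betaIntegral, intervalIntegral.integral_of_le (by norm_num),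
      integral_Ioc_eq_integral_Ioo, ← se_range,
      integral_image_eq_integral_abs_deriv_smul MeasurableSet.univ
        (fun v _ => (se_hasDeriv v).hasDerivWithinAt) se_inj, setIntegral_univ]
    apply integral_congr_ae
    refine Filter.Eventually.of_forall fun v => ?_
    exact se_integrand s t c (by rw [hsd, htd]; ring) (by rw [hsd, htd]; ring) v
  have h2 : Complex.betaIntegral s t = π / Complex.cos (c / 2) := by
    have h3 := Complex.Gamma_mul_Gamma_eq_betaIntegral hs ht
    have h4 : s + t = 1 := by rw [hsd, htd]; ring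
    have h5 : t = 1 - s := by rw [← h4]; ring
    rw [h4, Complex.Gamma_one, one_mul, h5, Complex.Gamma_mul_Gamma_one_sub] at h3
    rw [h5, ← h3]
    congr 1
    have h6 : π * s = π / 2 + c / 2 := by rw [hsd]; field_simp
    rw [h6, Complex.sin_add, Complex.sin_pi_div_two, Complex.cos_pi_div_two]
    ring
  rw [h2, integral_const_mul] at h1
  have h7 := mul_left_cancel₀ hpi (h1.symm.trans (by ring : (π : ℂ) / Complex.cos (c / 2) =
    π * (1 / Complex.cos (c / 2))))
  exact h7

/-! ### The shifted version -/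

theorem se_re_cosh (x β : ℝ) :
    (Complex.cosh ((x : ℂ) + β * Complex.I)).re = Real.cosh x * Real.cos β := by
  rw [Complex.cosh_add, Complex.cosh_mul_I, Complex.sinh_mul_I, ← Complex.ofReal_cosh,
    ← Complex.ofReal_sinh, ← Complex.ofReal_cos, ← Complex.ofReal_sin]
  rw [Complex.add_re, Complex.re_ofReal_mul, Complex.re_ofReal_mul, Complex.ofReal_re,
    Complex.re_ofReal_mul, Complex.I_re]
  ring

theorem se_norm_cosh (x : ℝ) {β b : ℝ} (hb : 0 ≤ b) (hb2 : b ≤ π / 2) (hβ : |β| ≤ b) :
    Real.cos b * Real.cosh x ≤ ‖Complex.cosh ((x : ℂ) + β * Complex.I)‖ := by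
  have h1 := Complex.abs_re_le_norm (Complex.cosh ((x : ℂ) + β * Complex.I))
  rw [se_re_cosh] at h1
  have h2 : Real.cos b ≤ Real.cos β := by
    rw [← Real.cos_abs β]
    exact Real.cos_le_cos_of_nonneg_of_le_pi (abs_nonneg _) (by linarith [Real.pi_pos]) hβ
  have h3 := Real.cosh_pos x
  calc Real.cos b * Real.cosh x ≤ Real.cos β * Real.cosh x := by gcongr
    _ ≤ |Real.cosh x * Real.cos β| := by rw [mul_comm]; exact le_abs_self _
    _ ≤ _ := h1

theorem se_norm_sinh (x β : ℝ) :
    ‖Complex.sinh ((x : ℂ) + β * Complex.I)‖ ≤ Real.cosh x := by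
  rw [Complex.sinh, norm_div, Complex.norm_ofNat, div_le_iff₀ (by norm_num), Real.cosh_eq]
  refine (norm_sub_le _ _).trans ?_
  rw [Complex.norm_exp, Complex.norm_exp]
  simp

theorem se_norm_exp (c : ℂ) (v : ℝ) : ‖Complex.exp (c * v)‖ = Real.exp (c.re * v) := by
  rw [Complex.norm_exp]; simp

theorem se_cosh_ne {x β : ℝ} (hβ : |β| < π / 2) :
    Complex.cosh ((x : ℂ) + β * Complex.I) ≠ 0 := by
  have h1 := se_norm_cosh x (abs_nonneg β) hβ.le (le_refl _)
  have h2 : 0 < Real.cos |β| := Real.cos_pos_of_mem_Ioo ⟨by linarith [abs_nonneg β, Real.pi_pos], hβ⟩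
  have h3 := Real.cosh_pos x
  intro h
  rw [h, norm_zero] at h1
  nlinarith [mul_pos h2 h3]

/-- the integrand -/
noncomputable def seF (c : ℂ) (β v : ℝ) : ℂ :=
  Complex.exp (c * v) / Complex.cosh (π * v + β * Complex.I)

/-- minus the derivative over `π` -/
noncomputable def seG (c : ℂ) (β v : ℝ) : ℂ :=
  Complex.exp (c * v) * Complex.sinh (π * v + β * Complex.I) /
    Complex.cosh (π * v + β * Complex.I) ^ 2

theorem se_cont_cosh (β : ℝ) : Continuous fun v : ℝ => Complex.cosh (π * v + β * Complex.I) :=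
  Complex.continuous_cosh.comp (by fun_prop)

theorem se_cosh_ne' {β : ℝ} (hβ : |β| < π / 2) (v : ℝ) :
    Complex.cosh ((π : ℂ) * v + β * Complex.I) ≠ 0 := by
  have := se_cosh_ne (x := π * v) hβ
  push_cast at this
  exact this

theorem se_contF (c : ℂ) {β : ℝ} (hβ : |β| < π / 2) : Continuous (seF c β) := by
  unfold seF
  refine Continuous.div (by fun_prop) (se_cont_cosh β) (se_cosh_ne' hβ)

theorem se_contG (c : ℂ) {β : ℝ} (hβ : |β| < π / 2) : Continuous (seG c β) := by
  unfold seG
  refine Continuous.div ?_ ((se_cont_cosh β).pow 2) (fun v => pow_ne_zero 2 (se_cosh_ne' hβ v))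
  exact (by fun_prop : Continuous fun v : ℝ => Complex.exp (c * v)).mul
    (Complex.continuous_sinh.comp (by fun_prop))

theorem se_boundF (c : ℂ) {β b : ℝ} (hb : 0 ≤ b) (hb2 : b < π / 2) (hβ : |β| ≤ b) (v : ℝ) :
    ‖seF c β v‖ ≤ (Real.cos b)⁻¹ * ‖Complex.exp (c * v) * wt v‖ := by
  have hc : 0 < Real.cos b := Real.cos_pos_of_mem_Ioo ⟨by linarith [Real.pi_pos], hb2⟩
  have h1 := se_norm_cosh (π * v) hb hb2.le hβ
  push_cast at h1
  have h3 := Real.cosh_pos (π * v)
  rw [seF, norm_div, norm_mul, wt, Complex.norm_real, Real.norm_eq_abs, abs_of_pos (by positivity)]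
  calc ‖Complex.exp (c * v)‖ / ‖Complex.cosh (π * v + β * Complex.I)‖
      ≤ ‖Complex.exp (c * v)‖ / (Real.cos b * Real.cosh (π * v)) := by gcongr
    _ = _ := by field_simp

theorem se_boundG (c : ℂ) {β b : ℝ} (hb : 0 ≤ b) (hb2 : b < π / 2) (hβ : |β| ≤ b) (v : ℝ) :
    ‖seG c β v‖ ≤ ((Real.cos b)⁻¹) ^ 2 * ‖Complex.exp (c * v) * wt v‖ := by
  have hc : 0 < Real.cos b := Real.cos_pos_of_mem_Ioo ⟨by linarith [Real.pi_pos], hb2⟩
  have h1 := se_norm_cosh (π * v) hb hb2.le hβ
  have h2 := se_norm_sinh (π * v) β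
  push_cast at h1 h2
  have h3 := Real.cosh_pos (π * v)
  rw [seG, norm_div, norm_mul, norm_mul, norm_pow, wt, Complex.norm_real, Real.norm_eq_abs,
    abs_of_pos (by positivity)]
  calc ‖Complex.exp (c * v)‖ * ‖Complex.sinh (π * v + β * Complex.I)‖ /
        ‖Complex.cosh (π * v + β * Complex.I)‖ ^ 2
      ≤ ‖Complex.exp (c * v)‖ * Real.cosh (π * v) / (Real.cos b * Real.cosh (π * v)) ^ 2 := by
        gcongr
    _ = _ := by field_simp

theorem se_integrableF (c : ℂ) (hc : |c.re| < π) {β : ℝ} (hβ : |β| < π / 2) :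
    Integrable (seF c β) := by
  refine Integrable.mono' ((sech_laplace_integrable c hc).norm.const_mul (Real.cos |β|)⁻¹)
    (se_contF c hβ).aestronglyMeasurable (Eventually.of_forall fun v => ?_)
  exact se_boundF c (abs_nonneg β) hβ (le_refl _) v

theorem se_integrableG (c : ℂ) (hc : |c.re| < π) {β : ℝ} (hβ : |β| < π / 2) :
    Integrable (seG c β) := by
  refine Integrable.mono' ((sech_laplace_integrable c hc).norm.const_mul ((Real.cos |β|)⁻¹ ^ 2))
    (se_contG c hβ).aestronglyMeasurable (Eventually.of_forall fun v => ?_)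
  exact se_boundG c (abs_nonneg β) hβ (le_refl _) v

theorem se_parts (c : ℂ) (hc : |c.re| < π) {β : ℝ} (hβ : |β| < π / 2) :
    π * ∫ v, seG c β v = c * ∫ v, seF c β v := by
  have hd : ∀ v, HasDerivAt (seF c β) (c * seF c β v - π * seG c β v) v := by
    intro v
    have hne := se_cosh_ne' hβ v
    have h1 : HasDerivAt (fun v : ℝ => Complex.exp (c * v)) (Complex.exp (c * v) * c) v := by
      have h0 : HasDerivAt (fun v : ℝ => c * (v : ℂ)) c v := by
        simpa using (Complex.ofRealCLM.hasDerivAt (x := v)).const_mul c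
      exact h0.cexp
    have h2 : HasDerivAt (fun v : ℝ => Complex.cosh (π * v + β * Complex.I))
        (Complex.sinh (π * v + β * Complex.I) * π) v := by
      have h0 : HasDerivAt (fun z : ℂ => (π : ℂ) * z + β * Complex.I) π (v : ℂ) := by
        simpa using ((hasDerivAt_id (v : ℂ)).const_mul (π : ℂ)).add_const (β * Complex.I)
      exact h0.ccosh.comp_ofReal
    have h3 := h1.div h2 hne
    refine h3.congr_deriv ?_
    unfold seF seG
    field_simp
  have hi := integral_eq_zero_of_hasDerivAt_of_integrable hd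
    (((se_integrableF c hc hβ).const_mul c).sub ((se_integrableG c hc hβ).const_mul (π : ℂ)))
    (se_integrableF c hc hβ)
  rw [integral_sub ((se_integrableF c hc hβ).const_mul c)
    ((se_integrableG c hc hβ).const_mul (π : ℂ)), integral_const_mul, integral_const_mul] at hi
  linear_combination -hi

theorem se_hasDerivAt_int (c : ℂ) (hc : |c.re| < π) {β : ℝ} (hβ : |β| < π / 2) :
    HasDerivAt (fun β => ∫ v, seF c β v) (-(Complex.I * c / π) * ∫ v, seF c β v) β := by
  set b : ℝ := (|β| + π / 2) / 2 with hb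
  have hb0 : 0 ≤ b := by have := abs_nonneg β; have := Real.pi_pos; positivity
  have hb1 : |β| < b := by rw [hb]; linarith
  have hb2 : b < π / 2 := by rw [hb]; linarith
  have hs : {x : ℝ | |x| < b} ∈ 𝓝 β := (isOpen_lt continuous_abs continuous_const).mem_nhds hb1
  have key := hasDerivAt_integral_of_dominated_loc_of_deriv_le (μ := volume)
    (F := fun (β v : ℝ) => seF c β v) (F' := fun (β v : ℝ) => -Complex.I * seG c β v) (x₀ := β)
    (bound := fun v : ℝ => ((Real.cos b)⁻¹) ^ 2 * ‖Complex.exp (c * v) * wt v‖) hs ?_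
    (se_integrableF c hc hβ) ((se_contG c hβ).aestronglyMeasurable.const_mul _) ?_
    ((sech_laplace_integrable c hc).norm.const_mul _) ?_
  · have h2 := key.2
    refine h2.congr_deriv ?_
    rw [integral_const_mul]
    have h3 := se_parts c hc hβ
    have hpi : (π : ℂ) ≠ 0 := by exact_mod_cast Real.pi_ne_zero
    have h4 : (∫ v, seG c β v) = c * (∫ v, seF c β v) / π := by
      rw [eq_div_iff hpi]
      linear_combination h3
    rw [h4]
    ring
  · filter_upwards [hs] with x hx
    exact (se_contF c (lt_trans hx hb2)).aestronglyMeasurable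
  · refine Eventually.of_forall fun v x hx => ?_
    rw [norm_mul, norm_neg, Complex.norm_I, one_mul]
    exact se_boundG c hb0 hb2 (le_of_lt hx) v
  · refine Eventually.of_forall fun v x hx => ?_
    have hne := se_cosh_ne' (lt_trans hx hb2) v
    have h2 : HasDerivAt (fun x : ℝ => Complex.cosh (π * v + x * Complex.I))
        (Complex.sinh (π * v + x * Complex.I) * Complex.I) x := by
      have h0 : HasDerivAt (fun z : ℂ => (π : ℂ) * (v : ℂ) + z * Complex.I) Complex.I (x : ℂ) := by
        simpa using ((hasDerivAt_id (x : ℂ)).mul_const Complex.I).const_add ((π : ℂ) * (v : ℂ))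
      exact h0.ccosh.comp_ofReal
    have h3 := (hasDerivAt_const x (Complex.exp (c * v))).div h2 hne
    refine h3.congr_deriv ?_
    unfold seG
    field_simp
    ring

/-- shifted version, `|β| < π/2` -/
theorem sech_shift (c : ℂ) (hc : |c.re| < π) (β : ℝ) (hβ : |β| < π / 2) :
    ∫ v : ℝ, Complex.exp (c * v) / Complex.cosh (π * v + β * Complex.I) =
      Complex.exp (-(Complex.I * c * β / π)) / Complex.cos (c / 2) := by
  set Ψ : ℝ → ℂ := fun β => (∫ v, seF c β v) * Complex.exp (Complex.I * c / π * β) with hΨ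
  have hopen : IsOpen {x : ℝ | |x| < π / 2} := isOpen_lt continuous_abs continuous_const
  have hd : ∀ x ∈ {x : ℝ | |x| < π / 2}, HasDerivAt Ψ 0 x := by
    intro x hx
    have h1 := se_hasDerivAt_int c hc hx
    have h2 : HasDerivAt (fun x : ℝ => Complex.exp (Complex.I * c / π * x))
        (Complex.exp (Complex.I * c / π * x) * (Complex.I * c / π)) x := by
      have h0 : HasDerivAt (fun x : ℝ => Complex.I * c / π * (x : ℂ)) (Complex.I * c / π) x := by
        simpa using (Complex.ofRealCLM.hasDerivAt (x := x)).const_mul (Complex.I * c / π)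
      exact h0.cexp
    refine (h1.mul h2).congr_deriv ?_
    ring
  have hconv : IsPreconnected {x : ℝ | |x| < π / 2} := by
    have : {x : ℝ | |x| < π / 2} = Set.Ioo (-(π / 2)) (π / 2) := by
      ext x; simp [abs_lt]
    rw [this]
    exact isPreconnected_Ioo
  have hconst : Ψ β = Ψ 0 := by
    apply hopen.is_const_of_deriv_eq_zero hconv
      (fun x hx => (hd x hx).differentiableAt.differentiableWithinAt)
      (fun x hx => (hd x hx).deriv) hβ
    simp [Real.pi_pos]
  have h0 : Ψ 0 = 1 / Complex.cos (c / 2) := by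
    rw [← sech_laplace c hc, hΨ]
    simp only [Complex.ofReal_zero, mul_zero, Complex.exp_zero, mul_one]
    congr 1
    funext v
    unfold seF wt
    push_cast
    rw [zero_mul, add_zero, div_eq_mul_inv]
  rw [h0] at hconst
  have h1 : (∫ v : ℝ, seF c β v) = Complex.exp (-(Complex.I * c * β / π)) / Complex.cos (c / 2) := by
    have h2 : (∫ v : ℝ, seF c β v) = Ψ β * Complex.exp (-(Complex.I * c / π * β)) := by
      rw [hΨ]
      simp only
      rw [mul_assoc, ← Complex.exp_add, add_neg_cancel, Complex.exp_zero, mul_one]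
    rw [h2, hconst]
    have : -(Complex.I * c * β / π) = -(Complex.I * c / π * β) := by ring
    rw [this]
    ring
  exact h1

end OneArm
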